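import Pool.Agent.U26Z.NP.Cb
import Pool.Agent.U26Z.NL.AS

set_option autoImplicit false

/-!
# Almost sure convergence and convergence in probability of the weighted correlations
-/

namespace Pool.Agent.U26Z.NP

open Finset Filter Topology MeasureTheory ProbabilityTheory
open Pool.Agent.U26Z.NL (EE cm lamT nf BD noisy TF xs xs_ge xs_tend)

theorem pow23_small {ε : ℝ} (hε : 0 < ε) : ∀ᶠ x : ℕ in atTop, (x : ℝ) ^ ((2 : ℝ) / 3) ≤ ε * x := by
  have h1 := ((tendsto_rpow_atTop (show (0 : ℝ) < 1 / 3 by norm_num)).comp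
    cast_tend).eventually_ge_atTop (1 / ε)
  filter_upwards [h1, eventually_ge_atTop 1] with x hx hx1
  have hx0 : (0 : ℝ) < x := by exact_mod_cast hx1
  simp only [Function.comp_apply] at hx
  have h2 : (x : ℝ) = (x : ℝ) ^ ((2 : ℝ) / 3) * (x : ℝ) ^ ((1 : ℝ) / 3) := by
    rw [← Real.rpow_add hx0]; norm_num
  have h3 : 0 < (x : ℝ) ^ ((2 : ℝ) / 3) := Real.rpow_pos_of_pos hx0 _
  rw [div_le_iff₀ hε] at hx
  calc (x : ℝ) ^ ((2 : ℝ) / 3) = (x : ℝ) ^ ((2 : ℝ) / 3) * 1 := (mul_one _).symm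
    _ ≤ (x : ℝ) ^ ((2 : ℝ) / 3) * ((x : ℝ) ^ ((1 : ℝ) / 3) * ε) := mul_le_mul_of_nonneg_left hx h3.le
    _ = ε * ((x : ℝ) ^ ((2 : ℝ) / 3) * (x : ℝ) ^ ((1 : ℝ) / 3)) := by ring
    _ = ε * x := by rw [← h2]

theorem tail_primes {K : ℕ} (hK : 1 ≤ K) : ∃ C : ℝ, ∀ᶠ x : ℕ in atTop,
    ∑ p ∈ (Icc 1 x).filter (fun p => p.Prime ∧ rt K x < p), (1 : ℝ) / p ≤ C := by
  obtain ⟨C, hC⟩ := Pool.Agent.Erdos456.Mert.mertens_inv
  refine ⟨2 * C + Real.log (2 * K), ?_⟩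
  filter_upwards [rt_log hK, (rt_tend hK).eventually_ge_atTop 3] with x hx hx3
  have hrtx : rt K x ≤ x := (Nat.le_self_pow (by omega) _).trans (rt_pow hK x)
  have hxx : 3 ≤ x := hx3.trans hrtx
  have hK0 : (0 : ℝ) < K := by exact_mod_cast hK
  have hlx : 0 < Real.log x := Real.log_pos (by exact_mod_cast (by omega : 1 < x))
  have hlz : 0 < Real.log (rt K x) := Real.log_pos (by exact_mod_cast (by omega : 1 < rt K x))
  have h6 := abs_le.1 (hC x hxx)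
  have h7 := abs_le.1 (hC (rt K x) hx3)
  have h8 : ∑ p ∈ (Icc 1 x).filter Nat.Prime, (1 : ℝ) / p =
      ∑ p ∈ (Icc 1 (rt K x)).filter Nat.Prime, (1 : ℝ) / p +
      ∑ p ∈ (Icc 1 x).filter (fun p => p.Prime ∧ rt K x < p), (1 : ℝ) / p := by
    rw [← Finset.sum_union]
    · congr 1
      ext p
      simp only [mem_filter, mem_union, mem_Icc]
      constructor
      · rintro ⟨⟨h8, h9⟩, h10⟩
        rcases le_or_gt p (rt K x) with h11 | h11
        · exact Or.inl ⟨⟨h8, h11⟩, h10⟩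
        · exact Or.inr ⟨⟨h8, h9⟩, h10, h11⟩
      · rintro (⟨⟨h8, h9⟩, h10⟩ | ⟨⟨h8, h9⟩, h10, h11⟩)
        · exact ⟨⟨h8, by omega⟩, h10⟩
        · exact ⟨⟨h8, h9⟩, h10⟩
    · rw [Finset.disjoint_left]
      intro p hp hp'
      rw [mem_filter, mem_Icc] at hp hp'
      omega
  have h9 : Real.log (Real.log x) - Real.log (Real.log (rt K x)) ≤ Real.log (2 * K) := by
    have h10 := Real.log_le_log hlx hx
    rw [Real.log_mul (by positivity) hlz.ne'] at h10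
    linarith
  linarith [h6.2, h7.1]

theorem M_tend {K : ℕ} (hK : 1 ≤ K) (δ : ℕ → ℝ) (h0 : ∀ p, 0 ≤ δ p) (h1 : ∀ p, δ p ≤ 1 / 2) (Y : ℕ → ℕ)
    (hY : Tendsto (fun x : ℕ => ∑ p ∈ (Icc 1 x).filter (fun p => p.Prime ∧ Y x < p), δ p / p)
      atTop atTop) :
    Tendsto (fun x : ℕ => ∑ p ∈ (Icc 1 (rt K x)).filter (fun p => p.Prime ∧ Y x < p), δ p / p)
      atTop atTop := by
  obtain ⟨C, hC⟩ := tail_primes hK
  have h2 := tendsto_atTop_add_const_right atTop (-C) hY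
  refine tendsto_atTop_mono' atTop ?_ h2
  filter_upwards [hC] with x hx
  have h3 : ∑ p ∈ (Icc 1 x).filter (fun p => p.Prime ∧ Y x < p), δ p / p ≤
      ∑ p ∈ (Icc 1 (rt K x)).filter (fun p => p.Prime ∧ Y x < p), δ p / p +
      ∑ p ∈ (Icc 1 x).filter (fun p => p.Prime ∧ rt K x < p), (1 : ℝ) / p := by
    have h4 : (Icc 1 x).filter (fun p => p.Prime ∧ Y x < p) ⊆
        (Icc 1 (rt K x)).filter (fun p => p.Prime ∧ Y x < p) ∪
        (Icc 1 x).filter (fun p => p.Prime ∧ rt K x < p) := by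
      intro p hp
      simp only [mem_filter, mem_union, mem_Icc] at hp ⊢
      rcases le_or_gt p (rt K x) with h5 | h5
      · exact Or.inl ⟨⟨hp.1.1, h5⟩, hp.2⟩
      · exact Or.inr ⟨hp.1, hp.2.1, h5⟩
    have h5 := Finset.sum_le_sum_of_subset_of_nonneg h4 (f := fun p : ℕ => δ p / p)
      (fun p _ _ => div_nonneg (h0 p) (Nat.cast_nonneg p))
    have hdis : Disjoint ((Icc 1 (rt K x)).filter (fun p => p.Prime ∧ Y x < p))
        ((Icc 1 x).filter (fun p => p.Prime ∧ rt K x < p)) := by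
      rw [Finset.disjoint_left]
      intro p hp hp'
      rw [mem_filter, mem_Icc] at hp hp'
      omega
    rw [Finset.sum_union hdis] at h5
    refine h5.trans (add_le_add le_rfl ?_)
    refine Finset.sum_le_sum fun p _ => ?_
    apply div_le_div_of_nonneg_right _ (Nat.cast_nonneg p)
    linarith [h1 p]
  linarith

/-- interpolation between the points of the scale -/
theorem interp {S : ℕ → ℝ} {C : ℝ} (hC : 0 < C)
    (hS : ∀ᶠ u : ℕ in atTop, ∀ x v : ℕ, u ≤ x → x ≤ v → v ≤ 2 * u → u ≤ (v - u) ^ 3 →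
      |S x - S u| ≤ C * ((v : ℝ) - u) + (u : ℝ) ^ ((2 : ℝ) / 3)) {θ ε : ℝ} (hθ : 1 < θ)
    (hθ2 : θ ≤ 3 / 2) (hε : 0 < ε) (hθε : C * (θ - 1) ≤ ε)
    (h : ∀ᶠ j : ℕ in atTop, |S (xs θ j)| ≤ ε * xs θ j) :
    ∀ᶠ x : ℕ in atTop, |S x| ≤ 3 * ε * x := by
  have hmono : Monotone (xs θ) := fun i j hij =>
    Nat.ceil_mono (pow_le_pow_right₀ hθ.le hij)
  have hθ0 : 0 < θ - 1 := by linarith
  -- conditions on the lower end point
  have hu : ∀ᶠ u : ℕ in atTop, (∀ x v : ℕ, u ≤ x → x ≤ v → v ≤ 2 * u → u ≤ (v - u) ^ 3 →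
      |S x - S u| ≤ C * ((v : ℝ) - u) + (u : ℝ) ^ ((2 : ℝ) / 3)) ∧ 2 ≤ u ∧
      2 * θ / (θ - 1) ≤ u ∧ 8 / (θ - 1) ^ 3 ≤ u ∧ 2 * C / ε ≤ u ∧ (u : ℝ) ^ ((2 : ℝ) / 3) ≤ ε / 2 * u := by
    filter_upwards [hS, eventually_ge_atTop 2, cast_tend.eventually_ge_atTop (2 * θ / (θ - 1)),
      cast_tend.eventually_ge_atTop (8 / (θ - 1) ^ 3), cast_tend.eventually_ge_atTop (2 * C / ε),
      pow23_small (show 0 < ε / 2 by positivity)] with u h1 h2 h3 h4 h5 h6
    exact ⟨h1, h2, h3, h4, h5, h6⟩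
  obtain ⟨J, hJ⟩ := eventually_atTop.1 (h.and ((xs_tend hθ).eventually hu))
  filter_upwards [eventually_ge_atTop (xs θ J)] with x hx
  have h1 : ∃ j, x < xs θ j := ((xs_tend hθ).eventually_gt_atTop x).exists
  classical
  obtain ⟨m, hm⟩ : ∃ m, m = Nat.find h1 := ⟨_, rfl⟩
  have hm1 : x < xs θ m := by rw [hm]; exact Nat.find_spec h1
  have hmJ : J < m := by
    by_contra hcon
    have := hmono (not_lt.1 hcon)
    omega
  obtain ⟨j, rfl⟩ : ∃ j, m = j + 1 := ⟨m - 1, by omega⟩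
  have hj : xs θ j ≤ x := by
    have := Nat.find_min h1 (m := j) (by omega)
    omega
  obtain ⟨h2, h3, h4, h5, h6, h7, h8⟩ := hJ j (by omega)
  obtain ⟨u, hu'⟩ : ∃ u, u = xs θ j := ⟨_, rfl⟩
  obtain ⟨v, hv'⟩ : ∃ v, v = xs θ (j + 1) := ⟨_, rfl⟩
  have hv1 : (v : ℝ) ≤ θ ^ (j + 1) + 1 := by rw [hv']; exact (Nat.ceil_lt_add_one (by positivity)).le
  have hv2 : θ ^ (j + 1) ≤ v := by rw [hv']; exact xs_ge θ _
  have hu1 : (u : ℝ) ≤ θ ^ j + 1 := by rw [hu']; exact (Nat.ceil_lt_add_one (by positivity)).le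
  have hu2 : θ ^ j ≤ u := by rw [hu']; exact xs_ge θ _
  rw [← hu'] at h2 h3 h4 h5 h6 h7 h8 hj
  rw [← hv'] at hm1
  have hu0 : (0 : ℝ) < u := by exact_mod_cast (by omega : 0 < u)
  have hu2' : (2 : ℝ) ≤ u := by exact_mod_cast h4
  have hvu : (v : ℝ) ≤ θ * u + 1 := by
    rw [pow_succ] at hv1
    nlinarith
  have hv2u : v ≤ 2 * u := by
    have : (v : ℝ) ≤ 2 * u := by nlinarith
    exact_mod_cast this
  have hvu2 : (θ - 1) * u / 2 ≤ (v : ℝ) - u := by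
    rw [pow_succ] at hv2
    rw [div_le_iff₀ hθ0] at h5
    nlinarith
  have huv : u ≤ v := by omega
  have hvu3 : u ≤ (v - u) ^ 3 := by
    have h9 : (u : ℝ) ≤ ((v : ℝ) - u) ^ 3 := by
      have h10 : ((θ - 1) * u / 2) ^ 3 ≤ ((v : ℝ) - u) ^ 3 := pow_le_pow_left₀ (by positivity) hvu2 3
      refine le_trans ?_ h10
      have h11 : ((θ - 1) * u / 2) ^ 3 = (θ - 1) ^ 3 / 8 * u ^ 2 * u := by ring
      rw [h11]
      rw [div_le_iff₀ (by positivity)] at h6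
      have h12 : (1 : ℝ) ≤ (θ - 1) ^ 3 / 8 * u ^ 2 := by
        have h13 : (u : ℝ) * 1 ≤ u * u := mul_le_mul_of_nonneg_left (by linarith) hu0.le
        have h14 : 0 < (θ - 1) ^ 3 := by positivity
        nlinarith
      nlinarith
    have h10 : ((u : ℕ) : ℝ) ≤ (((v - u) ^ 3 : ℕ) : ℝ) := by
      push_cast [Nat.cast_sub huv]
      exact h9
    exact_mod_cast h10
  have h9 := h3 x v hj hm1.le hv2u hvu3
  have h10 : |S x| ≤ |S u| + |S x - S u| := by
    have := abs_add_le (S u) (S x - S u)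
    simpa using this
  have h11 : C * ((v : ℝ) - u) ≤ C * ((θ - 1) * u + 1) := mul_le_mul_of_nonneg_left (by linarith) hC.le
  have h12 : C * (θ - 1) * u ≤ ε * u := mul_le_mul_of_nonneg_right hθε hu0.le
  have h13 : C ≤ ε / 2 * u := by
    rw [div_le_iff₀ hε] at h7
    linarith
  have h14 : (u : ℝ) ≤ x := by exact_mod_cast hj
  have h15 : 3 * ε * (u : ℝ) ≤ 3 * ε * x := mul_le_mul_of_nonneg_left h14 (by positivity)
  linarith

section
variable {Ω : Type*} [MeasurableSpace Ω] {μ : Measure Ω} [IsProbabilityMeasure μ] {ξ : ℕ → Ω → ℤ}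
  {δ : ℕ → ℝ} {H G : Finset ℕ} {w : ℕ → ℝ}

omit [MeasurableSpace Ω] in
theorem cs_noisy (hξ : ∀ p ω, ξ p ω = 1 ∨ ξ p ω = -1) {B : ℕ} (hB : ∀ b ∈ G, b ≤ B) (x : ℕ) (ω : Ω) :
    cs w H G (noisy ξ ω) x = cs w H G (lamT (TF ξ ((Icc 1 (x + B)).filter Nat.Prime) ω)) x := by
  unfold cs
  refine Finset.sum_congr rfl fun n hn => ?_
  congr 1
  refine Finset.prod_congr rfl fun b hb => ?_
  rw [mem_Icc] at hn
  congr 1
  apply Pool.Agent.U26Z.NL.noisy_eq hξ
  intro p hp hpn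
  rw [mem_filter, mem_Icc]
  refine ⟨⟨hp.one_lt.le, ?_⟩, hp⟩
  have h1 := Nat.le_of_dvd (by omega) hpn
  have h2 := hB b hb
  omega

theorem noisy_abs' (hξ : ∀ p ω, ξ p ω = 1 ∨ ξ p ω = -1) (ω : Ω) (n : ℕ) : |(noisy ξ ω n : ℝ)| ≤ 1 := by
  have := Pool.Agent.U26Z.NL.noisy_abs hξ ω n
  exact_mod_cast this

theorem cs_diff (hw : ∀ n, |w n| ≤ 1) {f : ℕ → ℤ} (hf : ∀ n, |(f n : ℝ)| ≤ 1) {u x v : ℕ} (hux : u ≤ x)
    (hxv : x ≤ v) : |cs w H G f x - cs w H G f u| ≤ ∑ n ∈ Ioc u v, WW H n := by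
  have h1 : cs w H G f x - cs w H G f u = ∑ n ∈ Ioc u x, w n * WW H n * ∏ b ∈ G, (f (n + b) : ℝ) := by
    unfold cs
    have h2 : Icc 1 x = Icc 1 u ∪ Ioc u x := by
      ext n
      simp only [mem_Icc, mem_union, mem_Ioc]
      omega
    have h3 : Disjoint (Icc 1 u) (Ioc u x) := by
      rw [Finset.disjoint_left]
      intro n hn hn'
      rw [mem_Icc] at hn
      rw [mem_Ioc] at hn'
      omega
    rw [h2, Finset.sum_union h3]
    ring
  rw [h1]
  refine (Finset.abs_sum_le_sum_abs _ _).trans ?_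
  have h3 : ∀ n ∈ Ioc u x, |w n * WW H n * ∏ b ∈ G, (f (n + b) : ℝ)| ≤ WW H n := by
    intro n _
    rw [abs_mul, abs_mul, Finset.abs_prod, abs_of_nonneg (WW_nonneg H n)]
    have h4 : ∏ b ∈ G, |(f (n + b) : ℝ)| ≤ 1 :=
      Finset.prod_le_one (fun b _ => abs_nonneg _) (fun b _ => hf _)
    have h5 : |w n| * WW H n ≤ WW H n := by
      calc |w n| * WW H n ≤ 1 * WW H n := mul_le_mul_of_nonneg_right (hw n) (WW_nonneg H n)
        _ = _ := one_mul _
    calc |w n| * WW H n * ∏ b ∈ G, |(f (n + b) : ℝ)| ≤ WW H n * 1 :=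
          mul_le_mul h5 h4 (Finset.prod_nonneg fun b _ => abs_nonneg _) (WW_nonneg H n)
      _ = _ := mul_one _
  refine (Finset.sum_le_sum h3).trans ?_
  exact Finset.sum_le_sum_of_subset_of_nonneg (Finset.Ioc_subset_Ioc_right hxv)
    (fun _ _ _ => WW_nonneg _ _)

theorem prob_main (hind : iIndepFun ξ μ) (hm : ∀ p, Measurable (ξ p))
    (hξ : ∀ p ω, ξ p ω = 1 ∨ ξ p ω = -1) (h0 : ∀ p, 0 ≤ δ p) (h1 : ∀ p, δ p ≤ 1 / 2)
    (hμ : ∀ p, μ {ω | ξ p ω = -1} = ENNReal.ofReal (δ p)) {B : ℕ} (hB : ∀ b ∈ G, b ≤ B) {x : ℕ}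
    {ε c : ℝ} (h : EE δ ((Icc 1 (x + B)).filter Nat.Prime)
      (fun T => if ε * x ≤ |cs w H G (lamT T) x| then 1 else 0) ≤ c) :
    μ {ω | ε * x ≤ |cs w H G (noisy ξ ω) x|} ≤ ENNReal.ofReal c := by
  classical
  have h2 := Pool.Agent.U26Z.NL.prob_le hind hm h0 h1 hμ ((Icc 1 (x + B)).filter Nat.Prime)
    (fun T => ε * x ≤ |cs w H G (lamT T) x|)
  have h3 : {ω | ε * x ≤ |cs w H G (noisy ξ ω) x|} =
      {ω | ε * x ≤ |cs w H G (lamT (TF ξ ((Icc 1 (x + B)).filter Nat.Prime) ω)) x|} := by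
    ext ω
    rw [Set.mem_setOf_eq, Set.mem_setOf_eq, cs_noisy hξ hB]
  rw [h3]
  refine h2.trans (ENNReal.ofReal_le_ofReal ?_)
  convert h using 3

/-- the threshold may be taken to be at most `log x` -/
theorem trunc (h0 : ∀ p, 0 ≤ δ p) {Y : ℕ → ℕ}
    (hY1 : Tendsto (fun x : ℕ => (Y x : ℝ) / Real.log (Real.log x)) atTop atTop)
    (hY2 : Tendsto (fun x : ℕ => ∑ p ∈ (Icc 1 x).filter (fun p => p.Prime ∧ Y x < p), δ p / p)
      atTop atTop) : ∃ Y' : ℕ → ℕ, (∀ x, (Y' x : ℝ) ≤ Real.log x) ∧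
    Tendsto (fun x : ℕ => (Y' x : ℝ) / Real.log (Real.log x)) atTop atTop ∧
    Tendsto (fun x : ℕ => ∑ p ∈ (Icc 1 x).filter (fun p => p.Prime ∧ Y' x < p), δ p / p)
      atTop atTop := by
  refine ⟨fun x => min (Y x) ⌊Real.log x⌋₊, fun x => ?_, ?_, ?_⟩
  · have h1 : ((min (Y x) ⌊Real.log x⌋₊ : ℕ) : ℝ) ≤ (⌊Real.log x⌋₊ : ℝ) := by
      exact_mod_cast min_le_right _ _
    exact h1.trans (Nat.floor_le (Real.log_natCast_nonneg x))
  · rw [tendsto_atTop]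
    intro b
    have hlog : Tendsto (fun x : ℕ => Real.log (x : ℝ)) atTop atTop :=
      Real.tendsto_log_atTop.comp cast_tend
    have hll : Tendsto (fun x : ℕ => Real.log (Real.log x)) atTop atTop :=
      Real.tendsto_log_atTop.comp hlog
    have h2 := hlog.eventually (Real.isLittleO_log_id_atTop.bound
      (show (0 : ℝ) < 1 / (2 * (|b| + 1)) by positivity))
    filter_upwards [hY1.eventually_ge_atTop b, h2, hll.eventually_gt_atTop 0,
      hlog.eventually_ge_atTop 2] with x h3 h4 h5 h6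
    rw [le_div_iff₀ h5] at h3 ⊢
    rw [Nat.cast_min, le_min_iff]
    refine ⟨h3, ?_⟩
    rw [Real.norm_of_nonneg h5.le, id, Real.norm_of_nonneg (by linarith), one_div, inv_mul_eq_div,
      le_div_iff₀ (by positivity)] at h4
    have h7 : Real.log x < ⌊Real.log x⌋₊ + 1 := Nat.lt_floor_add_one _
    have h8 : b * Real.log (Real.log x) ≤ (|b| + 1) * Real.log (Real.log x) :=
      mul_le_mul_of_nonneg_right (by linarith [le_abs_self b]) h5.le
    linarith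
  · refine tendsto_atTop_mono (fun x => ?_) hY2
    refine Finset.sum_le_sum_of_subset_of_nonneg ?_ (fun p _ _ => div_nonneg (h0 p) (Nat.cast_nonneg p))
    intro p hp
    rw [mem_filter] at hp ⊢
    exact ⟨hp.1, hp.2.1, lt_of_le_of_lt (min_le_left _ _) hp.2.2⟩

/-- almost sure smallness at one precision -/
theorem as_eps (hind : iIndepFun ξ μ) (hm : ∀ p, Measurable (ξ p))
    (hξ : ∀ p ω, ξ p ω = 1 ∨ ξ p ω = -1) (h0 : ∀ p, 0 ≤ δ p) (h1 : ∀ p, δ p ≤ 1 / 2)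
    (hμ : ∀ p, μ {ω | ξ p ω = -1} = ENNReal.ofReal (δ p)) (hw : ∀ n, |w n| ≤ 1)
    (hG : Disjoint H G) (hne : G.Nonempty) {Y : ℕ → ℕ} (hY0 : ∀ x, (Y x : ℝ) ≤ Real.log x)
    (hY1 : Tendsto (fun x : ℕ => (Y x : ℝ) / Real.log (Real.log x)) atTop atTop)
    (hY2 : Tendsto (fun x : ℕ => ∑ p ∈ (Icc 1 x).filter (fun p => p.Prime ∧ Y x < p), δ p / p)
      atTop atTop) {ε : ℝ} (hε : 0 < ε) :
    ∀ᵐ ω ∂μ, ∀ᶠ x : ℕ in atTop, |cs w H G (noisy ξ ω) x| ≤ 3 * ε * x := by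
  obtain ⟨K, C, B, hK, hC, hB, hB1, hcube⟩ := cube_main H G hG hne
  obtain ⟨C₂, hC₂, hint⟩ := interval_le H
  obtain ⟨c, hc⟩ : ∃ c : ℝ, c = ε ^ 2 / (8 * C) := ⟨_, rfl⟩
  have hC0 : 0 < C := by linarith
  have hc0 : 0 < c := by rw [hc]; positivity
  obtain ⟨θ, hθ, hθ2, hθε⟩ : ∃ θ : ℝ, 1 < θ ∧ θ ≤ 3 / 2 ∧ C₂ * (θ - 1) ≤ ε := by
    refine ⟨1 + min (1 / 2) (ε / C₂), ?_, ?_, ?_⟩
    · have : 0 < min (1 / 2) (ε / C₂) := lt_min (by norm_num) (by positivity)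
      linarith
    · have : min (1 / 2) (ε / C₂) ≤ 1 / 2 := min_le_left _ _
      linarith
    · have h2 : min (1 / 2) (ε / C₂) ≤ ε / C₂ := min_le_right _ _
      have h3 : C₂ * (1 + min (1 / 2) (ε / C₂) - 1) = C₂ * min (1 / 2) (ε / C₂) := by ring
      rw [h3]
      calc C₂ * min (1 / 2) (ε / C₂) ≤ C₂ * (ε / C₂) := mul_le_mul_of_nonneg_left h2 hC₂.le
        _ = ε := by field_simp
  have hMt := M_tend (K := K) (by omega) δ h0 h1 Y hY2
  have hll : Tendsto (fun x : ℕ => Real.log (Real.log x)) atTop atTop :=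
    Real.tendsto_log_atTop.comp (Real.tendsto_log_atTop.comp cast_tend)
  have hYt : Tendsto (fun x : ℕ => (Y x : ℝ)) atTop atTop := by
    have h2 := hY1.atTop_mul_atTop₀ hll
    refine h2.congr' ?_
    filter_upwards [hll.eventually_gt_atTop 0] with x hx
    field_simp
  have hexp : ∀ᶠ x : ℕ in atTop, C * Real.exp (-(2 * ∑ q ∈ (Icc 1 (rt K x)).filter
      (fun p => p.Prime ∧ Y x < p), δ q / q)) ≤ ε / 8 := by
    have h2 : Tendsto (fun x : ℕ => C * Real.exp (-(2 * ∑ q ∈ (Icc 1 (rt K x)).filter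
      (fun p => p.Prime ∧ Y x < p), δ q / q))) atTop (𝓝 (C * 0)) := by
      apply Tendsto.const_mul
      exact Real.tendsto_exp_neg_atTop_nhds_zero.comp (hMt.const_mul_atTop (by norm_num))
    rw [mul_zero] at h2
    exact h2.eventually_le_const (by positivity)
  have hev : ∀ᶠ x : ℕ in atTop, μ {ω | ε * x ≤ |cs w H G (noisy ξ ω) x|} ≤
      ENNReal.ofReal (2 * (Real.log x ^ 2)⁻¹) := by
    filter_upwards [hcube, hexp, hYt.eventually_ge_atTop (B : ℝ), hYt.eventually_ge_atTop (8 * C / ε),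
      hY1.eventually_ge_atTop (2 / c), hll.eventually_gt_atTop 0,
      pow23_small (show 0 < ε / 4 by positivity)] with x e1 e2 e3 e4 e6 e7 e8
    have hBY : B ≤ Y x := by exact_mod_cast e3
    have hY0' : (0 : ℝ) < Y x := by
      have : (1 : ℝ) ≤ B := by exact_mod_cast hB1
      linarith
    have h2 := e1 w hw δ h0 h1 (Y x) hBY (hY0 x) ε hε (by
      have h3 : C * (1 / (Y x : ℝ)) ≤ ε / 8 := by
        rw [mul_one_div, div_le_iff₀ hY0']
        rw [div_le_iff₀ hε] at e4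
        linarith
      rw [mul_add]
      linarith) e8
    refine (prob_main hind hm hξ h0 h1 hμ (fun b hb => hB b (Finset.mem_union_right _ hb)) h2).trans ?_
    apply ENNReal.ofReal_le_ofReal
    rw [← hc]
    apply mul_le_mul_of_nonneg_left _ (by norm_num)
    have hl0 : 0 < Real.log x := by
      by_contra hcon
      rcases (not_lt.1 hcon).eq_or_lt with h2 | h2
      · rw [h2, Real.log_zero] at e7
        exact lt_irrefl _ e7
      · have : Real.log (x : ℝ) < 0 := h2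
        have h3 : 0 ≤ Real.log (x : ℝ) := Real.log_natCast_nonneg x
        linarith
    have h2 : (Real.log x ^ 2)⁻¹ = Real.exp (-(2 * Real.log (Real.log x))) := by
      rw [Real.exp_neg, two_mul, Real.exp_add, Real.exp_log hl0, sq]
    rw [h2]
    apply Real.exp_le_exp.2
    have h3 : 2 / c * Real.log (Real.log x) ≤ Y x := by
      rw [le_div_iff₀ e7] at e6
      exact e6
    have h4 := mul_le_mul_of_nonneg_left h3 hc0.le
    have h5 : c * (2 / c * Real.log (Real.log x)) = 2 * Real.log (Real.log x) := by field_simp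
    linarith
  obtain ⟨J, hJ⟩ := eventually_atTop.1 ((xs_tend hθ).eventually hev)
  have hlθ : 0 < Real.log θ := Real.log_pos hθ
  have hsum : Summable (fun i : ℕ => 2 / Real.log θ ^ 2 * (1 / ((i : ℝ) + 1) ^ 2)) := by
    apply Summable.mul_left
    have h2 := (summable_nat_add_iff 1).2 (Real.summable_one_div_nat_pow.2 (by norm_num : 1 < 2))
    simpa using h2
  have hBC : ∑' i, μ {ω | ε * (xs θ (i + (J + 1)) : ℕ) ≤
      |cs w H G (noisy ξ ω) (xs θ (i + (J + 1)))|} ≠ ⊤ := by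
    refine ne_top_of_le_ne_top hsum.tsum_ofReal_ne_top (ENNReal.tsum_le_tsum fun i => ?_)
    refine (hJ (i + (J + 1)) (by omega)).trans (ENNReal.ofReal_le_ofReal ?_)
    have h2 : ((i : ℝ) + 1) * Real.log θ ≤ Real.log (xs θ (i + (J + 1)) : ℕ) := by
      have h3 : Real.log (θ ^ (i + (J + 1))) ≤ Real.log (xs θ (i + (J + 1)) : ℕ) :=
        Real.log_le_log (by positivity) (xs_ge θ _)
      rw [Real.log_pow] at h3
      refine le_trans ?_ h3
      apply mul_le_mul_of_nonneg_right _ hlθ.le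
      push_cast
      have : (0 : ℝ) ≤ J := Nat.cast_nonneg J
      linarith
    have h3 : (((i : ℝ) + 1) * Real.log θ) ^ 2 ≤ Real.log (xs θ (i + (J + 1)) : ℕ) ^ 2 :=
      pow_le_pow_left₀ (by positivity) h2 2
    have h4 : (Real.log (xs θ (i + (J + 1)) : ℕ) ^ 2)⁻¹ ≤ ((((i : ℝ) + 1) * Real.log θ) ^ 2)⁻¹ :=
      inv_anti₀ (by positivity) h3
    refine (mul_le_mul_of_nonneg_left h4 (by norm_num)).trans (le_of_eq ?_)
    field_simp
  filter_upwards [ae_eventually_notMem hBC] with ω hω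
  have h2 : ∀ᶠ j : ℕ in atTop, |cs w H G (noisy ξ ω) (xs θ j)| ≤ ε * (xs θ j : ℕ) := by
    obtain ⟨I, hI⟩ := eventually_atTop.1 hω
    refine eventually_atTop.2 ⟨I + (J + 1), fun j hj => ?_⟩
    have h3 := hI (j - (J + 1)) (by omega)
    have h4 : j - (J + 1) + (J + 1) = j := by omega
    rw [h4, not_le] at h3
    exact h3.le
  refine interp (S := fun x => cs w H G (noisy ξ ω) x) hC₂ ?_ hθ hθ2 hε hθε h2
  filter_upwards [hint] with u hu x v hux hxv hv huv3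
  exact (cs_diff hw (noisy_abs' hξ ω) hux hxv).trans (hu u v (hux.trans hxv) hv huv3)

theorem tend_of_eps {S : ℕ → ℝ} (h : ∀ m : ℕ, ∀ᶠ x : ℕ in atTop, |S x| ≤ 3 * (1 / ((m : ℝ) + 1)) * x) :
    Tendsto (fun x : ℕ => S x / x) atTop (𝓝 0) := Pool.Agent.U26Z.NL.tend_of_eps h

/-- **the almost sure theorem** -/
theorem as_main (hind : iIndepFun ξ μ) (hm : ∀ p, Measurable (ξ p))
    (hξ : ∀ p ω, ξ p ω = 1 ∨ ξ p ω = -1) (h0 : ∀ p, 0 ≤ δ p) (h1 : ∀ p, δ p ≤ 1 / 2)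
    (hμ : ∀ p, μ {ω | ξ p ω = -1} = ENNReal.ofReal (δ p)) (hw : ∀ n, |w n| ≤ 1) {Y : ℕ → ℕ}
    (hY1 : Tendsto (fun x : ℕ => (Y x : ℝ) / Real.log (Real.log x)) atTop atTop)
    (hY2 : Tendsto (fun x : ℕ => ∑ p ∈ (Icc 1 x).filter (fun p => p.Prime ∧ Y x < p), δ p / p)
      atTop atTop) :
    ∀ᵐ ω ∂μ, ∀ HG : Finset ℕ × Finset ℕ, Disjoint HG.1 HG.2 → HG.2.Nonempty →
      Tendsto (fun x : ℕ => cs w HG.1 HG.2 (noisy ξ ω) x / x) atTop (𝓝 0) := by
  obtain ⟨Y', h2, h3, h4⟩ := trunc h0 hY1 hY2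
  rw [ae_all_iff]
  intro HG
  by_cases hd : Disjoint HG.1 HG.2
  swap
  · exact Eventually.of_forall fun ω h => absurd h hd
  by_cases hn : HG.2.Nonempty
  swap
  · exact Eventually.of_forall fun ω _ h => absurd h hn
  have h5 : ∀ᵐ ω ∂μ, ∀ m : ℕ, ∀ᶠ x : ℕ in atTop,
      |cs w HG.1 HG.2 (noisy ξ ω) x| ≤ 3 * (1 / ((m : ℝ) + 1)) * x := by
    rw [ae_all_iff]
    exact fun m => as_eps hind hm hξ h0 h1 hμ hw hd hn h2 h3 h4 (by positivity)
  filter_upwards [h5] with ω hω _ _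
  exact tend_of_eps hω

/-- **convergence in probability** -/
theorem prob_tend (hind : iIndepFun ξ μ) (hm : ∀ p, Measurable (ξ p))
    (hξ : ∀ p ω, ξ p ω = 1 ∨ ξ p ω = -1) (h0 : ∀ p, 0 ≤ δ p) (h1 : ∀ p, δ p ≤ 1 / 2)
    (hμ : ∀ p, μ {ω | ξ p ω = -1} = ENNReal.ofReal (δ p)) (hw : ∀ n, |w n| ≤ 1)
    (hns : ¬ Summable (fun p : ℕ => if p.Prime then δ p / p else 0)) (hG : Disjoint H G)
    (hne : G.Nonempty) {ε : ℝ} (hε : 0 < ε) :
    Tendsto (fun x : ℕ => μ {ω | ε * x ≤ |cs w H G (noisy ξ ω) x|}) atTop (𝓝 0) := by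
  obtain ⟨K, C, B, hK, hC, hB, hB1, hcube⟩ := cube_main H G hG hne
  obtain ⟨c, hc⟩ : ∃ c : ℝ, c = ε ^ 2 / (8 * C) := ⟨_, rfl⟩
  have hC0 : 0 < C := by linarith
  have hc0 : 0 < c := by rw [hc]; positivity
  have hf0 : ∀ p : ℕ, 0 ≤ (if p.Prime then δ p / p else (0 : ℝ)) := by
    intro p
    split_ifs
    · exact div_nonneg (h0 p) (Nat.cast_nonneg p)
    · exact le_rfl
  have hdiv : Tendsto (fun n : ℕ => ∑ p ∈ range n, (if p.Prime then δ p / p else (0 : ℝ))) atTop atTop :=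
    (not_summable_iff_tendsto_nat_atTop_of_nonneg hf0).1 hns
  have hYdiv : ∀ y : ℕ, Tendsto (fun x : ℕ => ∑ p ∈ (Icc 1 x).filter (fun p => p.Prime ∧ y < p), δ p / p)
      atTop atTop := by
    intro y
    have h2 := tendsto_atTop_add_const_right atTop
      (-(∑ p ∈ range (y + 1), (if p.Prime then δ p / p else (0 : ℝ))))
      (hdiv.comp (tendsto_add_atTop_nat 1))
    refine tendsto_atTop_mono' atTop ?_ h2
    filter_upwards [eventually_ge_atTop y] with x hx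
    simp only [Function.comp_apply]
    have h3 : ∑ p ∈ range (x + 1), (if p.Prime then δ p / p else (0 : ℝ)) =
        ∑ p ∈ range (y + 1), (if p.Prime then δ p / p else (0 : ℝ)) +
        ∑ p ∈ (Icc 1 x).filter (fun p => p.Prime ∧ y < p), δ p / p := by
      rw [← Finset.sum_filter, ← Finset.sum_filter, ← Finset.sum_union]
      · congr 1
        ext p
        simp only [mem_filter, mem_range, mem_union, mem_Icc]
        constructor
        · rintro ⟨h4, h5⟩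
          rcases le_or_gt p y with h6 | h6
          · exact Or.inl ⟨by omega, h5⟩
          · exact Or.inr ⟨⟨h5.one_lt.le, by omega⟩, h5, h6⟩
        · rintro (⟨h4, h5⟩ | ⟨⟨h4, h5⟩, h6, h7⟩)
          · exact ⟨by omega, h5⟩
          · exact ⟨by omega, h6⟩
      · rw [Finset.disjoint_left]
        intro p hp hp'
        rw [mem_filter, mem_range] at hp
        rw [mem_filter] at hp'
        omega
    rw [h3]
    linarith
  rw [ENNReal.tendsto_nhds_zero]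
  intro η hη
  -- the choice of `y`
  have e1 : Tendsto (fun y : ℕ => ENNReal.ofReal (2 * Real.exp (-(c * y)))) atTop (𝓝 0) := by
    have h2 : Tendsto (fun y : ℕ => 2 * Real.exp (-(c * y))) atTop (𝓝 (2 * 0)) := by
      apply Tendsto.const_mul
      exact Real.tendsto_exp_neg_atTop_nhds_zero.comp (cast_tend.const_mul_atTop hc0)
    rw [mul_zero] at h2
    have h3 := ENNReal.tendsto_ofReal h2
    rwa [ENNReal.ofReal_zero] at h3
  have e2 := (ENNReal.tendsto_nhds_zero.1 e1) η hη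
  obtain ⟨y, hy1, hy2, hy3⟩ := (e2.and ((cast_tend.eventually_ge_atTop (8 * C / ε)).and
    (eventually_ge_atTop B))).exists
  have hMt := M_tend (K := K) (by omega) δ h0 h1 (fun _ => y) (hYdiv y)
  have hexp : ∀ᶠ x : ℕ in atTop, C * Real.exp (-(2 * ∑ q ∈ (Icc 1 (rt K x)).filter
      (fun p => p.Prime ∧ y < p), δ q / q)) ≤ ε / 8 := by
    have h2 : Tendsto (fun x : ℕ => C * Real.exp (-(2 * ∑ q ∈ (Icc 1 (rt K x)).filter
      (fun p => p.Prime ∧ y < p), δ q / q))) atTop (𝓝 (C * 0)) := by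
      apply Tendsto.const_mul
      exact Real.tendsto_exp_neg_atTop_nhds_zero.comp (hMt.const_mul_atTop (by norm_num))
    rw [mul_zero] at h2
    exact h2.eventually_le_const (by positivity)
  filter_upwards [hcube, hexp, (Real.tendsto_log_atTop.comp cast_tend).eventually_ge_atTop (y : ℝ),
      pow23_small (show 0 < ε / 4 by positivity)] with x e1 e2 e3 e8
  have hY0' : (0 : ℝ) < y := by exact_mod_cast (lt_of_lt_of_le hB1 hy3)
  have h2 := e1 w hw δ h0 h1 y hy3 e3 ε hε (by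
    have h3 : C * (1 / (y : ℝ)) ≤ ε / 8 := by
      rw [mul_one_div, div_le_iff₀ hY0']
      rw [div_le_iff₀ hε] at hy2
      linarith
    rw [mul_add]
    linarith) e8
  refine (prob_main hind hm hξ h0 h1 hμ (fun b hb => hB b (Finset.mem_union_right _ hb)) h2).trans ?_
  rw [← hc]
  exact hy1

end

end Pool.Agent.U26Z.NP
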