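import Pool.Agent.U26Z.NP.W2

set_option autoImplicit false

/-!
# The weight on the integers with a prime factor in a thin set
-/

namespace Pool.Agent.U26Z.NP

open Finset Filter Topology

/-- the primes to be sieved out for the cofactor `m` -/
def Tm (z₁ y m : ℕ) : Finset ℕ := (Icc 1 y).filter (fun q => q.Prime ∧ z₁ < q ∧ ¬ q ∣ m)

theorem mem_Tm {z₁ y m q : ℕ} : q ∈ Tm z₁ y m ↔ q.Prime ∧ z₁ < q ∧ q ≤ y ∧ ¬ q ∣ m := by
  unfold Tm
  rw [mem_filter, mem_Icc]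
  constructor
  · rintro ⟨⟨h1, h2⟩, h3, h4, h5⟩
    exact ⟨h3, h4, h2, h5⟩
  · rintro ⟨h3, h4, h2, h5⟩
    exact ⟨⟨h3.one_lt.le, h2⟩, h3, h4, h5⟩

theorem T_prod (z₁ : ℕ) : ∃ C : ℝ, 0 < C ∧ ∀ y : ℕ, 3 ≤ y → ∀ m : ℕ, 1 ≤ m →
    ∏ q ∈ Tm z₁ y m, (1 - 1 / (q : ℝ)) ≤
      C * (Real.exp (∑ q ∈ m.primeFactors, 1 / (q : ℝ)) / Real.log y) := by
  classical
  obtain ⟨C₁, hC₁⟩ := Pool.Agent.Erdos456.Mert.mertens_inv
  obtain ⟨S₁, hS₁⟩ : ∃ S₁ : ℝ, S₁ = ∑ q ∈ (Icc 1 z₁).filter Nat.Prime, 1 / (q : ℝ) := ⟨_, rfl⟩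
  refine ⟨Real.exp (C₁ + S₁), by positivity, fun y hy m hm => ?_⟩
  have hly : 0 < Real.log y := Real.log_pos (by
    have : (3 : ℝ) ≤ y := by exact_mod_cast hy
    linarith)
  have hM : Real.log (Real.log y) - C₁ - S₁ - ∑ q ∈ m.primeFactors, 1 / (q : ℝ) ≤
      ∑ q ∈ Tm z₁ y m, 1 / (q : ℝ) := by
    have h1 := (abs_le.1 (hC₁ y hy)).1
    have h2 : (Icc 1 y).filter Nat.Prime ⊆ (Tm z₁ y m ∪ (Icc 1 z₁).filter Nat.Prime) ∪ m.primeFactors := by
      intro q hq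
      rw [mem_filter, mem_Icc] at hq
      rw [mem_union, mem_union, mem_Tm, mem_filter, mem_Icc, Nat.mem_primeFactors]
      by_cases h3 : q ∣ m
      · exact Or.inr ⟨hq.2, h3, by omega⟩
      · by_cases h4 : z₁ < q
        · exact Or.inl (Or.inl ⟨hq.2, h4, hq.1.2, h3⟩)
        · exact Or.inl (Or.inr ⟨⟨hq.1.1, by omega⟩, hq.2⟩)
    have h3 : ∑ q ∈ (Icc 1 y).filter Nat.Prime, 1 / (q : ℝ) ≤
        ∑ q ∈ Tm z₁ y m, 1 / (q : ℝ) + S₁ + ∑ q ∈ m.primeFactors, 1 / (q : ℝ) := by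
      refine (Finset.sum_le_sum_of_subset_of_nonneg h2 (fun _ _ _ => by positivity)).trans ?_
      refine (sum_union_le _ _ _ (fun _ => by positivity)).trans (add_le_add ?_ le_rfl)
      rw [hS₁]
      exact sum_union_le _ _ _ (fun _ => by positivity)
    linarith
  have h1 : ∏ q ∈ Tm z₁ y m, (1 - 1 / (q : ℝ)) ≤ Real.exp (-(∑ q ∈ Tm z₁ y m, 1 / (q : ℝ))) := by
    rw [← Finset.sum_neg_distrib, Real.exp_sum]
    refine Finset.prod_le_prod (fun q hq => ?_) fun q _ => ?_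
    · have hq1 : (1 : ℝ) ≤ q := by exact_mod_cast (mem_Tm.1 hq).1.one_lt.le
      rw [sub_nonneg, div_le_one (by linarith)]
      exact hq1
    · have := Real.add_one_le_exp (-(1 / (q : ℝ)))
      linarith
  refine h1.trans ?_
  have h2 : Real.exp (C₁ + S₁) * (Real.exp (∑ q ∈ m.primeFactors, 1 / (q : ℝ)) / Real.log y) =
      Real.exp (C₁ + S₁ + ∑ q ∈ m.primeFactors, 1 / (q : ℝ) - Real.log (Real.log y)) := by
    rw [Real.exp_sub, Real.exp_add (C₁ + S₁), Real.exp_log hly]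
    ring
  rw [h2]
  apply Real.exp_le_exp.2
  linarith

theorem le_rt {s x v : ℕ} (hs : 1 ≤ s) (h : v ^ s ≤ x) : v ≤ rt s x := by
  unfold rt
  apply Nat.le_floor
  have hs0 : (s : ℝ) ≠ 0 := by exact_mod_cast (by omega : s ≠ 0)
  have h1 : ((v : ℝ) ^ s) ^ ((1 : ℝ) / s) ≤ (x : ℝ) ^ ((1 : ℝ) / s) :=
    Real.rpow_le_rpow (by positivity) (by exact_mod_cast h) (by positivity)
  rw [← Real.rpow_natCast, ← Real.rpow_mul (Nat.cast_nonneg v), mul_one_div_cancel hs0,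
    Real.rpow_one] at h1
  exact h1

open Classical in
/-- **very large prime factors** -/
theorem big (H : Finset ℕ) (b : ℕ) (hb : b ∉ H) : ∃ C : ℝ, 0 < C ∧ ∀ s : ℕ, 4 ≤ s →
    ∀ᶠ x : ℕ in atTop, ∑ n ∈ (Icc 1 x).filter (fun n => ∃ p : ℕ, p.Prime ∧ p ∣ n + b ∧ (x / p) ^ s < x),
      WW H n ≤ C / s * x := by
  obtain ⟨K, C₁, z₁, hK, hC₁, hz₁, hbz, hS⟩ := wsieve H b hb
  obtain ⟨CT, hCT, hT⟩ := T_prod z₁
  obtain ⟨CR, hCR, hR⟩ := R_sum (H.card + 1) (by positivity)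
  have hK0 : (0 : ℝ) < K := by exact_mod_cast (by omega : 0 < K)
  obtain ⟨C₅, hC₅⟩ : ∃ C₅ : ℝ, C₅ = C₁ * 2 * CT * (2 * K) := ⟨_, rfl⟩
  have hC₅0 : 0 < C₅ := by rw [hC₅]; positivity
  refine ⟨2 * C₅ * CR + 1, by positivity, fun s hs => ?_⟩
  have hs0 : (0 : ℝ) < s := by exact_mod_cast (by omega : 0 < s)
  have e1 : ∀ᶠ x : ℕ in atTop, 8 * s ^ 3 ≤ rt s x := (rt_tend (by omega)).eventually_ge_atTop _
  have e2 : ∀ᶠ x : ℕ in atTop, 2 * (s : ℝ) ≤ Real.log x :=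
    (Real.tendsto_log_atTop.comp cast_tend).eventually_ge_atTop _
  filter_upwards [hS, e1, e2, rt_log (show 1 ≤ K by omega), eventually_ge_atTop 1] with x hx hx1 hx2 hx3 hx4
  have hx0 : (0 : ℝ) < x := by exact_mod_cast hx4
  obtain ⟨y, hy⟩ : ∃ y, y = rt K x := ⟨_, rfl⟩
  have hzy : z₁ ≤ y := by rw [hy]; exact hx.1
  have hbz' : b < z₁ := hbz b (Finset.mem_insert_self b H)
  have hyx : y ^ 3 ≤ x := by rw [hy]; exact pow_le_rt hK (by norm_num) (by omega)
  have hy3 : 3 ≤ y := by omega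
  have hly : 0 < Real.log y := Real.log_pos (by exact_mod_cast (by omega : 1 < y))
  have hlx : 0 < Real.log x := by linarith
  obtain ⟨M, hM⟩ : ∃ M, M = rt s x + 1 := ⟨_, rfl⟩
  have hrt1 : 1 ≤ rt s x := by
    have : 1 ≤ 8 * s ^ 3 := Nat.mul_pos (by norm_num) (pow_pos (by omega) 3)
    omega
  have hrt4 : rt s x ^ 4 ≤ x := pow_le_rt hs (by norm_num) hrt1
  have hMs : (M * s) ^ 3 ≤ x := by
    calc (M * s) ^ 3 ≤ (2 * rt s x * s) ^ 3 := Nat.pow_le_pow_left (Nat.mul_le_mul_right _ (by omega)) 3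
      _ = (8 * s ^ 3) * rt s x ^ 3 := by ring
      _ ≤ rt s x * rt s x ^ 3 := Nat.mul_le_mul_right _ hx1
      _ = rt s x ^ 4 := by ring
      _ ≤ x := hrt4
  have hM3 : M ^ 3 ≤ x := (Nat.pow_le_pow_left (Nat.le_mul_of_pos_right M (by omega)) 3).trans hMs
  -- the sets
  obtain ⟨A, hA⟩ : ∃ A : ℕ → Finset ℕ, A = fun m => (Icc 1 x).filter
      (fun n => ∃ p : ℕ, p.Prime ∧ y < p ∧ n + b = m * p) := ⟨_, rfl⟩
  have hsub : (Icc 1 x).filter (fun n => ∃ p : ℕ, p.Prime ∧ p ∣ n + b ∧ (x / p) ^ s < x) ⊆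
      (Icc 1 M).biUnion A := by
    intro n hn
    rw [mem_filter] at hn
    obtain ⟨hn1, p, hp, hpn, hps⟩ := hn
    have hn1' := mem_Icc.1 hn1
    have hpy : y < p := by
      by_contra hcon
      have h1 : p ^ 3 ≤ x := (Nat.pow_le_pow_left (not_lt.1 hcon) 3).trans hyx
      obtain ⟨v, hv⟩ : ∃ v, v = x / p := ⟨_, rfl⟩
      rw [← hv] at hps
      have h2 : p ^ 2 ≤ v := by
        rw [hv, Nat.le_div_iff_mul_le hp.pos]
        calc p ^ 2 * p = p ^ 3 := by ring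
          _ ≤ x := h1
      have h3 : x < p * (v + 1) := by
        rw [hv]
        exact Nat.lt_mul_div_succ _ hp.pos
      have h4 : 2 * p ≤ v := by nlinarith [hp.two_le]
      have h5 : p * (v + 1) ≤ v ^ 2 := by nlinarith [hp.two_le]
      have h6 : v ^ 2 ≤ v ^ s := Nat.pow_le_pow_right (by have := hp.two_le; omega) (by omega)
      omega
    obtain ⟨m, hm⟩ := hpn
    rw [mem_biUnion]
    refine ⟨m, ?_, ?_⟩
    · rw [mem_Icc]
      constructor
      · rcases Nat.eq_zero_or_pos m with h | h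
        · rw [h, mul_zero] at hm
          omega
        · exact h
      · have h1 : x / p ≤ rt s x := le_rt (by omega) hps.le
        have h2 : x < p * (x / p + 1) := Nat.lt_mul_div_succ _ hp.pos
        by_contra hcon
        have h3 : x / p + 2 ≤ m := by omega
        have h4 : p * (x / p + 2) ≤ p * m := Nat.mul_le_mul_left _ h3
        have h5 : p * (x / p + 2) = p * (x / p + 1) + p := by ring
        omega
    · rw [hA]
      simp only [mem_filter]
      exact ⟨hn1, p, hp, hpy, by rw [hm, mul_comm]⟩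
  have h1 : ∑ n ∈ (Icc 1 x).filter (fun n => ∃ p : ℕ, p.Prime ∧ p ∣ n + b ∧ (x / p) ^ s < x), WW H n ≤
      ∑ m ∈ Icc 1 M, ∑ n ∈ A m, WW H n := by
    refine (Finset.sum_le_sum_of_subset_of_nonneg hsub (fun _ _ _ => WW_nonneg _ _)).trans ?_
    have h3 : ∀ s : Finset ℕ, ∑ n ∈ s.biUnion A, WW H n ≤ ∑ m ∈ s, ∑ n ∈ A m, WW H n := by
      intro s
      induction s using Finset.induction_on with
      | empty => simp
      | insert b s hb ih =>
        rw [Finset.biUnion_insert, Finset.sum_insert hb]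
        exact (sum_union_le _ _ _ (WW_nonneg H)).trans (add_le_add le_rfl ih)
    exact h3 _
  -- each of them
  have h2 : ∀ m ∈ Icc 1 M, ∑ n ∈ A m, WW H n ≤
      C₅ * (x / Real.log x) * (1 / (m : ℝ) * Real.exp ((H.card + 1) * ∑ q ∈ m.primeFactors, 1 / (q : ℝ))) +
        (x : ℝ) ^ ((2 : ℝ) / 3) := by
    intro m hm
    rw [mem_Icc] at hm
    have hm0 : (0 : ℝ) < m := by exact_mod_cast hm.1
    obtain ⟨X, hX⟩ : ∃ X, X = (x + b) / m := ⟨_, rfl⟩
    have hmx : m ^ 3 ≤ x := (Nat.pow_le_pow_left hm.2 3).trans hM3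
    have hbx : b ≤ x := by
      have : y ≤ y ^ 3 := Nat.le_self_pow (by norm_num) y
      omega
    have hX1 : m ^ 2 ≤ X := by
      rw [hX, Nat.le_div_iff_mul_le (by omega)]
      calc m ^ 2 * m = m ^ 3 := by ring
        _ ≤ x + b := by omega
    have hX2 : x ≤ m * (2 * X) := by
      have h1 : x + b < m * (X + 1) := by
        rw [hX]
        exact Nat.lt_mul_div_succ _ (by omega)
      have h2 : 1 ≤ X := by nlinarith [hm.1]
      have h3 : m * (X + 1) ≤ m * (2 * X) := Nat.mul_le_mul_left _ (by omega)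
      omega
    have hX3 : x ≤ X ^ 3 := by
      rcases Nat.lt_or_ge m 2 with h2 | h2
      · have : m = 1 := by omega
        rw [this, Nat.div_one] at hX
        have h3 : X ≤ X ^ 3 := Nat.le_self_pow (by norm_num) X
        omega
      · have h1 : m * 2 ≤ X ^ 2 := by
          have h2' : (m ^ 2) ^ 2 ≤ X ^ 2 := Nat.pow_le_pow_left hX1 2
          have h3 : m * 2 ≤ m * m := Nat.mul_le_mul_left _ h2
          have h4 : m * m ≤ (m ^ 2) ^ 2 := by nlinarith
          omega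
        calc x ≤ m * (2 * X) := hX2
          _ = (m * 2) * X := by ring
          _ ≤ X ^ 2 * X := Nat.mul_le_mul_right _ h1
          _ = X ^ 3 := by ring
    have hX4 : X ≤ 2 * x := by
      rw [hX]
      exact (Nat.div_le_self _ _).trans (by omega)
    have hX5 : (X : ℝ) ≤ 2 * (x / m) := by
      have h1 : ((X : ℕ) : ℝ) ≤ ((x + b : ℕ) : ℝ) / m := by rw [hX]; exact Nat.cast_div_le
      refine h1.trans ?_
      rw [div_le_iff₀ hm0]
      have h2 : ((x + b : ℕ) : ℝ) ≤ 2 * x := by exact_mod_cast (by omega : x + b ≤ 2 * x)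
      have h3 : 2 * ((x : ℝ) / m) * m = 2 * x := by field_simp
      linarith
    have key := hx.2 X m (-(b : ℤ)) hm.1 hX3 hX4 (Tm z₁ y m) (fun q hq => by
      rw [← hy]; exact mem_Tm.1 hq) (A m) (by
        intro n hn
        rw [hA] at hn
        simp only [mem_filter, mem_Icc] at hn
        rw [mem_Icc]
        omega) (by
        intro n hn
        rw [hA] at hn
        simp only [mem_filter, mem_Icc] at hn
        obtain ⟨hn1, p, hp, hpy, hpn⟩ := hn
        refine ⟨⟨p, ?_, ?_⟩, fun q hq hqn => ?_⟩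
        · rw [mem_Icc]
          refine ⟨hp.one_lt.le, ?_⟩
          rw [hX, Nat.le_div_iff_mul_le (by omega), mul_comm, ← hpn]
          omega
        · have : ((n + b : ℕ) : ℤ) = ((m * p : ℕ) : ℤ) := by rw [hpn]
          push_cast at this
          linarith
        · obtain ⟨h1, h2, h3, h4⟩ := mem_Tm.1 hq
          rw [hpn] at hqn
          rcases h1.dvd_mul.1 hqn with h5 | h5
          · exact h4 h5
          · have := (Nat.prime_dvd_prime_iff_eq h1 hp).1 h5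
            omega)
    refine key.trans (add_le_add ?_ le_rfl)
    have h3 := hT y hy3 m hm.1
    have h4 : 1 / Real.log y ≤ 2 * K / Real.log x := by
      rw [div_le_div_iff₀ hly hlx]
      rw [← hy] at hx3
      linarith
    have hE0 := Real.exp_pos (∑ q ∈ m.primeFactors, 1 / (q : ℝ))
    have h5 : ∏ q ∈ Tm z₁ y m, (1 - 1 / (q : ℝ)) ≤
        CT * (Real.exp (∑ q ∈ m.primeFactors, 1 / (q : ℝ)) * (2 * K / Real.log x)) := by
      refine h3.trans (mul_le_mul_of_nonneg_left ?_ hCT.le)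
      rw [div_eq_mul_one_div]
      exact mul_le_mul_of_nonneg_left h4 hE0.le
    have h6 : 0 ≤ ∏ q ∈ Tm z₁ y m, (1 - 1 / (q : ℝ)) := by
      refine Finset.prod_nonneg fun q hq => ?_
      have hq1 : (1 : ℝ) ≤ q := by exact_mod_cast (mem_Tm.1 hq).1.one_lt.le
      rw [sub_nonneg, div_le_one (by linarith)]
      exact hq1
    have h7 : (X : ℝ) * Real.exp (H.card * ∑ q ∈ m.primeFactors, 1 / (q : ℝ)) ≤
        2 * (x / m) * Real.exp (H.card * ∑ q ∈ m.primeFactors, 1 / (q : ℝ)) :=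
      mul_le_mul_of_nonneg_right hX5 (Real.exp_pos _).le
    have h8 := mul_le_mul h7 h5 h6 (by positivity)
    refine (mul_le_mul_of_nonneg_left h8 hC₁.le).trans (le_of_eq ?_)
    have h9 : Real.exp (((H.card : ℝ) + 1) * ∑ q ∈ m.primeFactors, 1 / (q : ℝ)) =
        Real.exp (H.card * ∑ q ∈ m.primeFactors, 1 / (q : ℝ)) *
          Real.exp (∑ q ∈ m.primeFactors, 1 / (q : ℝ)) := by
      rw [← Real.exp_add]
      congr 1
      ring
    rw [h9, hC₅]
    ring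
  refine h1.trans ((Finset.sum_le_sum h2).trans ?_)
  rw [Finset.sum_add_distrib, ← Finset.mul_sum, Finset.sum_const, nsmul_eq_mul, Nat.card_Icc,
    Nat.add_sub_cancel]
  have hM1 : 1 ≤ M := by omega
  have h3 := hR M hM1
  have h4 : 1 + Real.log M ≤ 2 / s * Real.log x := by
    have h5 : Real.log M ≤ Real.log 2 + Real.log (rt s x) := by
      rw [← Real.log_mul (by norm_num) (by exact_mod_cast (by omega : rt s x ≠ 0))]
      apply Real.log_le_log (by exact_mod_cast hM1)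
      exact_mod_cast (by omega : M ≤ 2 * rt s x)
    have h6 : s * Real.log (rt s x) ≤ Real.log x := by
      rw [← Real.log_pow]
      apply Real.log_le_log (by exact_mod_cast pow_pos (by omega) s)
      exact_mod_cast rt_pow (show 1 ≤ s by omega) x
    have h7 : Real.log 2 ≤ 1 := by
      have := Real.log_two_lt_d9
      linarith
    have h8 : Real.log (rt s x) ≤ 1 / s * Real.log x := by
      rw [one_div_mul_eq_div, le_div_iff₀ hs0]
      linarith
    have h9 : 2 ≤ 1 / (s : ℝ) * Real.log x := by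
      rw [one_div_mul_eq_div, le_div_iff₀ hs0]
      linarith
    have h10 : 2 / (s : ℝ) * Real.log x = 1 / s * Real.log x + 1 / s * Real.log x := by ring
    linarith
  have h5 : (M : ℝ) * (x : ℝ) ^ ((2 : ℝ) / 3) ≤ 1 / s * x := by
    have h6 : (M : ℝ) * s ≤ (x : ℝ) ^ ((1 : ℝ) / 3) := by
      have h7 : (((M : ℝ) * s) ^ 3) ^ ((1 : ℝ) / 3) ≤ (x : ℝ) ^ ((1 : ℝ) / 3) :=
        Real.rpow_le_rpow (by positivity) (by exact_mod_cast hMs) (by norm_num)
      rw [← Real.rpow_natCast, ← Real.rpow_mul (by positivity)] at h7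
      norm_num at h7
      norm_num
      exact h7
    have h7 : (x : ℝ) ^ ((1 : ℝ) / 3) * (x : ℝ) ^ ((2 : ℝ) / 3) = x := by
      rw [← Real.rpow_add hx0]; norm_num
    rw [one_div_mul_eq_div, le_div_iff₀ hs0]
    calc (M : ℝ) * (x : ℝ) ^ ((2 : ℝ) / 3) * s = (M * s) * (x : ℝ) ^ ((2 : ℝ) / 3) := by ring
      _ ≤ (x : ℝ) ^ ((1 : ℝ) / 3) * (x : ℝ) ^ ((2 : ℝ) / 3) :=
          mul_le_mul_of_nonneg_right h6 (Real.rpow_nonneg hx0.le _)
      _ = x := h7
  have h6 : C₅ * (x / Real.log x) * ∑ m ∈ Icc 1 M, (1 / (m : ℝ) *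
      Real.exp ((H.card + 1) * ∑ q ∈ m.primeFactors, 1 / (q : ℝ))) ≤
      C₅ * (x / Real.log x) * (CR * (2 / s * Real.log x)) := by
    apply mul_le_mul_of_nonneg_left _ (by positivity)
    exact h3.trans (mul_le_mul_of_nonneg_left h4 hCR.le)
  have h7 : C₅ * (x / Real.log x) * (CR * (2 / s * Real.log x)) = 2 * C₅ * CR / s * x := by
    field_simp
  rw [h7] at h6
  calc _ ≤ 2 * C₅ * CR / s * x + 1 / s * x := add_le_add h6 h5
    _ = _ := by ring

open Classical in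
/-- **prime factors in a thin set** -/
theorem thin (H : Finset ℕ) (b : ℕ) (hb : b ∉ H) (P : ℕ → Prop)
    (hP : Summable (fun p : ℕ => if p.Prime ∧ P p then (1 : ℝ) / p else 0)) {ε : ℝ} (hε : 0 < ε) :
    ∃ y₀ : ℕ, ∀ y : ℕ, y₀ ≤ y → ∀ᶠ x : ℕ in atTop,
      ∑ n ∈ (Icc 1 x).filter (fun n => ∃ p : ℕ, (p.Prime ∧ P p) ∧ y < p ∧ p ∣ n + b), WW H n ≤ ε * x := by
  obtain ⟨C, hC, hbig⟩ := big H b hb
  obtain ⟨s, hs1, hs2⟩ : ∃ s : ℕ, 4 ≤ s ∧ C / s ≤ ε / 2 := by
    obtain ⟨s, hs⟩ := exists_nat_gt (2 * C / ε)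
    refine ⟨s + 4, by omega, ?_⟩
    have h1 : (0 : ℝ) < ((s + 4 : ℕ) : ℝ) := by positivity
    rw [div_le_iff₀ h1]
    rw [div_lt_iff₀ hε] at hs
    push_cast
    nlinarith
  obtain ⟨Cs, hCs, hmult⟩ := mult_s H b hb s (by omega)
  obtain ⟨η, hη⟩ : ∃ η : ℝ, η = ε / (2 * Cs) := ⟨_, rfl⟩
  have hη0 : 0 < η := by rw [hη]; positivity
  obtain ⟨y₁, hy₁⟩ : ∃ y₁ : ℕ, ∀ F : Finset ℕ, (∀ p ∈ F, y₁ ≤ p) →
      ∑ p ∈ F, (if p.Prime ∧ P p then (1 : ℝ) / p else 0) ≤ η := by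
    obtain ⟨F₀, hF₀⟩ := summable_iff_vanishing_norm.1 hP η hη0
    refine ⟨F₀.sup id + 1, fun F hF => ?_⟩
    have h2 : Disjoint F F₀ := by
      rw [Finset.disjoint_left]
      intro p hp hp'
      have h3 := hF p hp
      have h4 : p ≤ F₀.sup id := Finset.le_sup (f := id) hp'
      omega
    have h3 := hF₀ F h2
    rw [Real.norm_eq_abs] at h3
    exact ((le_abs_self _).trans h3.le)
  refine ⟨y₁, fun y hy => ?_⟩
  filter_upwards [hbig s hs1, hmult] with x hx1 hx2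
  obtain ⟨F, hF⟩ : ∃ F, F = (Icc 1 (x + b)).filter (fun p => (p.Prime ∧ P p) ∧ y < p ∧ x ≤ (x / p) ^ s) :=
    ⟨_, rfl⟩
  have hmF : ∀ p ∈ F, (p.Prime ∧ P p) ∧ y < p ∧ x ≤ (x / p) ^ s := fun p hp => by
    rw [hF, mem_filter] at hp; exact hp.2
  have hsub : (Icc 1 x).filter (fun n => ∃ p : ℕ, (p.Prime ∧ P p) ∧ y < p ∧ p ∣ n + b) ⊆
      (Icc 1 x).filter (fun n => ∃ p : ℕ, p.Prime ∧ p ∣ n + b ∧ (x / p) ^ s < x) ∪
      F.biUnion (fun p => (Icc 1 x).filter (fun n => p ∣ n + b)) := by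
    intro n hn
    rw [mem_filter] at hn
    obtain ⟨hn1, p, hp, hyp, hpn⟩ := hn
    rw [mem_union]
    by_cases h : (x / p) ^ s < x
    · left
      rw [mem_filter]
      exact ⟨hn1, p, hp.1, hpn, h⟩
    · right
      rw [mem_biUnion]
      refine ⟨p, ?_, ?_⟩
      · rw [hF, mem_filter, mem_Icc]
        have hn1' := mem_Icc.1 hn1
        exact ⟨⟨hp.1.one_lt.le, (Nat.le_of_dvd (by omega) hpn).trans (by omega)⟩, hp, hyp, not_lt.1 h⟩
      · rw [mem_filter]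
        exact ⟨hn1, hpn⟩
  refine (Finset.sum_le_sum_of_subset_of_nonneg hsub (fun _ _ _ => WW_nonneg _ _)).trans ?_
  refine (sum_union_le _ _ _ (WW_nonneg H)).trans ?_
  have h1 : ∑ n ∈ F.biUnion (fun p => (Icc 1 x).filter (fun n => p ∣ n + b)), WW H n ≤
      ∑ p ∈ F, ∑ n ∈ (Icc 1 x).filter (fun n => p ∣ n + b), WW H n := by
    have h3 : ∀ s : Finset ℕ, ∑ n ∈ s.biUnion (fun p => (Icc 1 x).filter (fun n => p ∣ n + b)), WW H n ≤
        ∑ p ∈ s, ∑ n ∈ (Icc 1 x).filter (fun n => p ∣ n + b), WW H n := by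
      intro s
      induction s using Finset.induction_on with
      | empty => simp
      | insert b s hb ih =>
        rw [Finset.biUnion_insert, Finset.sum_insert hb]
        exact (sum_union_le _ _ _ (WW_nonneg H)).trans (add_le_add le_rfl ih)
    exact h3 _
  have h2 : ∀ p ∈ F, ∑ n ∈ (Icc 1 x).filter (fun n => p ∣ n + b), WW H n ≤
      Cs * x * (if p.Prime ∧ P p then (1 : ℝ) / p else 0) := by
    intro p hp
    obtain ⟨h3, h4, h5⟩ := hmF p hp
    rw [if_pos h3]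
    refine (hx2 p h3.1.one_lt.le h5 ?_).trans (le_of_eq (by ring))
    rw [h3.1.primeFactors, Finset.sum_singleton, div_le_one (by exact_mod_cast h3.1.pos)]
    exact_mod_cast h3.1.one_lt.le
  have h3 := hy₁ F (fun p hp => by
    have := (hmF p hp).2.1
    omega)
  have h4 : ∑ p ∈ F, ∑ n ∈ (Icc 1 x).filter (fun n => p ∣ n + b), WW H n ≤ ε / 2 * x := by
    refine (Finset.sum_le_sum h2).trans ?_
    rw [← Finset.mul_sum]
    refine (mul_le_mul_of_nonneg_left h3 (by positivity)).trans (le_of_eq ?_)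
    rw [hη]
    field_simp
  have h5 : C / s * (x : ℝ) ≤ ε / 2 * x := mul_le_mul_of_nonneg_right hs2 (Nat.cast_nonneg x)
  have h6 : ε * (x : ℝ) = ε / 2 * x + ε / 2 * x := by ring
  rw [h6]
  exact add_le_add (hx1.trans h5) (h1.trans h4)

end Pool.Agent.U26Z.NP
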