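import Pool.Agent.U26Z.NP.Main

set_option autoImplicit false

/-!
# The tail bound for the weighted correlations on the cube
-/

namespace Pool.Agent.U26Z.NP

open Finset Filter Topology
open Pool.Agent.U26Z.NL (EE cm lamT nf BD)

variable {H G : Finset ℕ}

/-- the sum of the squares of the differences -/
theorem var_le (H G : Finset ℕ) (hG : Disjoint H G) : ∃ C : ℝ, 1 ≤ C ∧ ∀ B : ℕ, (∀ b ∈ H, b ≤ B) →
    ∀ᶠ x : ℕ in atTop, ∀ y : ℕ, 1 ≤ y → (y : ℝ) ≤ Real.log x →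
    ∀ F : Finset ℕ, (∀ p ∈ F, p.Prime ∧ y < p ∧ p ≤ x + B) →
    ∑ p ∈ F, (2 * Dp H G x p) ^ 2 ≤ C * (x : ℝ) ^ 2 / y := by
  classical
  obtain ⟨C₁, hC₁, hM⟩ := mult_all H G hG
  obtain ⟨ℓ, hℓ⟩ : ∃ ℓ : ℝ, ℓ = (G.card : ℝ) := ⟨_, rfl⟩
  have hℓ0 : 0 ≤ ℓ := by rw [hℓ]; positivity
  obtain ⟨k, hk⟩ : ∃ k, k = H.card := ⟨_, rfl⟩
  refine ⟨4 * ℓ ^ 2 * C₁ ^ 2 + 1, by nlinarith [sq_nonneg (ℓ * C₁)], fun B hB => ?_⟩
  have e1 := log_pow_small (24 * ℓ ^ 2 * 4 ^ k) (2 * k + 1) (show (0 : ℝ) < 1 / 6 by norm_num)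
  filter_upwards [hM, e1, rt_ge (m := 3) (by norm_num), eventually_ge_atTop (2 + B)] with x hx1 hx2 hx3 hx4
    y hy hyl F hF
  have hx0 : (0 : ℝ) < x := by exact_mod_cast (by omega : 0 < x)
  have hx1' : (1 : ℝ) ≤ x := by exact_mod_cast (by omega : 1 ≤ x)
  have hy0 : (0 : ℝ) < y := by exact_mod_cast hy
  obtain ⟨L, hL⟩ : ∃ L : ℝ, L = Real.log ((x + B : ℕ) : ℝ) := ⟨_, rfl⟩
  have hL0 : 0 ≤ L := by rw [hL]; exact Real.log_natCast_nonneg _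
  have hl0 : 0 ≤ Real.log (x : ℝ) := Real.log_natCast_nonneg x
  have hL2 : L ≤ 2 * Real.log x := by
    rw [hL]
    have h1 : ((x + B : ℕ) : ℝ) ≤ (x : ℝ) ^ 2 := by
      have h2 : x + B ≤ x ^ 2 := by nlinarith
      exact_mod_cast h2
    have h2 := Real.log_le_log (by exact_mod_cast (by omega : 0 < x + B)) h1
    rw [Real.log_pow] at h2
    exact_mod_cast h2
  -- the two ranges
  have hs : ∀ p ∈ F.filter (fun p => p ^ 3 ≤ x), (2 * Dp H G x p) ^ 2 ≤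
      4 * ℓ ^ 2 * C₁ ^ 2 * (x : ℝ) ^ 2 * (1 / (p : ℝ) ^ 2) := by
    intro p hp
    rw [mem_filter] at hp
    obtain ⟨hp1, hp2, hp3⟩ := hF p hp.1
    have hp0 : (0 : ℝ) < p := by exact_mod_cast hp1.pos
    have h1 : Dp H G x p ≤ ℓ * (C₁ * (x / p)) := by
      refine (Dp_le x hp1).trans ?_
      rw [hℓ, ← nsmul_eq_mul, ← Finset.sum_const]
      refine Finset.sum_le_sum fun b hb => hx1 b hb p hp1.two_le hp.2 ?_
      rw [hp1.primeFactors, Finset.sum_singleton, div_le_one hp0]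
      exact_mod_cast hp1.one_lt.le
    have h2 : (2 * Dp H G x p) ^ 2 ≤ (2 * (ℓ * (C₁ * (x / p)))) ^ 2 :=
      pow_le_pow_left₀ (by have := Dp_nonneg (H := H) (G := G) x p; positivity) (by linarith) 2
    refine h2.trans (le_of_eq ?_)
    field_simp
    ring
  have hb : ∀ p ∈ F.filter (fun p => ¬ p ^ 3 ≤ x), (2 * Dp H G x p) ^ 2 ≤
      8 * ℓ ^ 2 * L ^ (2 * k) * ((x : ℝ) ^ 2 * (1 / (p : ℝ) ^ 2)) + 8 * ℓ ^ 2 * L ^ (2 * k) := by
    intro p hp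
    rw [mem_filter] at hp
    obtain ⟨hp1, hp2, hp3⟩ := hF p hp.1
    have hp0 : (0 : ℝ) < p := by exact_mod_cast hp1.pos
    have h1 : Dp H G x p ≤ ℓ * (L ^ k * (x / p + 1)) := by
      refine (Dp_le x hp1).trans ?_
      rw [hℓ, ← nsmul_eq_mul, ← Finset.sum_const]
      refine Finset.sum_le_sum fun b _ => ?_
      rw [hL, hk]
      exact mult_triv hB b x hp1.pos
    have h2 : (2 * Dp H G x p) ^ 2 ≤ (2 * (ℓ * (L ^ k * (x / p + 1)))) ^ 2 :=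
      pow_le_pow_left₀ (by have := Dp_nonneg (H := H) (G := G) x p; positivity) (by linarith) 2
    have h3 : ((x : ℝ) / p + 1) ^ 2 ≤ 2 * (x ^ 2 * (1 / (p : ℝ) ^ 2)) + 2 := by
      have h4 : (x : ℝ) ^ 2 * (1 / (p : ℝ) ^ 2) = ((x : ℝ) / p) ^ 2 := by
        rw [div_pow]; ring
      rw [h4]
      nlinarith [sq_nonneg ((x : ℝ) / p - 1)]
    have h5 : 0 ≤ 4 * ℓ ^ 2 * L ^ (2 * k) := by positivity
    have h6 := mul_le_mul_of_nonneg_left h3 h5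
    calc (2 * Dp H G x p) ^ 2 ≤ _ := h2
      _ = 4 * ℓ ^ 2 * L ^ (2 * k) * ((x : ℝ) / p + 1) ^ 2 := by
          rw [mul_comm 2 k, pow_mul]; ring
      _ ≤ _ := h6
      _ = _ := by ring
  have hsq : ∀ F' : Finset ℕ, ∀ u : ℕ, 1 ≤ u → (∀ p ∈ F', u < p) →
      ∑ p ∈ F', (1 : ℝ) / (p : ℝ) ^ 2 ≤ 1 / (u : ℝ) := fun F' u hu h => Pool.Agent.U26Z.NL.sum_sq_le hu F' h
  have h1 : ∑ p ∈ F.filter (fun p => p ^ 3 ≤ x), (2 * Dp H G x p) ^ 2 ≤
      4 * ℓ ^ 2 * C₁ ^ 2 * (x : ℝ) ^ 2 * (1 / y) := by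
    refine (Finset.sum_le_sum hs).trans ?_
    rw [← Finset.mul_sum]
    apply mul_le_mul_of_nonneg_left _ (by positivity)
    apply hsq _ _ hy
    intro p hp
    rw [mem_filter] at hp
    exact (hF p hp.1).2.1
  have hrt1 : 1 ≤ rt 3 x := by
    have h2 : (1 : ℝ) ≤ (x : ℝ) ^ (1 / (2 * (3 : ℕ) : ℝ)) := Real.one_le_rpow hx1' (by positivity)
    exact_mod_cast h2.trans hx3
  have hrt : (x : ℝ) ^ ((1 : ℝ) / 6) ≤ rt 3 x := by
    refine le_trans (le_of_eq ?_) hx3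
    norm_num
  have h2 : ∑ p ∈ F.filter (fun p => ¬ p ^ 3 ≤ x), (2 * Dp H G x p) ^ 2 ≤
      8 * ℓ ^ 2 * L ^ (2 * k) * ((x : ℝ) ^ 2 * (1 / rt 3 x)) + 8 * ℓ ^ 2 * L ^ (2 * k) * (x + B) := by
    refine (Finset.sum_le_sum hb).trans ?_
    rw [Finset.sum_add_distrib, ← Finset.mul_sum, ← Finset.mul_sum, Finset.sum_const, nsmul_eq_mul,
      mul_comm ((F.filter (fun p => ¬ p ^ 3 ≤ x)).card : ℝ)]
    apply add_le_add
    · apply mul_le_mul_of_nonneg_left _ (by positivity)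
      apply mul_le_mul_of_nonneg_left _ (by positivity)
      apply hsq _ _ hrt1
      intro p hp
      rw [mem_filter] at hp
      by_contra hcon
      apply hp.2
      exact (Nat.pow_le_pow_left (not_lt.1 hcon) 3).trans (rt_pow (by norm_num) x)
    · apply mul_le_mul_of_nonneg_left _ (by positivity)
      have h3 : (F.filter (fun p => ¬ p ^ 3 ≤ x)).card ≤ x + B := by
        have h4 : F.filter (fun p => ¬ p ^ 3 ≤ x) ⊆ Icc 1 (x + B) := by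
          intro p hp
          rw [mem_filter] at hp
          rw [mem_Icc]
          exact ⟨(hF p hp.1).1.one_lt.le, (hF p hp.1).2.2⟩
        have := Finset.card_le_card h4
        simpa using this
      exact_mod_cast h3
  have h3 : 8 * ℓ ^ 2 * L ^ (2 * k) * ((x : ℝ) ^ 2 * (1 / rt 3 x)) + 8 * ℓ ^ 2 * L ^ (2 * k) * (x + B) ≤
      (x : ℝ) ^ 2 / y := by
    have h4 : (x : ℝ) + B ≤ 2 * x := by exact_mod_cast (by omega : x + B ≤ 2 * x)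
    obtain ⟨t, ht⟩ : ∃ t : ℝ, t = (x : ℝ) ^ ((1 : ℝ) / 6) := ⟨_, rfl⟩
    rw [← ht] at hrt hx2
    have ht0 : 0 < t := by rw [ht]; exact Real.rpow_pos_of_pos hx0 _
    have htx : t ≤ x := by
      rw [ht]
      calc (x : ℝ) ^ ((1 : ℝ) / 6) ≤ (x : ℝ) ^ (1 : ℝ) :=
            Real.rpow_le_rpow_of_exponent_le hx1' (by norm_num)
        _ = x := Real.rpow_one _
    have h5 : (x : ℝ) ^ 2 * (1 / rt 3 x) ≤ (x : ℝ) ^ 2 / t := by
      rw [mul_one_div]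
      exact div_le_div_of_nonneg_left (by positivity) ht0 hrt
    have h6 : (x : ℝ) + B ≤ 2 * ((x : ℝ) ^ 2 / t) := by
      have h7 : (x : ℝ) ≤ (x : ℝ) ^ 2 / t := by
        rw [le_div_iff₀ ht0]
        nlinarith
      linarith
    have h7 : L ^ (2 * k) ≤ 4 ^ k * Real.log x ^ (2 * k) := by
      have h8 : (4 : ℝ) ^ k = 2 ^ (2 * k) := by rw [pow_mul]; norm_num
      rw [h8, ← mul_pow]
      exact pow_le_pow_left₀ hL0 hL2 _
    have h8 : 0 ≤ (x : ℝ) ^ 2 / t := by positivity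
    calc 8 * ℓ ^ 2 * L ^ (2 * k) * ((x : ℝ) ^ 2 * (1 / rt 3 x)) + 8 * ℓ ^ 2 * L ^ (2 * k) * (x + B) =
        8 * ℓ ^ 2 * L ^ (2 * k) * ((x : ℝ) ^ 2 * (1 / rt 3 x) + (x + B)) := by ring
      _ ≤ 8 * ℓ ^ 2 * (4 ^ k * Real.log x ^ (2 * k)) * (3 * ((x : ℝ) ^ 2 / t)) := by
          apply mul_le_mul _ (by linarith) (by positivity) (by positivity)
          exact mul_le_mul_of_nonneg_left h7 (by positivity)
      _ = (24 * ℓ ^ 2 * 4 ^ k * Real.log x ^ (2 * k)) * ((x : ℝ) ^ 2 / t) := by ring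
      _ ≤ (x : ℝ) ^ 2 / y := by
          rw [le_div_iff₀ hy0]
          have h9 : 24 * ℓ ^ 2 * 4 ^ k * Real.log x ^ (2 * k) * y ≤ t := by
            refine le_trans ?_ hx2
            have h10 : Real.log (x : ℝ) ^ (2 * k + 1) = Real.log x ^ (2 * k) * Real.log x := pow_succ _ _
            rw [h10, ← mul_assoc]
            exact mul_le_mul_of_nonneg_left hyl (by positivity)
          calc (24 * ℓ ^ 2 * 4 ^ k * Real.log x ^ (2 * k)) * ((x : ℝ) ^ 2 / t) * y =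
              (24 * ℓ ^ 2 * 4 ^ k * Real.log x ^ (2 * k) * y) * ((x : ℝ) ^ 2 / t) := by ring
            _ ≤ t * ((x : ℝ) ^ 2 / t) := mul_le_mul_of_nonneg_right h9 h8
            _ = (x : ℝ) ^ 2 := by field_simp
  rw [← Finset.sum_filter_add_sum_filter_not F (fun p => p ^ 3 ≤ x)]
  have h4 : (4 * ℓ ^ 2 * C₁ ^ 2 + 1) * (x : ℝ) ^ 2 / y =
      4 * ℓ ^ 2 * C₁ ^ 2 * (x : ℝ) ^ 2 * (1 / y) + (x : ℝ) ^ 2 / y := by ring
  rw [h4]
  exact add_le_add h1 (h2.trans h3)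

/-- the conditional mean -/
theorem mean_le (H G : Finset ℕ) (hG : Disjoint H G) (hne : G.Nonempty) : ∃ (K : ℕ) (C : ℝ) (B : ℕ),
    6 ≤ K ∧ 0 < C ∧ (∀ b ∈ H ∪ G, b ≤ B) ∧ 1 ≤ B ∧ ∀ᶠ x : ℕ in atTop,
    ∀ δ : ℕ → ℝ, (∀ p, 0 ≤ δ p) → (∀ p, δ p ≤ 1 / 2) → ∀ y : ℕ, B ≤ y →
    ∀ F : Finset ℕ, (∀ p ∈ F, p.Prime ∧ y < p) → (∀ p, p.Prime → y < p → p ≤ x → p ∈ F) →
    ∑ n ∈ Icc 1 x, WW H n * ∏ p ∈ F, nf (δ p) ((NG G n).factorization p) ≤
      C * (x * (1 / y + Real.exp (-(2 * ∑ q ∈ (Icc 1 (rt K x)).filter (fun p => p.Prime ∧ y < p), δ q / q))))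
        + (x : ℝ) ^ ((2 : ℝ) / 3) := by
  classical
  obtain ⟨b₀, hb₀⟩ := hne
  obtain ⟨C₁, hC₁, hM⟩ := mult_all H G hG
  obtain ⟨K, C₂, z₁, hK, hC₂, hz, hF₂⟩ := free_le H b₀ (fun h => (Finset.disjoint_left.1 hG) h hb₀)
  refine ⟨K, C₁ + C₂, z₁ + (∑ b ∈ H ∪ G, b) + 1, hK, by positivity, fun b hb => ?_, by omega, ?_⟩
  · have : b ≤ ∑ b ∈ H ∪ G, b := Finset.single_le_sum (f := fun b => b) (fun _ _ => Nat.zero_le _) hb
    omega
  have e1 : ∀ᶠ x : ℕ in atTop, 1 ≤ rt K x := (rt_tend (by omega)).eventually_ge_atTop 1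
  filter_upwards [hM, hF₂, e1] with x hx1 hx2 hx3 δ h0 h1 y hy F hF hF'
  have hGy : ∀ b ∈ G, b ≤ y := by
    intro b hb
    have : b ≤ ∑ b ∈ H ∪ G, b := Finset.single_le_sum (f := fun b => b) (fun _ _ => Nat.zero_le _)
      (Finset.mem_union_right _ hb)
    omega
  have hy1 : 1 ≤ y := by omega
  obtain ⟨P, hP⟩ : ∃ P, P = (Icc 1 (rt K x)).filter (fun p => p.Prime ∧ y < p) := ⟨_, rfl⟩
  have hmP : ∀ p ∈ P, p.Prime ∧ y < p ∧ p ≤ rt K x := by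
    intro p hp
    rw [hP, mem_filter, mem_Icc] at hp
    exact ⟨hp.2.1, hp.2.2, hp.1.2⟩
  rw [← hP]
  have hrtx : rt K x ^ 6 ≤ x := pow_le_rt hK (by norm_num) hx3
  have hrtx1 : rt K x ≤ x := (Nat.le_self_pow (by norm_num) _).trans hrtx
  -- pointwise
  have hpt : ∀ n ∈ Icc 1 x, WW H n * ∏ p ∈ F, nf (δ p) ((NG G n).factorization p) ≤
      ∑ p ∈ P, (if p ^ 2 ∣ n + b₀ then WW H n else 0) +
        WW H n * ∏ p ∈ P.filter (fun p => p ∣ n + b₀), (1 - 2 * δ p) := by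
    intro n hn
    rw [mem_Icc] at hn
    have hW := WW_nonneg H n
    have hpr : 0 ≤ ∏ p ∈ P.filter (fun p => p ∣ n + b₀), (1 - 2 * δ p) :=
      Finset.prod_nonneg fun p _ => by linarith [h1 p]
    by_cases hsq : ∃ p ∈ P, p ^ 2 ∣ n + b₀
    · obtain ⟨p, hp, hpn⟩ := hsq
      have h2 : ∏ p ∈ F, nf (δ p) ((NG G n).factorization p) ≤ 1 :=
        Finset.prod_le_one (fun p _ => Pool.Agent.U26Z.NL.nf_nonneg (h0 p) (h1 p) _)
          (fun p _ => Pool.Agent.U26Z.NL.nf_le (h0 p) _)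
      have h3 : WW H n ≤ ∑ p ∈ P, (if p ^ 2 ∣ n + b₀ then WW H n else 0) := by
        have h4 := Finset.single_le_sum (f := fun p => if p ^ 2 ∣ n + b₀ then WW H n else 0)
          (fun p _ => by beta_reduce; split_ifs; exact hW; exact le_rfl) hp
        beta_reduce at h4
        rw [if_pos hpn] at h4
        exact h4
      have h4 := mul_le_mul_of_nonneg_left h2 hW
      have h5 := mul_nonneg hW hpr
      linarith
    · push Not at hsq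
      have h2 : 0 ≤ ∑ p ∈ P, (if p ^ 2 ∣ n + b₀ then WW H n else 0) :=
        Finset.sum_nonneg fun p _ => by split_ifs; exact hW; exact le_rfl
      have h3 : ∏ p ∈ F, nf (δ p) ((NG G n).factorization p) ≤
          ∏ p ∈ P.filter (fun p => p ∣ n + b₀), (1 - 2 * δ p) := by
        have hQF : P.filter (fun p => p ∣ n + b₀) ⊆ F := by
          intro p hp
          rw [mem_filter] at hp
          obtain ⟨h3, h4, h5⟩ := hmP p hp.1
          exact hF' p h3 h4 (h5.trans hrtx1)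
        rw [← Finset.prod_sdiff hQF]
        have h5 : ∏ p ∈ F \ P.filter (fun p => p ∣ n + b₀), nf (δ p) ((NG G n).factorization p) ≤ 1 :=
          Finset.prod_le_one (fun p _ => Pool.Agent.U26Z.NL.nf_nonneg (h0 p) (h1 p) _)
          (fun p _ => Pool.Agent.U26Z.NL.nf_le (h0 p) _)
        have h6 : ∏ p ∈ P.filter (fun p => p ∣ n + b₀), nf (δ p) ((NG G n).factorization p) =
            ∏ p ∈ P.filter (fun p => p ∣ n + b₀), (1 - 2 * δ p) := by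
          refine Finset.prod_congr rfl fun p hp => ?_
          rw [mem_filter] at hp
          obtain ⟨h7, h8, h9⟩ := hmP p hp.1
          rw [val_one hGy hn.1 h7 h8 hb₀ hp.2 (hsq p hp.1), Pool.Agent.U26Z.NL.nf_one]
        rw [h6]
        calc _ ≤ 1 * ∏ p ∈ P.filter (fun p => p ∣ n + b₀), (1 - 2 * δ p) :=
              mul_le_mul_of_nonneg_right h5 hpr
          _ = _ := one_mul _
      have h4 := mul_le_mul_of_nonneg_left h3 hW
      linarith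
  refine (Finset.sum_le_sum hpt).trans ?_
  rw [Finset.sum_add_distrib, Finset.sum_comm]
  have hA : ∑ p ∈ P, ∑ n ∈ Icc 1 x, (if p ^ 2 ∣ n + b₀ then WW H n else 0) ≤ C₁ * (x * (1 / y)) := by
    have h2 : ∀ p ∈ P, ∑ n ∈ Icc 1 x, (if p ^ 2 ∣ n + b₀ then WW H n else 0) ≤
        C₁ * x * (1 / (p : ℝ) ^ 2) := by
      intro p hp
      obtain ⟨h3, h4, h5⟩ := hmP p hp
      rw [← Finset.sum_filter]
      have h6 := hx1 b₀ hb₀ (p ^ 2) (by nlinarith [h3.two_le]) (by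
        calc (p ^ 2) ^ 3 = p ^ 6 := by ring
          _ ≤ rt K x ^ 6 := Nat.pow_le_pow_left h5 6
          _ ≤ x := hrtx) (by
        rw [Nat.primeFactors_prime_pow (by norm_num) h3, Finset.sum_singleton,
          div_le_one (by exact_mod_cast h3.pos)]
        exact_mod_cast h3.one_lt.le)
      refine h6.trans (le_of_eq ?_)
      push_cast
      ring
    refine (Finset.sum_le_sum h2).trans ?_
    rw [← Finset.mul_sum, mul_assoc]
    apply mul_le_mul_of_nonneg_left _ hC₁.le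
    apply mul_le_mul_of_nonneg_left _ (Nat.cast_nonneg x)
    exact Pool.Agent.U26Z.NL.sum_sq_le hy1 P (fun p hp => (hmP p hp).2.1)
  have hBd := free_mean (H := H) (δ := δ) h0 h1 (P := P) (b := b₀) (x := x) (C := C₂)
    (E := (x : ℝ) ^ ((2 : ℝ) / 3)) hC₂.le (fun q hq => (hmP q hq).1.one_lt.le) (fun T hT =>
      hx2.2 T (fun q hq => by
        obtain ⟨h3, h4, h5⟩ := hmP q (hT hq)
        exact ⟨h3, by omega, h5⟩))
  have hE0 := Real.exp_pos (-(2 * ∑ q ∈ P, δ q / q))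
  have hx0 : (0 : ℝ) ≤ x := Nat.cast_nonneg x
  have hy0 : (0 : ℝ) ≤ 1 / (y : ℝ) := by positivity
  have h2 : 0 ≤ C₂ * (x * (1 / (y : ℝ))) := by positivity
  have h3 : 0 ≤ C₁ * (x * Real.exp (-(2 * ∑ q ∈ P, δ q / q))) := by positivity
  have h4 : (C₁ + C₂) * (x * (1 / y + Real.exp (-(2 * ∑ q ∈ P, δ q / q)))) =
      C₁ * (x * (1 / (y : ℝ))) + C₂ * (x * (1 / (y : ℝ))) +
      (C₁ * (x * Real.exp (-(2 * ∑ q ∈ P, δ q / q))) + C₂ * (x * Real.exp (-(2 * ∑ q ∈ P, δ q / q)))) := by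
    ring
  rw [h4]
  linarith

/-- **the main estimate on the cube** -/
theorem cube_main (H G : Finset ℕ) (hG : Disjoint H G) (hne : G.Nonempty) : ∃ (K : ℕ) (C : ℝ) (B : ℕ),
    6 ≤ K ∧ 1 ≤ C ∧ (∀ b ∈ H ∪ G, b ≤ B) ∧ 1 ≤ B ∧ ∀ᶠ x : ℕ in atTop,
    ∀ w : ℕ → ℝ, (∀ n, |w n| ≤ 1) → ∀ δ : ℕ → ℝ, (∀ p, 0 ≤ δ p) → (∀ p, δ p ≤ 1 / 2) →
    ∀ y : ℕ, B ≤ y → (y : ℝ) ≤ Real.log x → ∀ ε : ℝ, 0 < ε →
    C * (1 / y + Real.exp (-(2 * ∑ q ∈ (Icc 1 (rt K x)).filter (fun p => p.Prime ∧ y < p), δ q / q))) ≤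
      ε / 4 → (x : ℝ) ^ ((2 : ℝ) / 3) ≤ ε / 4 * x →
    EE δ ((Icc 1 (x + B)).filter Nat.Prime)
      (fun T => if ε * x ≤ |cs w H G (lamT T) x| then 1 else 0) ≤
      2 * Real.exp (-(ε ^ 2 / (8 * C) * y)) := by
  classical
  obtain ⟨C₁, hC₁, hvar⟩ := var_le H G hG
  obtain ⟨K, C₂, B, hK, hC₂, hB, hB1, hmean⟩ := mean_le H G hG hne
  refine ⟨K, C₁ + C₂, B, hK, by linarith, hB, hB1, ?_⟩
  filter_upwards [hvar B (fun b hb => hB b (Finset.mem_union_left _ hb)), hmean,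
    eventually_ge_atTop 1] with x hx1 hx2 hx3 w hw δ h0 h1 y hy hyl ε hε hsm hsm2
  have h1' : ∀ p, δ p ≤ 1 := fun p => (h1 p).trans (by norm_num)
  have hx0 : (0 : ℝ) < x := by exact_mod_cast hx3
  have hy1 : 1 ≤ y := hB1.trans hy
  have hy0 : (0 : ℝ) < y := by exact_mod_cast hy1
  obtain ⟨F₁, hF₁⟩ : ∃ F₁, F₁ = (Icc 1 (x + B)).filter (fun p => p.Prime ∧ p ≤ y) := ⟨_, rfl⟩
  obtain ⟨F₂, hF₂⟩ : ∃ F₂, F₂ = (Icc 1 (x + B)).filter (fun p => p.Prime ∧ y < p) := ⟨_, rfl⟩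
  have hU : (Icc 1 (x + B)).filter Nat.Prime = F₁ ∪ F₂ := by
    rw [hF₁, hF₂]
    ext p
    simp only [mem_filter, mem_union]
    constructor
    · rintro ⟨h2, h3⟩
      rcases le_or_gt p y with h4 | h4
      · exact Or.inl ⟨h2, h3, h4⟩
      · exact Or.inr ⟨h2, h3, h4⟩
    · rintro (⟨h2, h3, h4⟩ | ⟨h2, h3, h4⟩) <;> exact ⟨h2, h3⟩
  have hdis : Disjoint F₁ F₂ := by
    rw [Finset.disjoint_left, hF₁, hF₂]
    intro p hp hp'
    rw [mem_filter] at hp hp'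
    omega
  have hmF₂ : ∀ p ∈ F₂, p.Prime ∧ y < p ∧ p ≤ x + B := fun p hp => by
    rw [hF₂, mem_filter, mem_Icc] at hp
    exact ⟨hp.2.1, hp.2.2, hp.1.2⟩
  rw [hU]
  refine Pool.Agent.U26Z.NL.EE_union h0 h1' F₁ hdis _ fun T₁ hT₁ => ?_
  obtain ⟨V, hV⟩ : ∃ V : ℝ, V = (C₁ + C₂) * x ^ 2 / y := ⟨_, rfl⟩
  have hC0 : 0 < C₁ + C₂ := by linarith
  have hV0 : 0 < V := by rw [hV]; positivity
  have hbd : BD (fun p => 2 * Dp H G x p) F₂ (fun T => cs w H G (lamT (T₁ ∪ T)) x) := by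
    intro p hp T _
    have h3 := bdiff (H := H) (G := G) hw x p (T₁ ∪ T)
    simp only [Finset.union_insert]
    exact h3
  have hcV : ∑ p ∈ F₂, (2 * Dp H G x p) ^ 2 ≤ V := by
    refine (hx1 y hy1 hyl F₂ hmF₂).trans ?_
    rw [hV]
    apply div_le_div_of_nonneg_right _ hy0.le
    apply mul_le_mul_of_nonneg_right _ (by positivity)
    linarith
  have hE : |EE δ F₂ (fun T => cs w H G (lamT (T₁ ∪ T)) x)| ≤ ε * x / 2 := by
    refine (condMean δ h0 h1 hw x T₁ F₂ (Finset.disjoint_of_subset_left hT₁ hdis)).trans ?_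
    have h2 := hx2 δ h0 h1 y hy F₂ (fun p hp => ⟨(hmF₂ p hp).1, (hmF₂ p hp).2.1⟩) (fun p hp hp1 hp2 => by
      rw [hF₂, mem_filter, mem_Icc]
      exact ⟨⟨hp.one_lt.le, by omega⟩, hp, hp1⟩)
    refine h2.trans ?_
    obtain ⟨S, hS⟩ : ∃ S : ℝ, S = 1 / (y : ℝ) + Real.exp (-(2 * ∑ q ∈ (Icc 1 (rt K x)).filter
      (fun p => p.Prime ∧ y < p), δ q / q)) := ⟨_, rfl⟩
    rw [← hS] at hsm ⊢
    have hS0 : 0 ≤ S := by rw [hS]; positivity
    have h3 : C₂ * S ≤ ε / 4 := by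
      have : 0 ≤ C₁ * S := mul_nonneg (by linarith) hS0
      linarith
    have h4 := mul_le_mul_of_nonneg_right h3 hx0.le
    have h5 : C₂ * ((x : ℝ) * S) = C₂ * S * x := by ring
    linarith
  have h2 := Pool.Agent.U26Z.NL.tail2 h0 h1' (fun p => 2 * Dp H G x p) F₂ _ hbd hV0 hcV
    (show 0 ≤ ε * x / 2 by positivity) hE
  have h3 : 2 * (ε * x / 2) = ε * x := by ring
  rw [h3] at h2
  refine h2.trans (le_of_eq ?_)
  congr 3
  rw [hV]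
  field_simp
  ring

end Pool.Agent.U26Z.NP
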