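import Pool.Agent.U26Z.NP.W
import Pool.Agent.U26Z.NL.Cm

set_option autoImplicit false

/-!
# The weight on the multiples of one number, on an interval, and on the integers free of given primes
-/

namespace Pool.Agent.U26Z.NP

open Finset Filter Topology

theorem rt_ge {m : ℕ} (hm : 1 ≤ m) : ∀ᶠ x : ℕ in atTop, (x : ℝ) ^ (1 / (2 * m : ℝ)) ≤ rt m x := by
  have hm1 : (0 : ℝ) < m := by exact_mod_cast hm
  have hm0 : (0 : ℝ) < 1 / (2 * m) := by positivity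
  have e1 : ∀ᶠ x : ℕ in atTop, (2 : ℝ) ≤ (x : ℝ) ^ (1 / (2 * m : ℝ)) :=
    ((tendsto_rpow_atTop hm0).comp cast_tend).eventually_ge_atTop 2
  filter_upwards [e1, eventually_ge_atTop 1] with x hx hx1
  have hx0 : (0 : ℝ) < x := by exact_mod_cast hx1
  have h1 : (x : ℝ) ^ ((1 : ℝ) / m) < rt m x + 1 := Nat.lt_floor_add_one _
  have h2 : (x : ℝ) ^ ((1 : ℝ) / m) = (x : ℝ) ^ (1 / (2 * m : ℝ)) * (x : ℝ) ^ (1 / (2 * m : ℝ)) := by
    rw [← Real.rpow_add hx0]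
    congr 1
    field_simp
    norm_num
  nlinarith

theorem pow_le_rt {a K x : ℕ} (hK : K ≤ a) (hK1 : 1 ≤ K) (h1 : 1 ≤ rt a x) : rt a x ^ K ≤ x :=
  (Nat.pow_le_pow_right h1 hK).trans (rt_pow (hK1.trans hK) x)

/-- the weight on the multiples of `a` -/
theorem mult_one (H : Finset ℕ) (b : ℕ) (hb : b ∉ H) : ∃ C : ℝ, 0 < C ∧ ∀ᶠ x : ℕ in atTop,
    ∀ a : ℕ, 2 ≤ a → a ^ 3 ≤ x → ∑ q ∈ a.primeFactors, 1 / (q : ℝ) ≤ 1 →
    ∑ n ∈ (Icc 1 x).filter (fun n => a ∣ n + b), WW H n ≤ C * (x / a) := by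
  obtain ⟨K, C, z₁, hK, hC, hz₁, hbz, hS⟩ := wsieve H b hb
  refine ⟨C * (2 * Real.exp H.card) + 1, by positivity, ?_⟩
  filter_upwards [hS, eventually_ge_atTop b, eventually_ge_atTop 1] with x hx hxb hx1 a ha hax hsum
  have hx0 : (0 : ℝ) < x := by exact_mod_cast hx1
  have ha0 : (0 : ℝ) < a := by exact_mod_cast (by omega : 0 < a)
  obtain ⟨X, hX⟩ : ∃ X, X = (x + b) / a := ⟨_, rfl⟩
  have hX1 : a ^ 2 ≤ X := by
    rw [hX, Nat.le_div_iff_mul_le (by omega)]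
    calc a ^ 2 * a = a ^ 3 := by ring
      _ ≤ x + b := by omega
  have hX2 : x ≤ a * (2 * X) := by
    have h1 : x + b < a * (X + 1) := by
      rw [hX]
      exact Nat.lt_mul_div_succ _ (by omega)
    have h2 : 1 ≤ X := by nlinarith
    have h3 : a * (X + 1) ≤ a * (2 * X) := Nat.mul_le_mul_left _ (by omega)
    omega
  have hX3 : x ≤ X ^ 3 := by
    have h1 : a * 2 ≤ X ^ 2 := by
      have h2 : (a ^ 2) ^ 2 ≤ X ^ 2 := Nat.pow_le_pow_left hX1 2
      have h3 : a * 2 ≤ a * a := Nat.mul_le_mul_left _ ha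
      have h4 : a * a ≤ (a ^ 2) ^ 2 := by nlinarith
      omega
    calc x ≤ a * (2 * X) := hX2
      _ = (a * 2) * X := by ring
      _ ≤ X ^ 2 * X := Nat.mul_le_mul_right _ h1
      _ = X ^ 3 := by ring
  have hX4 : X ≤ 2 * x := by
    rw [hX]
    exact (Nat.div_le_self _ _).trans (by omega)
  have hX5 : (X : ℝ) ≤ 2 * (x / a) := by
    have h1 : ((X : ℕ) : ℝ) ≤ ((x + b : ℕ) : ℝ) / a := by rw [hX]; exact Nat.cast_div_le
    refine h1.trans ?_
    rw [div_le_iff₀ ha0]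
    have h2 : ((x + b : ℕ) : ℝ) ≤ 2 * x := by exact_mod_cast (by omega : x + b ≤ 2 * x)
    have h3 : 2 * ((x : ℝ) / a) * a = 2 * x := by field_simp
    linarith
  have key := hx.2 X a (-(b : ℤ)) (by omega) hX3 hX4 ∅ (fun q hq => absurd hq (Finset.notMem_empty q))
    ((Icc 1 x).filter (fun n => a ∣ n + b)) (by
      intro n hn
      rw [mem_filter, mem_Icc] at hn
      rw [mem_Icc]
      omega) (by
      intro n hn
      rw [mem_filter, mem_Icc] at hn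
      refine ⟨?_, fun q hq => absurd hq (Finset.notMem_empty q)⟩
      obtain ⟨m, hm⟩ := hn.2
      refine ⟨m, ?_, ?_⟩
      · rw [mem_Icc]
        constructor
        · rcases Nat.eq_zero_or_pos m with h | h
          · rw [h, mul_zero] at hm
            omega
          · exact h
        · rw [hX, Nat.le_div_iff_mul_le (by omega), mul_comm, ← hm]
          omega
      · have : ((n + b : ℕ) : ℤ) = ((a * m : ℕ) : ℤ) := by rw [hm]
        push_cast at this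
        linarith)
  rw [Finset.prod_empty, mul_one] at key
  refine key.trans ?_
  have h1 : Real.exp (H.card * ∑ q ∈ a.primeFactors, 1 / (q : ℝ)) ≤ Real.exp H.card := by
    apply Real.exp_le_exp.2
    have := mul_le_mul_of_nonneg_left hsum (Nat.cast_nonneg (α := ℝ) H.card)
    linarith
  have h2 : (x : ℝ) ^ ((2 : ℝ) / 3) ≤ x / a := by
    rw [le_div_iff₀ ha0]
    have h3 : (a : ℝ) ≤ (x : ℝ) ^ ((1 : ℝ) / 3) := by
      have h4 : ((a : ℝ) ^ 3) ^ ((1 : ℝ) / 3) ≤ (x : ℝ) ^ ((1 : ℝ) / 3) :=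
        Real.rpow_le_rpow (by positivity) (by exact_mod_cast hax) (by norm_num)
      rw [← Real.rpow_natCast, ← Real.rpow_mul ha0.le] at h4
      norm_num at h4
      norm_num
      exact h4
    have h4 : (x : ℝ) ^ ((2 : ℝ) / 3) * (x : ℝ) ^ ((1 : ℝ) / 3) = x := by
      rw [← Real.rpow_add hx0]; norm_num
    have h5 := mul_le_mul_of_nonneg_left h3 (Real.rpow_nonneg hx0.le ((2 : ℝ) / 3))
    linarith
  have h3 : (X : ℝ) * Real.exp (H.card * ∑ q ∈ a.primeFactors, 1 / (q : ℝ)) ≤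
      2 * (x / a) * Real.exp H.card :=
    mul_le_mul hX5 h1 (Real.exp_pos _).le (by positivity)
  have h4 := mul_le_mul_of_nonneg_left h3 hC.le
  calc _ ≤ C * (2 * (x / a) * Real.exp H.card) + x / a := add_le_add h4 h2
    _ = _ := by ring

/-- the same for all shifts in a finite set -/
theorem mult_all (H G : Finset ℕ) (hG : Disjoint H G) : ∃ C : ℝ, 0 < C ∧ ∀ᶠ x : ℕ in atTop,
    ∀ b ∈ G, ∀ a : ℕ, 2 ≤ a → a ^ 3 ≤ x → ∑ q ∈ a.primeFactors, 1 / (q : ℝ) ≤ 1 →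
    ∑ n ∈ (Icc 1 x).filter (fun n => a ∣ n + b), WW H n ≤ C * (x / a) := by
  have h1 : ∀ b, ∃ C : ℝ, 0 < C ∧ (b ∈ G → ∀ᶠ x : ℕ in atTop,
      ∀ a : ℕ, 2 ≤ a → a ^ 3 ≤ x → ∑ q ∈ a.primeFactors, 1 / (q : ℝ) ≤ 1 →
      ∑ n ∈ (Icc 1 x).filter (fun n => a ∣ n + b), WW H n ≤ C * (x / a)) := by
    intro b
    by_cases hb : b ∈ G
    · obtain ⟨C, hC, h⟩ := mult_one H b (fun h => (Finset.disjoint_left.1 hG) h hb)
      exact ⟨C, hC, fun _ => h⟩
    · exact ⟨1, one_pos, fun h => absurd h hb⟩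
  choose C hC h using h1
  refine ⟨1 + ∑ b ∈ G, C b, ?_, ?_⟩
  · have : 0 ≤ ∑ b ∈ G, C b := Finset.sum_nonneg fun b _ => (hC b).le
    linarith
  · have h2 : ∀ᶠ x : ℕ in atTop, ∀ b ∈ G, ∀ a : ℕ, 2 ≤ a → a ^ 3 ≤ x →
        ∑ q ∈ a.primeFactors, 1 / (q : ℝ) ≤ 1 →
        ∑ n ∈ (Icc 1 x).filter (fun n => a ∣ n + b), WW H n ≤ C b * (x / a) := by
      rw [Finset.eventually_all]
      exact fun b hb => h b hb
    filter_upwards [h2] with x hx b hb a ha hax hs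
    refine (hx b hb a ha hax hs).trans (mul_le_mul_of_nonneg_right ?_ (by positivity))
    have := Finset.single_le_sum (fun b _ => (hC b).le) hb
    linarith

/-- the trivial bound on multiples -/
theorem mult_triv {H : Finset ℕ} {B : ℕ} (hB : ∀ b ∈ H, b ≤ B) (b x : ℕ) {p : ℕ} (hp : 0 < p) :
    ∑ n ∈ (Icc 1 x).filter (fun n => p ∣ n + b), WW H n ≤
      Real.log ((x + B : ℕ) : ℝ) ^ H.card * (x / p + 1) := by
  have h1 : ∑ n ∈ (Icc 1 x).filter (fun n => p ∣ n + b), WW H n ≤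
      ∑ n ∈ (Icc 1 x).filter (fun n => p ∣ n + b), Real.log ((x + B : ℕ) : ℝ) ^ H.card := by
    refine Finset.sum_le_sum fun n hn => ?_
    rw [mem_filter, mem_Icc] at hn
    exact WW_le hB hn.1.2 hn.1.1
  refine h1.trans ?_
  rw [Finset.sum_const, nsmul_eq_mul, mul_comm]
  apply mul_le_mul_of_nonneg_left _ (pow_nonneg (Real.log_natCast_nonneg _) _)
  have h2 := (abs_le.1 (Pool.Agent.U26Z.NL.cnt b x hp (Nat.coprime_one_left p))).2
  simp only [one_mul] at h2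
  linarith

/-- the weight of an interval -/
theorem interval_le (H : Finset ℕ) : ∃ C : ℝ, 0 < C ∧ ∀ᶠ x : ℕ in atTop, ∀ u v : ℕ, u ≤ v →
    v ≤ 2 * x → x ≤ (v - u) ^ 3 → ∑ n ∈ Ioc u v, WW H n ≤ C * ((v : ℝ) - u) + (x : ℝ) ^ ((2 : ℝ) / 3) := by
  obtain ⟨b, hb⟩ := Infinite.exists_notMem_finset H
  obtain ⟨K, C, z₁, hK, hC, hz₁, hbz, hS⟩ := wsieve H b hb
  refine ⟨C, hC, ?_⟩
  filter_upwards [hS] with x hx u v huv hv huv3
  have key := hx.2 (v - u) 1 u le_rfl huv3 (by omega) ∅ (fun q hq => absurd hq (Finset.notMem_empty q))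
    (Ioc u v) (by
      intro n hn
      rw [mem_Ioc] at hn
      rw [mem_Icc]
      omega) (by
      intro n hn
      rw [mem_Ioc] at hn
      refine ⟨⟨n - u, ?_, ?_⟩, fun q hq => absurd hq (Finset.notMem_empty q)⟩
      · rw [mem_Icc]; omega
      · push_cast [Nat.cast_sub (show u ≤ n by omega)]
        ring)
  rw [Finset.prod_empty, mul_one, Nat.primeFactors_one, Finset.sum_empty, mul_zero, Real.exp_zero,
    mul_one, Nat.cast_sub huv] at key
  exact key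

/-- the weight of the integers free of given primes -/
theorem free_le (H : Finset ℕ) (b : ℕ) (hb : b ∉ H) : ∃ (K : ℕ) (C : ℝ) (z₁ : ℕ), 6 ≤ K ∧ 0 < C ∧
    (∀ c ∈ insert b H, c < z₁) ∧ ∀ᶠ x : ℕ in atTop, z₁ ≤ rt K x ∧ ∀ T : Finset ℕ,
    (∀ q ∈ T, q.Prime ∧ z₁ < q ∧ q ≤ rt K x) →
    ∑ n ∈ (Icc 1 x).filter (fun n => ∀ q ∈ T, ¬ q ∣ n + b), WW H n ≤
      C * (x * ∏ q ∈ T, (1 - 1 / (q : ℝ))) + (x : ℝ) ^ ((2 : ℝ) / 3) := by
  obtain ⟨K, C, z₁, hK, hC, hz₁, hbz, hS⟩ := wsieve H b hb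
  refine ⟨K + 3, C, z₁, by omega, hC, hbz, ?_⟩
  have e1 : ∀ᶠ x : ℕ in atTop, z₁ ≤ rt (K + 3) x := (rt_tend (by omega)).eventually_ge_atTop z₁
  filter_upwards [hS, e1, eventually_ge_atTop 1] with x hx hx1 hx2
  refine ⟨hx1, fun T hT => ?_⟩
  have hrt : rt (K + 3) x ≤ rt K x := by
    unfold rt
    apply Nat.floor_mono
    apply Real.rpow_le_rpow_of_exponent_le (by exact_mod_cast hx2)
    apply one_div_le_one_div_of_le
    · exact_mod_cast (by omega : 0 < K)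
    · exact_mod_cast (by omega : K ≤ K + 3)
  have key := hx.2 x 1 0 le_rfl (Nat.le_self_pow (by norm_num) x) (by omega) T
    (fun q hq => ⟨(hT q hq).1, (hT q hq).2.1, (hT q hq).2.2.trans hrt, fun h =>
      (hT q hq).1.one_lt.ne' (Nat.dvd_one.1 h)⟩)
    ((Icc 1 x).filter (fun n => ∀ q ∈ T, ¬ q ∣ n + b)) (by
      intro n hn
      rw [mem_filter, mem_Icc] at hn
      rw [mem_Icc]
      omega) (by
      intro n hn
      rw [mem_filter] at hn
      refine ⟨⟨n, hn.1, ?_⟩, hn.2⟩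
      push_cast
      ring)
  rw [Nat.primeFactors_one, Finset.sum_empty, mul_zero, Real.exp_zero, mul_one] at key
  exact key

end Pool.Agent.U26Z.NP
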