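import Pool.Agent.U26Z.NP.Dv
import Pool.Agent.U26Z.NL.Main

set_option autoImplicit false

/-!
# Weighted correlations of a randomly flipped Liouville function, on the cube
-/

namespace Pool.Agent.U26Z.NP

open Finset Filter Topology
open Pool.Agent.U26Z.NL (EE cm lamT nf BD)

/-- the weighted correlation sum -/
noncomputable def cs (w : ℕ → ℝ) (H G : Finset ℕ) (f : ℕ → ℤ) (x : ℕ) : ℝ :=
  ∑ n ∈ Icc 1 x, w n * WW H n * ∏ b ∈ G, (f (n + b) : ℝ)

/-- the product of the shifts -/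
def NG (G : Finset ℕ) (n : ℕ) : ℕ := ∏ b ∈ G, (n + b)

variable {w : ℕ → ℝ} {H G : Finset ℕ}

theorem ne_sh {n : ℕ} (hn : 1 ≤ n) (b : ℕ) : n + b ≠ 0 := by omega

theorem NG_ne {n : ℕ} (hn : 1 ≤ n) : NG G n ≠ 0 :=
  Finset.prod_ne_zero_iff.2 fun b _ => ne_sh hn b

theorem cs_eq (w : ℕ → ℝ) (H G : Finset ℕ) (x : ℕ) (T : Finset ℕ) :
    cs w H G (lamT T) x = ∑ n ∈ Icc 1 x, w n * WW H n *
      (((cm (fun _ => -1) (NG G n) : ℤ) : ℝ) * ∏ p ∈ T, (-1 : ℝ) ^ (NG G n).factorization p) := by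
  unfold cs
  refine Finset.sum_congr rfl fun n hn => ?_
  rw [mem_Icc] at hn
  congr 1
  have h1 : ∏ b ∈ G, lamT T (n + b) = lamT T (NG G n) := by
    unfold lamT NG
    rw [Pool.Agent.U26Z.NL.cm_prod _ _ _ (fun b _ => ne_sh hn.1 b)]
  have h2 : ∏ b ∈ G, ((lamT T (n + b) : ℤ) : ℝ) = ((lamT T (NG G n) : ℤ) : ℝ) := by
    rw [← h1]
    push_cast
    rfl
  rw [h2, Pool.Agent.U26Z.NL.lamT_eq]
  push_cast
  rfl

/-- the weight on the `n` with `p ∣ N(n)` -/
noncomputable def Dp (H G : Finset ℕ) (x p : ℕ) : ℝ := ∑ n ∈ (Icc 1 x).filter (fun n => p ∣ NG G n), WW H n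

theorem Dp_nonneg (x p : ℕ) : 0 ≤ Dp H G x p := Finset.sum_nonneg fun _ _ => WW_nonneg _ _

theorem Dp_le (x : ℕ) {p : ℕ} (hp : p.Prime) :
    Dp H G x p ≤ ∑ b ∈ G, ∑ n ∈ (Icc 1 x).filter (fun n => p ∣ n + b), WW H n := by
  classical
  have h2 : (Icc 1 x).filter (fun n => p ∣ NG G n) ⊆
      G.biUnion (fun b => (Icc 1 x).filter (fun n => p ∣ n + b)) := by
    intro n hn
    rw [mem_filter] at hn
    rw [mem_biUnion]
    obtain ⟨b, hb, h3⟩ := (Prime.dvd_finset_prod_iff hp.prime _).1 hn.2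
    exact ⟨b, hb, by rw [mem_filter]; exact ⟨hn.1, h3⟩⟩
  unfold Dp
  refine (Finset.sum_le_sum_of_subset_of_nonneg h2 (fun _ _ _ => WW_nonneg _ _)).trans ?_
  have h3 : ∀ s : Finset ℕ, ∑ n ∈ s.biUnion (fun b => (Icc 1 x).filter (fun n => p ∣ n + b)), WW H n ≤
      ∑ b ∈ s, ∑ n ∈ (Icc 1 x).filter (fun n => p ∣ n + b), WW H n := by
    intro s
    induction s using Finset.induction_on with
    | empty => simp
    | insert b s hb ih =>
      rw [Finset.biUnion_insert, Finset.sum_insert hb]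
      exact (sum_union_le _ _ _ (WW_nonneg H)).trans (add_le_add le_rfl ih)
  exact h3 G

/-- bounded differences -/
theorem bdiff (hw : ∀ n, |w n| ≤ 1) (x : ℕ) (p : ℕ) (T : Finset ℕ) :
    |cs w H G (lamT (insert p T)) x - cs w H G (lamT T) x| ≤ 2 * Dp H G x p := by
  classical
  by_cases hpT : p ∈ T
  · rw [Finset.insert_eq_of_mem hpT, sub_self, abs_zero]
    have := Dp_nonneg (H := H) (G := G) x p
    positivity
  · rw [cs_eq, cs_eq, ← Finset.sum_sub_distrib]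
    have h1 : ∀ n ∈ Icc 1 x, |w n * WW H n * (((cm (fun _ => -1) (NG G n) : ℤ) : ℝ) *
        ∏ q ∈ insert p T, (-1 : ℝ) ^ (NG G n).factorization q) -
        w n * WW H n * (((cm (fun _ => -1) (NG G n) : ℤ) : ℝ) *
          ∏ q ∈ T, (-1 : ℝ) ^ (NG G n).factorization q)| ≤
        2 * (if p ∣ NG G n then WW H n else 0) := by
      intro n _
      rw [Finset.prod_insert hpT]
      have h2 : w n * WW H n * (((cm (fun _ => -1) (NG G n) : ℤ) : ℝ) *
          ((-1) ^ (NG G n).factorization p * ∏ q ∈ T, (-1 : ℝ) ^ (NG G n).factorization q)) -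
          w n * WW H n * (((cm (fun _ => -1) (NG G n) : ℤ) : ℝ) *
          ∏ q ∈ T, (-1 : ℝ) ^ (NG G n).factorization q) =
          w n * (((cm (fun _ => -1) (NG G n) : ℤ) : ℝ) * (∏ q ∈ T, (-1 : ℝ) ^ (NG G n).factorization q)) *
          (WW H n * ((-1) ^ (NG G n).factorization p - 1)) := by ring
      rw [h2, abs_mul, abs_mul (w n), abs_mul ((cm (fun _ => -1) (NG G n) : ℤ) : ℝ),
        Pool.Agent.U26Z.NL.lam_abs', Pool.Agent.U26Z.NL.sgn_abs, one_mul, mul_one, abs_mul (WW H n),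
        abs_of_nonneg (WW_nonneg H n)]
      have h5 := WW_nonneg H n
      have h6 := hw n
      split_ifs with h3
      · have h7 : |(-1 : ℝ) ^ (NG G n).factorization p - 1| ≤ 2 := by
          rcases neg_one_pow_eq_or ℝ ((NG G n).factorization p) with h4 | h4
          · rw [h4]; norm_num
          · rw [h4]; norm_num
        calc |w n| * (WW H n * |(-1 : ℝ) ^ (NG G n).factorization p - 1|) ≤ 1 * (WW H n * 2) :=
              mul_le_mul h6 (mul_le_mul_of_nonneg_left h7 h5) (by positivity) (by norm_num)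
          _ = _ := by ring
      · rw [Nat.factorization_eq_zero_of_not_dvd h3, pow_zero, sub_self, abs_zero, mul_zero, mul_zero,
          mul_zero]
    refine (Finset.abs_sum_le_sum_abs _ _).trans ((Finset.sum_le_sum h1).trans (le_of_eq ?_))
    rw [← Finset.mul_sum]
    congr 1
    unfold Dp
    rw [Finset.sum_filter]

/-- the conditional mean -/
theorem condMean (δ : ℕ → ℝ) (h0 : ∀ p, 0 ≤ δ p) (h1 : ∀ p, δ p ≤ 1 / 2) (hw : ∀ n, |w n| ≤ 1) (x : ℕ)
    (T₁ F : Finset ℕ) (hd : Disjoint T₁ F) :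
    |EE δ F (fun T => cs w H G (lamT (T₁ ∪ T)) x)| ≤
      ∑ n ∈ Icc 1 x, WW H n * ∏ p ∈ F, nf (δ p) ((NG G n).factorization p) := by
  have h2 : EE δ F (fun T => cs w H G (lamT (T₁ ∪ T)) x) =
      ∑ n ∈ Icc 1 x, w n * WW H n * (((cm (fun _ => -1) (NG G n) : ℤ) : ℝ) *
        (∏ p ∈ T₁, (-1 : ℝ) ^ (NG G n).factorization p)) *
        ∏ p ∈ F, nf (δ p) ((NG G n).factorization p) := by
    have h3 : ∀ T, T ⊆ F → cs w H G (lamT (T₁ ∪ T)) x =
        ∑ n ∈ Icc 1 x, w n * WW H n * (((cm (fun _ => -1) (NG G n) : ℤ) : ℝ) *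
        (∏ p ∈ T₁, (-1 : ℝ) ^ (NG G n).factorization p)) *
        ∏ p ∈ T, (-1 : ℝ) ^ (NG G n).factorization p := by
      intro T hT
      rw [cs_eq]
      refine Finset.sum_congr rfl fun n _ => ?_
      rw [Finset.prod_union (Finset.disjoint_of_subset_right hT hd)]
      ring
    have h4 : EE δ F (fun T => cs w H G (lamT (T₁ ∪ T)) x) =
        EE δ F (fun T => ∑ n ∈ Icc 1 x, w n * WW H n * (((cm (fun _ => -1) (NG G n) : ℤ) : ℝ) *
        (∏ p ∈ T₁, (-1 : ℝ) ^ (NG G n).factorization p)) *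
        ∏ p ∈ T, (-1 : ℝ) ^ (NG G n).factorization p) := by
      unfold EE
      refine Finset.sum_congr rfl fun T hT => ?_
      beta_reduce
      rw [h3 T (Finset.mem_powerset.1 hT)]
    rw [h4, Pool.Agent.U26Z.NL.EE_sum]
    refine Finset.sum_congr rfl fun n _ => ?_
    rw [Pool.Agent.U26Z.NL.EE_smul, Pool.Agent.U26Z.NL.EE_prod]
    rfl
  rw [h2]
  refine (Finset.abs_sum_le_sum_abs _ _).trans (Finset.sum_le_sum fun n _ => ?_)
  have h5 := WW_nonneg H n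
  have h6 : 0 ≤ ∏ p ∈ F, nf (δ p) ((NG G n).factorization p) :=
    Finset.prod_nonneg fun p _ => Pool.Agent.U26Z.NL.nf_nonneg (h0 p) (h1 p) _
  rw [abs_mul, abs_mul, abs_mul, abs_mul, Pool.Agent.U26Z.NL.lam_abs', Pool.Agent.U26Z.NL.sgn_abs,
    mul_one, mul_one, abs_of_nonneg h6, abs_of_nonneg h5]
  apply mul_le_mul_of_nonneg_right _ h6
  calc |w n| * WW H n ≤ 1 * WW H n := mul_le_mul_of_nonneg_right (hw n) h5
    _ = _ := one_mul _

/-- a prime divisor of one shift only -/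
theorem val_one {y : ℕ} (hy : ∀ b ∈ G, b ≤ y) {n p b₀ : ℕ} (hn : 1 ≤ n) (hp : p.Prime) (hyp : y < p)
    (hb₀ : b₀ ∈ G) (h1 : p ∣ n + b₀) (h2 : ¬ p ^ 2 ∣ n + b₀) :
    (NG G n).factorization p = 1 := by
  unfold NG
  rw [Nat.factorization_prod (fun j _ => ne_sh hn j), Finset.sum_apply']
  rw [Finset.sum_eq_single b₀]
  · have h3 : 1 ≤ (n + b₀).factorization p :=
      (hp.dvd_iff_one_le_factorization (ne_sh hn b₀)).1 h1
    have h4 : ¬ 2 ≤ (n + b₀).factorization p := fun h =>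
      h2 ((hp.pow_dvd_iff_le_factorization (ne_sh hn b₀)).2 h)
    omega
  · intro b hb hbb
    apply Nat.factorization_eq_zero_of_not_dvd
    intro h3
    have h4 := hy b hb
    have h5 := hy b₀ hb₀
    rcases Nat.lt_or_ge b b₀ with h6 | h6
    · have h7 := (Nat.dvd_sub h1 h3)
      have h8 : n + b₀ - (n + b) = b₀ - b := by omega
      rw [h8] at h7
      have := Nat.le_of_dvd (by omega) h7
      omega
    · have h7 := (Nat.dvd_sub h3 h1)
      have h8 : n + b - (n + b₀) = b - b₀ := by omega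
      rw [h8] at h7
      have := Nat.le_of_dvd (by omega) h7
      omega
  · intro h3
    exact absurd hb₀ h3

/-- the product over the prime divisors as the probability that a random set is free of them -/
theorem prod_eq_EE (δ : ℕ → ℝ) (P : Finset ℕ) (m : ℕ) :
    ∏ p ∈ P.filter (fun p => p ∣ m), (1 - 2 * δ p) =
      EE (fun p => 2 * δ p) P (fun T => if ∀ p ∈ T, ¬ p ∣ m then 1 else 0) := by
  have h1 := Pool.Agent.U26Z.NL.EE_prod (δ := fun p => 2 * δ p) (fun p => if p ∣ m then (0 : ℝ) else 1) P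
  have h2 : EE (fun p => 2 * δ p) P (fun T => if ∀ p ∈ T, ¬ p ∣ m then 1 else 0) =
      EE (fun p => 2 * δ p) P (fun T => ∏ p ∈ T, (if p ∣ m then (0 : ℝ) else 1)) := by
    congr 1
    funext T
    by_cases h : ∀ p ∈ T, ¬ p ∣ m
    · rw [if_pos h]
      symm
      exact Finset.prod_eq_one fun p hp => if_neg (h p hp)
    · rw [if_neg h]
      push Not at h
      obtain ⟨p, hp, hpm⟩ := h
      symm
      exact Finset.prod_eq_zero hp (if_pos hpm)
  rw [h2, h1, Finset.prod_filter]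
  refine Finset.prod_congr rfl fun p _ => ?_
  split_ifs <;> ring

theorem free_mean {δ : ℕ → ℝ} (h0 : ∀ p, 0 ≤ δ p) (h1 : ∀ p, δ p ≤ 1 / 2) {P : Finset ℕ} {b x : ℕ}
    {C E : ℝ} (hC : 0 ≤ C) (hP : ∀ q ∈ P, 1 ≤ q)
    (h : ∀ T : Finset ℕ, T ⊆ P → ∑ n ∈ (Icc 1 x).filter (fun n => ∀ q ∈ T, ¬ q ∣ n + b), WW H n ≤
      C * (x * ∏ q ∈ T, (1 - 1 / (q : ℝ))) + E) :
    ∑ n ∈ Icc 1 x, WW H n * ∏ p ∈ P.filter (fun p => p ∣ n + b), (1 - 2 * δ p) ≤
      C * (x * Real.exp (-(2 * ∑ q ∈ P, δ q / q))) + E := by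
  have h2 : ∑ n ∈ Icc 1 x, WW H n * ∏ p ∈ P.filter (fun p => p ∣ n + b), (1 - 2 * δ p) =
      EE (fun p => 2 * δ p) P (fun T => ∑ n ∈ (Icc 1 x).filter (fun n => ∀ q ∈ T, ¬ q ∣ n + b), WW H n) := by
    have h3 : ∀ T : Finset ℕ, ∑ n ∈ (Icc 1 x).filter (fun n => ∀ q ∈ T, ¬ q ∣ n + b), WW H n =
        ∑ n ∈ Icc 1 x, WW H n * (if ∀ q ∈ T, ¬ q ∣ n + b then 1 else 0) := by
      intro T
      rw [Finset.sum_filter]
      refine Finset.sum_congr rfl fun n _ => ?_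
      split_ifs <;> ring
    simp only [h3]
    rw [Pool.Agent.U26Z.NL.EE_sum]
    refine Finset.sum_congr rfl fun n _ => ?_
    rw [Pool.Agent.U26Z.NL.EE_smul, prod_eq_EE]
  rw [h2]
  have h4 : EE (fun p => 2 * δ p) P (fun T => ∑ n ∈ (Icc 1 x).filter (fun n => ∀ q ∈ T, ¬ q ∣ n + b), WW H n) ≤
      EE (fun p => 2 * δ p) P (fun T => (C * x) * (∏ q ∈ T, (1 - 1 / (q : ℝ))) + E) := by
    refine Pool.Agent.U26Z.NL.EE_mono (fun p => by have := h0 p; positivity)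
      (fun p => by have := h1 p; linarith) fun T hT => ?_
    refine (h T hT).trans (le_of_eq (by ring))
  refine h4.trans ?_
  have h5 : EE (fun p => 2 * δ p) P (fun T => (C * x) * (∏ q ∈ T, (1 - 1 / (q : ℝ))) + E) =
      (C * x) * ∏ q ∈ P, (1 - 2 * δ q + 2 * δ q * (1 - 1 / (q : ℝ))) + E := by
    have h6 := Pool.Agent.U26Z.NL.EE_add (δ := fun p => 2 * δ p) P
      (fun T => (C * x) * (∏ q ∈ T, (1 - 1 / (q : ℝ)))) (fun _ => E)
    rw [Pool.Agent.U26Z.NL.EE_const, Pool.Agent.U26Z.NL.EE_smul, Pool.Agent.U26Z.NL.EE_prod] at h6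
    exact h6
  rw [h5]
  apply add_le_add _ le_rfl
  rw [mul_assoc]
  apply mul_le_mul_of_nonneg_left _ hC
  apply mul_le_mul_of_nonneg_left _ (Nat.cast_nonneg x)
  rw [Finset.mul_sum, ← Finset.sum_neg_distrib, Real.exp_sum]
  apply Finset.prod_le_prod
  · intro q hq
    have h6 := h0 q
    have h7 := h1 q
    have h8 : (1 : ℝ) ≤ q := by exact_mod_cast hP q hq
    have h9 : 1 / (q : ℝ) ≤ 1 := by rw [div_le_one (by linarith)]; exact h8
    have h10 : 0 ≤ 1 / (q : ℝ) := by positivity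
    nlinarith
  · intro q _
    have h6 := Real.add_one_le_exp (-(2 * (δ q / q)))
    refine le_trans (le_of_eq ?_) h6
    ring

end Pool.Agent.U26Z.NP
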