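import Pool.Agent.Y959.Sv.Up
import Pool.Agent.Erdos456.Mertens

set_option autoImplicit false

/-!
# An upper bound sieve for shifts of a progression
-/

namespace Pool.Agent.U26Z.NP

open Finset
open Pool.Agent.Y959.Sv (nu)

/-- the root of `a n + r + b` mod `q` -/
def root (a : ℕ) (r : ℤ) (q b : ℕ) : ℕ := ((-((r : ZMod q) + b)) * (a : ZMod q)⁻¹).val

theorem root_iff {a q b n : ℕ} {r : ℤ} (hq : q.Prime) (ha : ¬ q ∣ a) :
    (q : ℤ) ∣ a * n + r + b ↔ n % q = root a r q b := by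
  have : Fact q.Prime := ⟨hq⟩
  have ha' : (a : ZMod q) ≠ 0 := by rwa [Ne, ZMod.natCast_eq_zero_iff]
  unfold root
  constructor
  · intro h
    rw [← ZMod.intCast_zmod_eq_zero_iff_dvd] at h
    push_cast at h
    have h1 : (n : ZMod q) = -((r : ZMod q) + b) * (a : ZMod q)⁻¹ := by
      rw [eq_mul_inv_iff_mul_eq₀ ha']
      linear_combination h
    rw [← h1, ZMod.val_natCast]
  · intro h
    have h1 : (n : ZMod q) = -((r : ZMod q) + b) * (a : ZMod q)⁻¹ := by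
      have := congrArg (Nat.cast : ℕ → ZMod q) h
      rw [ZMod.natCast_zmod_val, ZMod.natCast_mod] at this
      exact this
    rw [eq_mul_inv_iff_mul_eq₀ ha'] at h1
    rw [← ZMod.intCast_zmod_eq_zero_iff_dvd]
    push_cast
    linear_combination h1

theorem root_lt {a q b : ℕ} {r : ℤ} (hq : q.Prime) : root a r q b < q := by
  have : Fact q.Prime := ⟨hq⟩
  exact ZMod.val_lt _

theorem root_inj {a q b b' : ℕ} {r : ℤ} (hq : q.Prime) (ha : ¬ q ∣ a) (hb : b < q) (hb' : b' < q)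
    (h : root a r q b = root a r q b') : b = b' := by
  have : Fact q.Prime := ⟨hq⟩
  have ha' : (a : ZMod q) ≠ 0 := by rwa [Ne, ZMod.natCast_eq_zero_iff]
  unfold root at h
  have h1 := ZMod.val_injective q h
  have h2 : (b : ZMod q) = b' := by
    have h3 := mul_right_cancel₀ (inv_ne_zero ha') h1
    linear_combination -h3
  have h3 := (ZMod.natCast_eq_natCast_iff' b b' q).1 h2
  rwa [Nat.mod_eq_of_lt hb, Nat.mod_eq_of_lt hb'] at h3

/-- the shifts to be sieved at `q` -/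
def Bs (H T : Finset ℕ) (h' q : ℕ) : Finset ℕ := if q ∈ T then insert h' H else H

/-- the bad classes -/
def QQ (H T : Finset ℕ) (h' a : ℕ) (r : ℤ) (q n : ℕ) : Prop :=
  n % q ∈ (Bs H T h' q).image (root a r q)

theorem QQ_per (H T : Finset ℕ) (h' a : ℕ) (r : ℤ) (q n : ℕ) :
    QQ H T h' a r q n ↔ QQ H T h' a r q (n % q) := by
  unfold QQ
  rw [Nat.mod_mod]

theorem nu_QQ {H T : Finset ℕ} {h' a : ℕ} {r : ℤ} {q : ℕ} (hq : q.Prime) (ha : ¬ q ∣ a)
    (hb : ∀ b ∈ insert h' H, b < q) : nu (QQ H T h' a r) q = (Bs H T h' q).card := by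
  classical
  have hBs : Bs H T h' q ⊆ insert h' H := by
    unfold Bs
    split_ifs
    · exact Finset.Subset.refl _
    · exact Finset.subset_insert _ _
  unfold nu
  refine (congrArg Finset.card (?_ : _ = (Bs H T h' q).image (root a r q))).trans ?_
  · ext s
    rw [mem_filter, mem_range]
    unfold QQ
    constructor
    · rintro ⟨h1, h2⟩
      rwa [Nat.mod_eq_of_lt h1] at h2
    · intro h2
      have h3 : s < q := by
        obtain ⟨b, -, rfl⟩ := mem_image.1 h2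
        exact root_lt hq
      rw [Nat.mod_eq_of_lt h3]
      exact ⟨h3, h2⟩
  apply Finset.card_image_of_injOn
  intro b hb1 b' hb1' h
  exact root_inj hq ha (hb b (hBs hb1)) (hb b' (hBs hb1')) h

theorem sum_union_le (s t : Finset ℕ) (f : ℕ → ℝ) (hf : ∀ n, 0 ≤ f n) :
    ∑ n ∈ s ∪ t, f n ≤ ∑ n ∈ s, f n + ∑ n ∈ t, f n := by
  rw [← Finset.sum_union_inter]
  have : 0 ≤ ∑ n ∈ s ∩ t, f n := Finset.sum_nonneg fun n _ => hf n
  linarith

theorem fac_le {k q : ℕ} (hq : 0 < q) {e : ℕ} (he : e = k ∨ e = k + 1) :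
    (1 : ℝ) - (e : ℝ) / q ≤ Real.exp (-(k * (1 / (q : ℝ)))) * (if e = k then 1 else 1 - 1 / (q : ℝ)) := by
  have hq0 : (0 : ℝ) < q := by exact_mod_cast hq
  have hq1 : (1 : ℝ) ≤ q := by exact_mod_cast hq
  have h1 : (1 : ℝ) - k * (1 / (q : ℝ)) ≤ Real.exp (-(k * (1 / (q : ℝ)))) := by
    have := Real.add_one_le_exp (-(k * (1 / (q : ℝ))))
    linarith
  rcases he with rfl | rfl
  · rw [if_pos rfl, mul_one]
    refine le_trans (le_of_eq ?_) h1
    ring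
  · rw [if_neg (by omega)]
    have h2 : (0 : ℝ) ≤ 1 - 1 / q := by
      rw [sub_nonneg, div_le_one hq0]
      exact hq1
    refine le_trans ?_ (mul_le_mul_of_nonneg_right h1 h2)
    have h3 : (0 : ℝ) ≤ k * (1 / (q : ℝ)) * (1 / q) := by positivity
    push_cast
    have h4 : ((k : ℝ) + 1) / q = k * (1 / (q : ℝ)) + 1 / q := by ring
    rw [h4]
    nlinarith

open Classical in
/-- **the sieve** -/
theorem sieve_prog (H : Finset ℕ) (h' : ℕ) (hh : h' ∉ H) : ∃ (K : ℕ) (C : ℝ) (z₁ : ℕ), 1 ≤ K ∧ 0 < C ∧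
    3 ≤ z₁ ∧ (∀ b ∈ insert h' H, b < z₁) ∧ ∀ (y X a : ℕ) (r : ℤ), z₁ ≤ y → y ^ K ≤ X → 1 ≤ a →
    ∀ T : Finset ℕ, (∀ q ∈ T, q.Prime ∧ z₁ < q ∧ q ≤ y ∧ ¬ q ∣ a) →
    (((Icc 1 X).filter (fun n : ℕ =>
      (∀ b ∈ H, ∀ q : ℕ, q.Prime → z₁ < q → q ≤ y → ¬ (q : ℤ) ∣ (a : ℤ) * n + r + b) ∧
      ∀ q ∈ T, ¬ (q : ℤ) ∣ (a : ℤ) * n + r + h')).card : ℝ) ≤
      C * (X / Real.log y ^ H.card * Real.exp (H.card * ∑ q ∈ a.primeFactors, 1 / (q : ℝ)) *
        ∏ q ∈ T, (1 - 1 / (q : ℝ))) + √(X : ℝ) := by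
  obtain ⟨K, z0, hK, hS⟩ := Pool.Agent.Y959.Sv.up_sieve (H.card + 1)
  obtain ⟨C₁, hC₁⟩ := Pool.Agent.Erdos456.Mert.mertens_inv
  obtain ⟨z₁, hz₁⟩ : ∃ z₁, z₁ = 3 + z0 + h' + (∑ b ∈ H, b) + 1 + H.card := ⟨_, rfl⟩
  have hb : ∀ b ∈ insert h' H, b < z₁ := by
    intro b hb
    rcases Finset.mem_insert.1 hb with rfl | hb
    · omega
    · have : b ≤ ∑ b ∈ H, b := Finset.single_le_sum (f := fun b => b) (fun _ _ => Nat.zero_le _) hb
      omega
  obtain ⟨S₁, hS₁⟩ : ∃ S₁ : ℝ, S₁ = ∑ q ∈ (Icc 1 z₁).filter Nat.Prime, 1 / (q : ℝ) := ⟨_, rfl⟩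
  refine ⟨K, 2 * Real.exp (H.card * (C₁ + S₁)), z₁, hK, by positivity, by omega, hb,
    fun y X a r hy hyX ha T hT => ?_⟩
  obtain ⟨P, hP⟩ : ∃ P, P = (Icc 1 y).filter (fun q => q.Prime ∧ z₁ < q ∧ ¬ q ∣ a) := ⟨_, rfl⟩
  have hmP : ∀ q ∈ P, q.Prime ∧ z₁ < q ∧ q ≤ y ∧ ¬ q ∣ a := by
    intro q hq
    rw [hP, mem_filter, mem_Icc] at hq
    exact ⟨hq.2.1, hq.2.2.1, hq.1.2, hq.2.2.2⟩
  have hTP : T ⊆ P := by
    intro q hq
    obtain ⟨h1, h2, h3, h4⟩ := hT q hq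
    rw [hP, mem_filter, mem_Icc]
    exact ⟨⟨h1.one_lt.le, h3⟩, h1, h2, h4⟩
  have hnu : ∀ q ∈ P, nu (QQ H T h' a r) q = if q ∈ T then H.card + 1 else H.card := by
    intro q hq
    obtain ⟨h1, h2, h3, h4⟩ := hmP q hq
    rw [nu_QQ h1 h4 (fun b hb' => (hb b hb').trans h2)]
    unfold Bs
    split_ifs
    · rw [Finset.card_insert_of_notMem hh]
    · rfl
  have key := hS y X (by omega) hyX (QQ H T h' a r) (QQ_per H T h' a r) P (fun q hq => by
    obtain ⟨h1, h2, h3, h4⟩ := hmP q hq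
    refine ⟨h1, by omega, h3, ?_⟩
    rw [hnu q hq]
    split_ifs <;> omega)
  have hsub : (Icc 1 X).filter (fun n : ℕ =>
      (∀ b ∈ H, ∀ q : ℕ, q.Prime → z₁ < q → q ≤ y → ¬ (q : ℤ) ∣ (a : ℤ) * n + r + b) ∧
      ∀ q ∈ T, ¬ (q : ℤ) ∣ (a : ℤ) * n + r + h') ⊆
      (Icc 1 X).filter (fun n : ℕ => ∀ q ∈ P, ¬ QQ H T h' a r q n) := by
    intro n hn
    rw [mem_filter] at hn ⊢
    refine ⟨hn.1, fun q hq h => ?_⟩
    obtain ⟨h1, h2, h3, h4⟩ := hmP q hq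
    unfold QQ Bs at h
    rw [mem_image] at h
    obtain ⟨b, hb1, hb2⟩ := h
    have h5 : (q : ℤ) ∣ (a : ℤ) * n + r + b := (root_iff h1 h4).2 hb2.symm
    split_ifs at hb1 with h6
    · rcases Finset.mem_insert.1 hb1 with rfl | hb1
      · exact hn.2.2 q h6 h5
      · exact hn.2.1 b hb1 q h1 h2 h3 h5
    · exact hn.2.1 b hb1 q h1 h2 h3 h5
  have hcard : (((Icc 1 X).filter (fun n : ℕ =>
      (∀ b ∈ H, ∀ q : ℕ, q.Prime → z₁ < q → q ≤ y → ¬ (q : ℤ) ∣ (a : ℤ) * n + r + b) ∧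
      ∀ q ∈ T, ¬ (q : ℤ) ∣ (a : ℤ) * n + r + h')).card : ℝ) ≤
      (((Icc 1 X).filter (fun n : ℕ => ∀ q ∈ P, ¬ QQ H T h' a r q n)).card : ℝ) := by
    exact_mod_cast Finset.card_le_card hsub
  refine hcard.trans (key.trans (add_le_add ?_ le_rfl))
  -- the product
  have hly : 0 < Real.log y := Real.log_pos (by
    have : 3 ≤ y := by omega
    have : (3 : ℝ) ≤ y := by exact_mod_cast this
    linarith)
  have hprod : ∏ q ∈ P, (1 - (nu (QQ H T h' a r) q : ℝ) / q) ≤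
      Real.exp (-(H.card * ∑ q ∈ P, 1 / (q : ℝ))) * ∏ q ∈ T, (1 - 1 / (q : ℝ)) := by
    have h1 : ∀ q ∈ P, (1 - (nu (QQ H T h' a r) q : ℝ) / q) ≤
        Real.exp (-(H.card * (1 / (q : ℝ)))) * (if q ∈ T then 1 - 1 / (q : ℝ) else 1) := by
      intro q hq
      have h2 := fac_le (k := H.card) (hmP q hq).1.pos (e := nu (QQ H T h' a r) q) (by
        rw [hnu q hq]; split_ifs <;> omega)
      refine h2.trans (le_of_eq ?_)
      congr 1
      rw [hnu q hq]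
      by_cases h3 : q ∈ T
      · rw [if_pos h3, if_neg (by omega), if_pos h3]
      · rw [if_neg h3, if_pos rfl, if_neg h3]
    have h2 : ∏ q ∈ P, (1 - (nu (QQ H T h' a r) q : ℝ) / q) ≤
        ∏ q ∈ P, (Real.exp (-(H.card * (1 / (q : ℝ)))) * (if q ∈ T then 1 - 1 / (q : ℝ) else 1)) := by
      apply Finset.prod_le_prod _ h1
      intro q hq
      have hq0 : (0 : ℝ) < q := by exact_mod_cast (hmP q hq).1.pos
      rw [sub_nonneg, div_le_one hq0]
      exact_mod_cast Pool.Agent.Y959.Sv.nu_le _ q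
    refine h2.trans (le_of_eq ?_)
    rw [Finset.prod_mul_distrib, ← Real.exp_sum, Finset.sum_neg_distrib, ← Finset.mul_sum]
    congr 1
    rw [Finset.prod_ite_mem]
    congr 1
    exact Finset.inter_eq_right.2 hTP
  -- Mertens
  have hM : Real.log (Real.log y) - C₁ - S₁ - ∑ q ∈ a.primeFactors, 1 / (q : ℝ) ≤
      ∑ q ∈ P, 1 / (q : ℝ) := by
    have h1 := (abs_le.1 (hC₁ y (by omega))).1
    have h2 : (Icc 1 y).filter Nat.Prime ⊆ (P ∪ (Icc 1 z₁).filter Nat.Prime) ∪ a.primeFactors := by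
      intro q hq
      rw [mem_filter, mem_Icc] at hq
      rw [mem_union, mem_union, hP, mem_filter, mem_filter, mem_Icc, mem_Icc, Nat.mem_primeFactors]
      by_cases h3 : q ∣ a
      · exact Or.inr ⟨hq.2, h3, by omega⟩
      · by_cases h4 : z₁ < q
        · exact Or.inl (Or.inl ⟨hq.1, hq.2, h4, h3⟩)
        · exact Or.inl (Or.inr ⟨⟨hq.1.1, by omega⟩, hq.2⟩)
    have h3 : ∑ q ∈ (Icc 1 y).filter Nat.Prime, 1 / (q : ℝ) ≤
        ∑ q ∈ P, 1 / (q : ℝ) + S₁ + ∑ q ∈ a.primeFactors, 1 / (q : ℝ) := by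
      refine (Finset.sum_le_sum_of_subset_of_nonneg h2 (fun _ _ _ => by positivity)).trans ?_
      refine (sum_union_le _ _ _ (fun _ => by positivity)).trans (add_le_add ?_ le_rfl)
      rw [hS₁]
      exact sum_union_le _ _ _ (fun _ => by positivity)
    linarith
  have hT0 : 0 ≤ ∏ q ∈ T, (1 - 1 / (q : ℝ)) := by
    refine Finset.prod_nonneg fun q hq => ?_
    have hq1 : (1 : ℝ) ≤ q := by exact_mod_cast (hT q hq).1.one_lt.le
    rw [sub_nonneg, div_le_one (by linarith)]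
    exact hq1
  have hexp : Real.exp (-(H.card * ∑ q ∈ P, 1 / (q : ℝ))) ≤
      Real.exp (H.card * (C₁ + S₁)) * (1 / Real.log y ^ H.card *
        Real.exp (H.card * ∑ q ∈ a.primeFactors, 1 / (q : ℝ))) := by
    have h1 : 1 / Real.log y ^ H.card = Real.exp (-(H.card * Real.log (Real.log y))) := by
      rw [Real.exp_neg, ← Real.log_pow, Real.exp_log (pow_pos hly _), one_div]
    rw [h1, ← Real.exp_add, ← Real.exp_add]
    apply Real.exp_le_exp.2
    have h2 := mul_le_mul_of_nonneg_left hM (Nat.cast_nonneg (α := ℝ) H.card)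
    linarith
  have hX : (0 : ℝ) ≤ X := Nat.cast_nonneg X
  calc 2 * ((X : ℝ) * ∏ q ∈ P, (1 - (nu (QQ H T h' a r) q : ℝ) / q)) ≤
      2 * (X * ((Real.exp (H.card * (C₁ + S₁)) * (1 / Real.log y ^ H.card *
        Real.exp (H.card * ∑ q ∈ a.primeFactors, 1 / (q : ℝ)))) * ∏ q ∈ T, (1 - 1 / (q : ℝ)))) := by
        apply mul_le_mul_of_nonneg_left _ (by norm_num)
        apply mul_le_mul_of_nonneg_left _ hX
        exact hprod.trans (mul_le_mul_of_nonneg_right hexp hT0)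
    _ = _ := by ring

end Pool.Agent.U26Z.NP
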