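import Pool.Agent.U26Z.NP.Big
import Pool.Agent.U26Z.NP.AS
import Pool.Agent.U26Z.NL.Sm

set_option autoImplicit false

/-!
# The transfer principle with weights
-/

namespace Pool.Agent.U26Z.NP

open Finset Filter Topology MeasureTheory ProbabilityTheory
open Pool.Agent.U26Z.NL (cm noisy fac_eq)

/-- the indicator function of a progression -/
noncomputable def ind (Q c n : ℕ) : ℝ := if n % Q = c % Q then 1 else 0

theorem ind_abs (Q c n : ℕ) : |ind Q c n| ≤ 1 := by
  unfold ind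
  split_ifs <;> norm_num

open Classical in
theorem transfer {s t : ℕ → ℤ} (hs : ∀ p, s p = 1 ∨ s p = -1) (ht : ∀ p, t p = 1 ∨ t p = -1)
    (hsum : Summable (fun p : ℕ => if p.Prime ∧ s p ≠ t p then (1 : ℝ) / p else 0)) {H G : Finset ℕ}
    (hG : Disjoint H G)
    (hC : ∀ Q c : ℕ, 1 ≤ Q → Tendsto (fun x : ℕ => cs (ind Q c) H G (cm s) x / x) atTop (𝓝 0))
    (q₀ c₀ : ℕ) (hq₀ : 1 ≤ q₀) :
    Tendsto (fun x : ℕ => cs (ind q₀ c₀) H G (cm t) x / x) atTop (𝓝 0) := by
  have hs1 : ∀ p, |s p| = 1 := fun p => by rcases hs p with h | h <;> rw [h] <;> norm_num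
  have ht1 : ∀ p, |t p| = 1 := fun p => by rcases ht p with h | h <;> rw [h] <;> norm_num
  apply Pool.Agent.U26Z.NL.tend_of_eps
  intro m₀
  obtain ⟨ε, hε⟩ : ∃ ε : ℝ, ε = 1 / ((m₀ : ℝ) + 1) := ⟨_, rfl⟩
  have hε0 : 0 < ε := by rw [hε]; positivity
  rw [← hε]
  obtain ⟨η, hη⟩ : ∃ η : ℝ, η = ε / (2 * (G.card + 1)) := ⟨_, rfl⟩
  have hη0 : 0 < η := by rw [hη]; positivity
  -- the choice of `y`
  have h1 : ∀ b : ℕ, ∃ y₀ : ℕ, b ∈ G → ∀ y : ℕ, y₀ ≤ y → ∀ᶠ x : ℕ in atTop,
      ∑ n ∈ (Icc 1 x).filter (fun n => ∃ p : ℕ, (p.Prime ∧ s p ≠ t p) ∧ y < p ∧ p ∣ n + b), WW H n ≤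
        η * x := by
    intro b
    by_cases hb : b ∈ G
    · obtain ⟨y₀, hy₀⟩ := thin H b (fun h => (Finset.disjoint_left.1 hG) h hb) (fun p => s p ≠ t p)
        (by convert hsum) hη0
      exact ⟨y₀, fun _ => hy₀⟩
    · exact ⟨0, fun h => absurd h hb⟩
  choose y₀ hy₀ using h1
  obtain ⟨y, hy⟩ : ∃ y, y = ∑ b ∈ G, y₀ b := ⟨_, rfl⟩
  have hB1 : ∀ᶠ x : ℕ in atTop, ∀ b ∈ G,
      ∑ n ∈ (Icc 1 x).filter (fun n => ∃ p : ℕ, (p.Prime ∧ s p ≠ t p) ∧ y < p ∧ p ∣ n + b), WW H n ≤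
        η * x := by
    rw [Finset.eventually_all]
    intro b hb
    apply hy₀ b hb y
    rw [hy]
    exact Finset.single_le_sum (f := y₀) (fun _ _ => Nat.zero_le _) hb
  obtain ⟨T, hT⟩ : ∃ T, T = (Icc 1 y).filter (fun p => p.Prime ∧ s p ≠ t p) := ⟨_, rfl⟩
  have hTp : ∀ p ∈ T, p.Prime := fun p hp => by
    rw [hT, mem_filter] at hp
    exact hp.2.1
  -- the choice of `R`
  obtain ⟨C₁, hC₁, hmult⟩ := mult_all H G hG
  obtain ⟨R, hR1, hR⟩ : ∃ R : ℕ, 1 ≤ R ∧ (T.card : ℝ) * G.card * C₁ / 2 ^ R ≤ η := by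
    have h2 : Tendsto (fun R : ℕ => (T.card : ℝ) * G.card * C₁ / 2 ^ R) atTop (𝓝 0) :=
      tendsto_const_nhds.div_atTop (tendsto_pow_atTop_atTop_of_one_lt (by norm_num))
    obtain ⟨R, h3, h4⟩ := ((h2.eventually (ge_mem_nhds hη0)).and (eventually_ge_atTop 1)).exists
    exact ⟨R, h4, h3⟩
  obtain ⟨Q, hQ⟩ : ∃ Q : ℕ, Q = q₀ * ∏ p ∈ T, p ^ R := ⟨_, rfl⟩
  have hQ0 : 0 < Q := by
    rw [hQ]
    exact Nat.mul_pos hq₀ (Finset.prod_pos fun p hp => pow_pos (hTp p hp).pos R)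
  have hqQ : q₀ ∣ Q := by rw [hQ]; exact Nat.dvd_mul_right _ _
  -- the product of `t` in terms of `s`
  have hts : ∀ n, cm t n = cm s n * cm (fun p => s p * t p) n := by
    intro n
    rw [← Pool.Agent.U26Z.NL.cm_mul_fun]
    congr 1
    funext p
    rcases hs p with h | h <;> rw [h] <;> ring
  obtain ⟨κ, hκ⟩ : ∃ κ : ℕ → ℝ, κ = fun c => ∏ b ∈ G,
      ((∏ p ∈ T, (-1 : ℤ) ^ (c + Q + b).factorization p : ℤ) : ℝ) := ⟨_, rfl⟩
  have hκ1 : ∀ c, |κ c| = 1 := by
    intro c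
    rw [hκ]
    simp only
    rw [Finset.abs_prod]
    refine Finset.prod_eq_one fun i _ => ?_
    push_cast
    exact Pool.Agent.U26Z.NL.sgn_abs T _
  -- the bad points
  obtain ⟨B1, hB1'⟩ : ∃ B1 : ℕ → Finset ℕ, B1 = fun x => G.biUnion (fun b => (Icc 1 x).filter
      (fun n => ∃ p : ℕ, (p.Prime ∧ s p ≠ t p) ∧ y < p ∧ p ∣ n + b)) := ⟨_, rfl⟩
  obtain ⟨B2, hB2'⟩ : ∃ B2 : ℕ → Finset ℕ, B2 = fun x => T.biUnion (fun p => G.biUnion (fun b =>
      (Icc 1 x).filter (fun n => p ^ R ∣ n + b))) := ⟨_, rfl⟩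
  have hgood : ∀ x n : ℕ, n ∈ Icc 1 x → n ∉ B1 x → n ∉ B2 x →
      ∏ b ∈ G, (cm t (n + b) : ℝ) = κ (n % Q) * ∏ b ∈ G, (cm s (n + b) : ℝ) := by
    intro x n hn h1 h2
    rw [hκ]
    simp only
    rw [← Finset.prod_mul_distrib]
    refine Finset.prod_congr rfl fun b hb => ?_
    have h1' : ∀ p : ℕ, p.Prime → s p ≠ t p → y < p → ¬ p ∣ n + b := by
      intro p hp hp2 hp3 hp4
      apply h1
      rw [hB1', mem_biUnion]
      exact ⟨b, hb, mem_filter.2 ⟨hn, p, ⟨hp, hp2⟩, hp3, hp4⟩⟩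
    have h2' : ∀ p ∈ T, ¬ p ^ R ∣ n + b := by
      intro p hp hp2
      apply h2
      rw [hB2', mem_biUnion]
      exact ⟨p, hp, mem_biUnion.2 ⟨b, hb, mem_filter.2 ⟨hn, hp2⟩⟩⟩
    rw [mem_Icc] at hn
    rw [hts]
    push_cast
    rw [mul_comm]
    congr 1
    have h4 : cm (fun p => s p * t p) (n + b) = cm (fun p => if p ∈ T then -1 else 1) (n + b) := by
      apply Pool.Agent.U26Z.NL.cm_congr
      intro p hp hpn
      have h5 : s p * t p = if s p ≠ t p then -1 else 1 := by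
        rcases hs p with h | h <;> rcases ht p with h' | h' <;> rw [h, h'] <;> norm_num
      rw [h5]
      by_cases h6 : s p ≠ t p
      · rw [if_pos h6]
        have h7 : p ∈ T := by
          by_contra h8
          rw [hT, mem_filter, mem_Icc] at h8
          have h9 : y < p := by
            by_contra h10
            exact h8 ⟨⟨hp.one_lt.le, not_lt.1 h10⟩, hp, h6⟩
          exact h1' p hp h6 h9 hpn
        rw [if_pos h7]
      · rw [if_neg h6, if_neg]
        rw [hT, mem_filter]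
        exact fun h7 => h6 h7.2.2
    rw [h4, Pool.Agent.U26Z.NL.cm_flip]
    push_cast
    refine Finset.prod_congr rfl fun p hp => ?_
    congr 1
    apply fac_eq (R := R) (hTp p hp) (by omega) (by omega) _ (h2' p hp)
    have h5 : p ^ R ∣ Q := by
      rw [hQ]
      exact (Finset.dvd_prod_of_mem (fun p => p ^ R) hp).mul_left _
    have h6 : n ≡ n % Q + Q [MOD Q] := by
      unfold Nat.ModEq
      rw [Nat.add_mod_right, Nat.mod_mod]
    exact (h6.of_dvd h5).add_right b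
  -- the weight of the bad points
  have hW1 : ∀ᶠ x : ℕ in atTop, ∑ n ∈ B1 x, WW H n ≤ G.card * (η * x) := by
    filter_upwards [hB1] with x hx
    rw [hB1']
    have h3 : ∀ S : Finset ℕ, S ⊆ G → ∑ n ∈ S.biUnion (fun b => (Icc 1 x).filter
      (fun n => ∃ p : ℕ, (p.Prime ∧ s p ≠ t p) ∧ y < p ∧ p ∣ n + b)), WW H n ≤ S.card * (η * x) := by
      intro S
      induction S using Finset.induction_on with
      | empty => simp
      | insert b S hb ih =>
        intro hS
        rw [Finset.biUnion_insert, Finset.card_insert_of_notMem hb]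
        refine (sum_union_le _ _ _ (WW_nonneg H)).trans ?_
        have h4 := hx b (hS (Finset.mem_insert_self b S))
        have h5 := ih ((Finset.subset_insert b S).trans hS)
        push_cast
        linarith
    exact h3 G (Finset.Subset.refl _)
  have hW2 : ∀ᶠ x : ℕ in atTop, ∑ n ∈ B2 x, WW H n ≤ η * x := by
    filter_upwards [hmult, eventually_ge_atTop (∑ p ∈ T, (p ^ R) ^ 3)] with x hx hx2
    rw [hB2']
    have h3 : ∀ p ∈ T, ∀ S : Finset ℕ, S ⊆ G → ∑ n ∈ S.biUnion (fun b => (Icc 1 x).filter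
      (fun n => p ^ R ∣ n + b)), WW H n ≤ S.card * (C₁ * (x / 2 ^ R)) := by
      intro p hp S
      induction S using Finset.induction_on with
      | empty => simp
      | insert b S hb ih =>
        intro hS
        rw [Finset.biUnion_insert, Finset.card_insert_of_notMem hb]
        refine (sum_union_le _ _ _ (WW_nonneg H)).trans ?_
        have h5 := ih ((Finset.subset_insert b S).trans hS)
        have hpp := hTp p hp
        have h6 : p ≤ p ^ R := Nat.le_self_pow (by omega) p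
        have h4 := hx b (hS (Finset.mem_insert_self b S)) (p ^ R) (hpp.two_le.trans h6)
          (le_trans (Finset.single_le_sum (f := fun p => (p ^ R) ^ 3) (fun _ _ => Nat.zero_le _) hp) hx2)
          (by
            rw [Nat.primeFactors_prime_pow (by omega) hpp, Finset.sum_singleton,
              div_le_one (by exact_mod_cast hpp.pos)]
            exact_mod_cast hpp.one_lt.le)
        have h7 : C₁ * ((x : ℝ) / ((p ^ R : ℕ) : ℝ)) ≤ C₁ * (x / 2 ^ R) := by
          apply mul_le_mul_of_nonneg_left _ hC₁.le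
          apply div_le_div_of_nonneg_left (Nat.cast_nonneg x) (by positivity)
          push_cast
          exact pow_le_pow_left₀ (by norm_num) (by exact_mod_cast hpp.two_le) R
        push_cast at h7 h4 h5 ⊢
        linarith
    have h4 : ∀ S : Finset ℕ, S ⊆ T → ∑ n ∈ S.biUnion (fun p => G.biUnion (fun b =>
      (Icc 1 x).filter (fun n => p ^ R ∣ n + b))), WW H n ≤ S.card * (G.card * (C₁ * (x / 2 ^ R))) := by
      intro S
      induction S using Finset.induction_on with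
      | empty => simp
      | insert p S hp ih =>
        intro hS
        rw [Finset.biUnion_insert, Finset.card_insert_of_notMem hp]
        refine (sum_union_le _ _ _ (WW_nonneg H)).trans ?_
        have h5 := ih ((Finset.subset_insert p S).trans hS)
        have h6 := h3 p (hS (Finset.mem_insert_self p S)) G (Finset.Subset.refl _)
        push_cast
        linarith
    refine (h4 T (Finset.Subset.refl _)).trans ?_
    calc (T.card : ℝ) * (G.card * (C₁ * (x / 2 ^ R))) = (T.card : ℝ) * G.card * C₁ / 2 ^ R * x := by ring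
      _ ≤ η * x := mul_le_mul_of_nonneg_right hR (Nat.cast_nonneg x)
  -- the sums over the progressions
  have hprog : ∀ᶠ x : ℕ in atTop, ∀ c ∈ range Q, |cs (ind Q c) H G (cm s) x| ≤ η / Q * x := by
    rw [Finset.eventually_all]
    intro c _
    have hQ0' : (0 : ℝ) < Q := by exact_mod_cast hQ0
    have h2 := hC Q c hQ0
    rw [Metric.tendsto_atTop] at h2
    obtain ⟨N, hN⟩ := h2 (η / Q) (by positivity)
    filter_upwards [eventually_ge_atTop (N + 1)] with x hx
    have hx0 : (0 : ℝ) < x := by exact_mod_cast (by omega : 0 < x)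
    have h4 := hN x (by omega)
    rw [Real.dist_eq, sub_zero, abs_div, abs_of_pos hx0, div_lt_iff₀ hx0] at h4
    exact h4.le
  -- the end of the proof
  filter_upwards [hW1, hW2, hprog] with x hx1 hx2 hx3
  have hpt : ∀ n ∈ Icc 1 x, |ind q₀ c₀ n * WW H n * ∏ b ∈ G, (cm t (n + b) : ℝ) -
      ∑ c ∈ (range Q).filter (fun c => c % q₀ = c₀ % q₀), κ c * (ind Q c n * WW H n *
        ∏ b ∈ G, (cm s (n + b) : ℝ))| ≤ 2 * (if n ∈ B1 x ∪ B2 x then WW H n else 0) := by
    intro n hn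
    have h2 : ∑ c ∈ (range Q).filter (fun c => c % q₀ = c₀ % q₀), κ c * (ind Q c n * WW H n *
        ∏ b ∈ G, (cm s (n + b) : ℝ)) = ind q₀ c₀ n * (κ (n % Q) * (WW H n * ∏ b ∈ G, (cm s (n + b) : ℝ))) := by
      rw [Finset.sum_filter, Finset.sum_eq_single (n % Q)]
      · unfold ind
        rw [Nat.mod_mod, if_pos rfl, Nat.mod_mod_of_dvd n hqQ]
        split_ifs <;> ring
      · intro c hc hcn
        have hc' : c < Q := mem_range.1 hc
        have h3 : ind Q c n = 0 := by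
          unfold ind
          rw [if_neg]
          rw [Nat.mod_eq_of_lt hc']
          exact fun h => hcn h.symm
        rw [h3]
        split_ifs <;> ring
      · intro h
        exact absurd (mem_range.2 (Nat.mod_lt n hQ0)) h
    rw [h2]
    have hW := WW_nonneg H n
    by_cases hbad : n ∈ B1 x ∪ B2 x
    · rw [if_pos hbad]
      have hprod : ∀ f : ℕ → ℤ, (∀ p, |f p| = 1) → |∏ b ∈ G, (cm f (n + b) : ℝ)| ≤ 1 := by
        intro f hf
        rw [Finset.abs_prod]
        refine Finset.prod_le_one (fun b _ => abs_nonneg _) fun b _ => ?_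
        have := (Pool.Agent.U26Z.NL.cm_abs hf (n + b)).le
        exact_mod_cast this
      have h3 : |ind q₀ c₀ n * WW H n * ∏ b ∈ G, (cm t (n + b) : ℝ)| ≤ WW H n := by
        rw [abs_mul, abs_mul, abs_of_nonneg hW]
        calc |ind q₀ c₀ n| * WW H n * |∏ b ∈ G, (cm t (n + b) : ℝ)| ≤ 1 * WW H n * 1 :=
              mul_le_mul (mul_le_mul_of_nonneg_right (ind_abs _ _ _) hW) (hprod t ht1) (abs_nonneg _)
                (by linarith)
          _ = _ := by ring
      have h4 : |ind q₀ c₀ n * (κ (n % Q) * (WW H n * ∏ b ∈ G, (cm s (n + b) : ℝ)))| ≤ WW H n := by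
        rw [abs_mul, abs_mul, abs_mul, abs_of_nonneg hW, hκ1, one_mul]
        calc |ind q₀ c₀ n| * (WW H n * |∏ b ∈ G, (cm s (n + b) : ℝ)|) ≤ 1 * (WW H n * 1) :=
              mul_le_mul (ind_abs _ _ _) (mul_le_mul_of_nonneg_left (hprod s hs1) hW)
                (mul_nonneg hW (abs_nonneg _)) (by norm_num)
          _ = _ := by ring
      have h5 := abs_sub (ind q₀ c₀ n * WW H n * ∏ b ∈ G, (cm t (n + b) : ℝ))
        (ind q₀ c₀ n * (κ (n % Q) * (WW H n * ∏ b ∈ G, (cm s (n + b) : ℝ))))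
      linarith
    · rw [if_neg hbad, mul_zero]
      rw [mem_union, not_or] at hbad
      rw [hgood x n hn hbad.1 hbad.2]
      have h3 : ind q₀ c₀ n * WW H n * (κ (n % Q) * ∏ b ∈ G, (cm s (n + b) : ℝ)) -
          ind q₀ c₀ n * (κ (n % Q) * (WW H n * ∏ b ∈ G, (cm s (n + b) : ℝ))) = 0 := by ring
      rw [h3, abs_zero]
  have h2 : |cs (ind q₀ c₀) H G (cm t) x - ∑ c ∈ (range Q).filter (fun c => c % q₀ = c₀ % q₀),
      κ c * cs (ind Q c) H G (cm s) x| ≤ 2 * (∑ n ∈ B1 x, WW H n + ∑ n ∈ B2 x, WW H n) := by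
    have h3 : cs (ind q₀ c₀) H G (cm t) x - ∑ c ∈ (range Q).filter (fun c => c % q₀ = c₀ % q₀),
      κ c * cs (ind Q c) H G (cm s) x = ∑ n ∈ Icc 1 x, (ind q₀ c₀ n * WW H n *
        ∏ b ∈ G, (cm t (n + b) : ℝ) - ∑ c ∈ (range Q).filter (fun c => c % q₀ = c₀ % q₀),
        κ c * (ind Q c n * WW H n * ∏ b ∈ G, (cm s (n + b) : ℝ))) := by
      rw [Finset.sum_sub_distrib]
      congr 1
      rw [Finset.sum_comm]
      refine Finset.sum_congr rfl fun c _ => ?_
      unfold cs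
      rw [Finset.mul_sum]
    rw [h3]
    refine (Finset.abs_sum_le_sum_abs _ _).trans ((Finset.sum_le_sum hpt).trans ?_)
    rw [← Finset.mul_sum]
    apply mul_le_mul_of_nonneg_left _ (by norm_num)
    rw [← Finset.sum_filter]
    have h4 : (Icc 1 x).filter (fun n => n ∈ B1 x ∪ B2 x) ⊆ B1 x ∪ B2 x := by
      intro n hn
      exact (mem_filter.1 hn).2
    exact (Finset.sum_le_sum_of_subset_of_nonneg h4 (fun _ _ _ => WW_nonneg _ _)).trans
      (sum_union_le _ _ _ (WW_nonneg H))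
  have h3 : |∑ c ∈ (range Q).filter (fun c => c % q₀ = c₀ % q₀), κ c * cs (ind Q c) H G (cm s) x| ≤
      η * x := by
    have hQ0' : (0 : ℝ) < Q := by exact_mod_cast hQ0
    refine (Finset.abs_sum_le_sum_abs _ _).trans ?_
    have h4 : ∑ c ∈ (range Q).filter (fun c => c % q₀ = c₀ % q₀), |κ c * cs (ind Q c) H G (cm s) x| ≤
        ∑ c ∈ range Q, η / Q * x := by
      refine (Finset.sum_le_sum_of_subset_of_nonneg (Finset.filter_subset _ _)
        (fun _ _ _ => abs_nonneg _)).trans (Finset.sum_le_sum fun c hc => ?_)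
      rw [abs_mul, hκ1, one_mul]
      exact hx3 c hc
    refine h4.trans (le_of_eq ?_)
    rw [Finset.sum_const, card_range, nsmul_eq_mul]
    field_simp
  have h4 := abs_add_le (cs (ind q₀ c₀) H G (cm t) x - ∑ c ∈ (range Q).filter
    (fun c => c % q₀ = c₀ % q₀), κ c * cs (ind Q c) H G (cm s) x)
    (∑ c ∈ (range Q).filter (fun c => c % q₀ = c₀ % q₀), κ c * cs (ind Q c) H G (cm s) x)
  rw [sub_add_cancel] at h4
  have h5 : η * (2 * (G.card + 1)) = ε := by
    rw [hη]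
    field_simp
  have hx0 : (0 : ℝ) ≤ x := Nat.cast_nonneg x
  have h6 : 0 ≤ η * (x : ℝ) := by positivity
  have h7 : 0 ≤ (G.card : ℝ) * (η * (x : ℝ)) := by positivity
  have h8 : 3 * ε * (x : ℝ) = 6 * (G.card * (η * x)) + 6 * (η * x) := by
    rw [← h5]; ring
  rw [h8]
  linarith

section
variable {Ω : Type*} [MeasurableSpace Ω] {μ : Measure Ω} {ξ : ℕ → Ω → ℤ} {δ : ℕ → ℝ}

theorem sm_main (hm : ∀ p, Measurable (ξ p)) (hξ : ∀ p ω, ξ p ω = 1 ∨ ξ p ω = -1)
    (h0 : ∀ p, 0 ≤ δ p) (hμ : ∀ p, μ {ω | ξ p ω = -1} = ENNReal.ofReal (δ p))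
    (hs : Summable (fun p : ℕ => if p.Prime then δ p / p else 0)) :
    ∀ᵐ ω ∂μ, ∀ H G : Finset ℕ, Disjoint H G →
      ((∀ q c : ℕ, 1 ≤ q → Tendsto (fun x : ℕ => cs (ind q c) H G (noisy ξ ω) x / x) atTop (𝓝 0)) ↔
      (∀ q c : ℕ, 1 ≤ q → Tendsto (fun x : ℕ => cs (ind q c) H G (cm (fun _ => -1)) x / x) atTop (𝓝 0))) := by
  classical
  filter_upwards [Pool.Agent.U26Z.NL.as_summable hm h0 hμ hs] with ω hω H G hHG
  have h1 : noisy ξ ω = cm (fun p => -ξ p ω) := rfl
  have ht : ∀ p, (fun p => -ξ p ω) p = 1 ∨ (fun p => -ξ p ω) p = -1 := by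
    intro p
    rcases hξ p ω with h | h
    · exact Or.inr (by simp [h])
    · exact Or.inl (by simp [h])
  have hne : ∀ p, (-1 ≠ -ξ p ω ↔ ξ p ω = -1) := by
    intro p
    rcases hξ p ω with h | h <;> rw [h] <;> norm_num
  rw [h1]
  constructor
  · intro h
    refine transfer ht (fun _ => Or.inr rfl) ?_ hHG h
    refine hω.congr fun p => ?_
    simp only [ne_comm (a := -ξ p ω) (b := (-1 : ℤ)), hne]
  · intro h
    refine transfer (fun _ => Or.inr rfl) ht ?_ hHG h
    refine hω.congr fun p => ?_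
    simp only [hne]

end

end Pool.Agent.U26Z.NP
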