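import Pool.Agent.U26Z.NP.Sv

set_option autoImplicit false

/-!
# The weights: products of shifts of the von Mangoldt function
-/

namespace Pool.Agent.U26Z.NP

open Finset Filter Topology

/-- the weight -/
noncomputable def WW (H : Finset ℕ) (n : ℕ) : ℝ := ∏ b ∈ H, ArithmeticFunction.vonMangoldt (n + b)

theorem WW_nonneg (H : Finset ℕ) (n : ℕ) : 0 ≤ WW H n :=
  Finset.prod_nonneg fun _ _ => ArithmeticFunction.vonMangoldt_nonneg

theorem WW_le {H : Finset ℕ} {B x n : ℕ} (hB : ∀ b ∈ H, b ≤ B) (hn : n ≤ x) (hn1 : 1 ≤ n) :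
    WW H n ≤ Real.log ((x + B : ℕ) : ℝ) ^ H.card := by
  unfold WW
  rw [← Finset.prod_const]
  refine Finset.prod_le_prod (fun _ _ => ArithmeticFunction.vonMangoldt_nonneg) fun b hb => ?_
  refine ArithmeticFunction.vonMangoldt_le_log.trans (Real.log_le_log ?_ ?_)
  · exact_mod_cast (by omega : 0 < n + b)
  · exact_mod_cast (by have := hB b hb; omega : n + b ≤ x + B)

/-- no prime in `(z₁, y]` divides the shifts of `n` -/
def good (z₁ y : ℕ) (H : Finset ℕ) (n : ℕ) : Prop :=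
  ∀ b ∈ H, ∀ q : ℕ, q.Prime → z₁ < q → q ≤ y → ¬ (q : ℤ) ∣ (n : ℤ) + b

open Classical in
theorem W_sum_le {H : Finset ℕ} {B x : ℕ} (z₁ y : ℕ) (hB : ∀ b ∈ H, b ≤ B) {A : Finset ℕ}
    (hA : A ⊆ Icc 1 x) : ∑ n ∈ A, WW H n ≤ Real.log ((x + B : ℕ) : ℝ) ^ H.card *
      ((A.filter (good z₁ y H)).card + H.card * (y * (Nat.log 2 (x + B) + 1 : ℕ))) := by
  have hL : (0 : ℝ) ≤ Real.log ((x + B : ℕ) : ℝ) := Real.log_natCast_nonneg _
  have h1 : ∑ n ∈ A, WW H n ≤ ∑ n ∈ A.filter (fun n => WW H n ≠ 0), Real.log ((x + B : ℕ) : ℝ) ^ H.card := by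
    rw [← Finset.sum_filter_ne_zero]
    refine Finset.sum_le_sum fun n hn => ?_
    rw [mem_filter] at hn
    have h2 := mem_Icc.1 (hA hn.1)
    exact WW_le hB h2.2 h2.1
  refine h1.trans ?_
  rw [Finset.sum_const, nsmul_eq_mul, mul_comm]
  apply mul_le_mul_of_nonneg_left _ (pow_nonneg hL _)
  have h2 : A.filter (fun n => WW H n ≠ 0) ⊆ A.filter (good z₁ y H) ∪
      H.biUnion (fun b => ((Icc 1 y) ×ˢ (range (Nat.log 2 (x + B) + 1))).image
        (fun v => v.1 ^ v.2 - b)) := by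
    intro n hn
    rw [mem_filter] at hn
    have hn1 := mem_Icc.1 (hA hn.1)
    rw [mem_union]
    by_cases hg : good z₁ y H n
    · exact Or.inl (mem_filter.2 ⟨hn.1, hg⟩)
    · right
      unfold good at hg
      push Not at hg
      obtain ⟨b, hb, q, hq, hq1, hq2, hq3⟩ := hg
      have h3 : ArithmeticFunction.vonMangoldt (n + b) ≠ 0 := fun h => hn.2 (Finset.prod_eq_zero hb h)
      rw [ArithmeticFunction.vonMangoldt_ne_zero_iff] at h3
      obtain ⟨p, j, hp, hj, hpj⟩ := h3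
      have hp' := hp.nat_prime
      have h4 : q ∣ n + b := by exact_mod_cast hq3
      rw [← hpj] at h4
      have h5 : q = p := (Nat.prime_dvd_prime_iff_eq hq hp').1 (hq.dvd_of_dvd_pow h4)
      subst h5
      rw [mem_biUnion]
      refine ⟨b, hb, mem_image.2 ⟨(q, j), ?_, ?_⟩⟩
      · rw [mem_product, mem_Icc, mem_range]
        refine ⟨⟨hq.one_lt.le, hq2⟩, ?_⟩
        show j < _
        rw [Nat.lt_succ_iff]
        apply Nat.le_log_of_pow_le (by norm_num)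
        have h6 : 2 ^ j ≤ q ^ j := Nat.pow_le_pow_left hq.two_le j
        have h7 := hB b hb
        omega
      · show q ^ j - b = n
        omega
  have h3 := (Finset.card_le_card h2).trans (Finset.card_union_le _ _)
  have h4 : (H.biUnion (fun b => ((Icc 1 y) ×ˢ (range (Nat.log 2 (x + B) + 1))).image
        (fun v => v.1 ^ v.2 - b))).card ≤ H.card * (y * (Nat.log 2 (x + B) + 1)) := by
    refine Finset.card_biUnion_le.trans ?_
    rw [← smul_eq_mul, ← Finset.sum_const]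
    refine Finset.sum_le_sum fun b _ => Finset.card_image_le.trans ?_
    rw [Finset.card_product, Nat.card_Icc, card_range, Nat.add_sub_cancel]
  exact_mod_cast h3.trans (Nat.add_le_add_left h4 _)

/-! ### Roots -/

/-- the integer part of the `m`-th root -/
noncomputable def rt (m x : ℕ) : ℕ := ⌊(x : ℝ) ^ ((1 : ℝ) / m)⌋₊

theorem rt_pow {m : ℕ} (hm : 1 ≤ m) (x : ℕ) : rt m x ^ m ≤ x := by
  have h1 : (rt m x : ℝ) ≤ (x : ℝ) ^ ((1 : ℝ) / m) := Nat.floor_le (Real.rpow_nonneg (Nat.cast_nonneg x) _)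
  have h2 : ((rt m x : ℝ)) ^ m ≤ ((x : ℝ) ^ ((1 : ℝ) / m)) ^ m :=
    pow_le_pow_left₀ (Nat.cast_nonneg _) h1 m
  have hm0 : (m : ℝ) ≠ 0 := by exact_mod_cast (by omega : m ≠ 0)
  rw [← Real.rpow_natCast ((x : ℝ) ^ ((1 : ℝ) / m)), ← Real.rpow_mul (Nat.cast_nonneg x),
    one_div_mul_cancel hm0, Real.rpow_one] at h2
  exact_mod_cast h2

theorem cast_tend : Tendsto (fun x : ℕ => (x : ℝ)) atTop atTop := tendsto_natCast_atTop_atTop

theorem rt_tend {m : ℕ} (hm : 1 ≤ m) : Tendsto (rt m) atTop atTop := by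
  have hm0 : (0 : ℝ) < 1 / m := by
    have : (0 : ℝ) < m := by exact_mod_cast hm
    positivity
  exact tendsto_nat_floor_atTop.comp ((tendsto_rpow_atTop hm0).comp cast_tend)

theorem rt_log {m : ℕ} (hm : 1 ≤ m) : ∀ᶠ x : ℕ in atTop,
    Real.log x ≤ 2 * m * Real.log (rt m x) := by
  have hm1 : (0 : ℝ) < m := by exact_mod_cast hm
  have hm0 : (0 : ℝ) < 1 / (2 * m) := by positivity
  have e1 : ∀ᶠ x : ℕ in atTop, (2 : ℝ) ≤ (x : ℝ) ^ (1 / (2 * m : ℝ)) :=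
    ((tendsto_rpow_atTop hm0).comp cast_tend).eventually_ge_atTop 2
  filter_upwards [e1, eventually_ge_atTop 1] with x hx hx1
  have hx0 : (0 : ℝ) < x := by exact_mod_cast hx1
  have h1 : (x : ℝ) ^ ((1 : ℝ) / m) < rt m x + 1 := Nat.lt_floor_add_one _
  have h2 : (x : ℝ) ^ ((1 : ℝ) / m) = (x : ℝ) ^ (1 / (2 * m : ℝ)) * (x : ℝ) ^ (1 / (2 * m : ℝ)) := by
    rw [← Real.rpow_add hx0]
    congr 1
    field_simp
    norm_num
  have h3 : (x : ℝ) ^ (1 / (2 * m : ℝ)) ≤ rt m x := by nlinarith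
  have h4 := Real.log_le_log (Real.rpow_pos_of_pos hx0 _) h3
  rw [Real.log_rpow hx0] at h4
  have h5 := mul_le_mul_of_nonneg_left h4 (show (0 : ℝ) ≤ 2 * m by positivity)
  have h6 : 2 * (m : ℝ) * (1 / (2 * m) * Real.log x) = Real.log x := by field_simp
  linarith

theorem log_pow_small (C : ℝ) (m : ℕ) {r : ℝ} (hr : 0 < r) : ∀ᶠ x : ℕ in atTop,
    C * Real.log x ^ m ≤ (x : ℝ) ^ r := by
  have h1 := (isLittleO_log_rpow_rpow_atTop (m : ℝ) hr).bound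
    (show (0 : ℝ) < 1 / (|C| + 1) by positivity)
  have h2 := cast_tend.eventually h1
  filter_upwards [h2, eventually_ge_atTop 1] with x hx hx1
  have hx0 : (0 : ℝ) ≤ x := Nat.cast_nonneg x
  have hl : 0 ≤ Real.log (x : ℝ) := Real.log_natCast_nonneg x
  rw [Real.rpow_natCast, Real.norm_of_nonneg (pow_nonneg hl m),
    Real.norm_of_nonneg (Real.rpow_nonneg hx0 r), one_div, inv_mul_eq_div,
    le_div_iff₀ (by positivity)] at hx
  have h3 : C ≤ |C| + 1 := by linarith [le_abs_self C]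
  have h4 := mul_le_mul_of_nonneg_right h3 (pow_nonneg hl m)
  linarith

open Classical in
/-- **the weighted sieve** -/
theorem wsieve (H : Finset ℕ) (h' : ℕ) (hh : h' ∉ H) : ∃ (K : ℕ) (C : ℝ) (z₁ : ℕ), 3 ≤ K ∧ 0 < C ∧
    3 ≤ z₁ ∧ (∀ b ∈ insert h' H, b < z₁) ∧ ∀ᶠ x : ℕ in atTop, z₁ ≤ rt K x ∧ ∀ (X a : ℕ) (r : ℤ),
    1 ≤ a → x ≤ X ^ 3 → X ≤ 2 * x → ∀ T : Finset ℕ,
    (∀ q ∈ T, q.Prime ∧ z₁ < q ∧ q ≤ rt K x ∧ ¬ q ∣ a) → ∀ A : Finset ℕ, A ⊆ Icc 1 (2 * x) →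
    (∀ n ∈ A, (∃ m ∈ Icc 1 X, (n : ℤ) = a * (m : ℕ) + r) ∧ ∀ q ∈ T, ¬ q ∣ n + h') →
    ∑ n ∈ A, WW H n ≤ C * (X * Real.exp (H.card * ∑ q ∈ a.primeFactors, 1 / (q : ℝ)) *
      ∏ q ∈ T, (1 - 1 / (q : ℝ))) + (x : ℝ) ^ ((2 : ℝ) / 3) := by
  obtain ⟨K₀, C₀, z₁, hK₀, hC₀, hz₁, hb, hS⟩ := sieve_prog H h' hh
  obtain ⟨k, hk⟩ : ∃ k, k = H.card := ⟨_, rfl⟩
  rw [← hk] at hS
  obtain ⟨B, hB⟩ : ∃ B, B = z₁ := ⟨_, rfl⟩
  have hHB : ∀ b ∈ H, b ≤ B := fun b hb' => by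
    rw [hB]; exact (hb b (Finset.mem_insert_of_mem hb')).le
  refine ⟨3 * K₀, (4 * (3 * K₀ : ℕ)) ^ k * C₀, z₁, by omega, by positivity, hz₁, hb, ?_⟩
  have hKp : 1 ≤ 3 * K₀ := by omega
  have e1 : ∀ᶠ x : ℕ in atTop, z₁ ≤ rt (3 * K₀) x := (rt_tend hKp).eventually_ge_atTop z₁
  have e2 := log_pow_small (2 ^ k * (2 + 5 * k)) (k + 1) (show (0 : ℝ) < 1 / 6 by norm_num)
  have e3 : ∀ᶠ x : ℕ in atTop, (1 : ℝ) ≤ Real.log x :=
    (Real.tendsto_log_atTop.comp cast_tend).eventually_ge_atTop 1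
  filter_upwards [e1, e2, e3, rt_log hKp, eventually_ge_atTop (2 + B)] with x hx1 hx2 hx3 hx4 hx5
  refine ⟨hx1, fun X a r ha hxX hXx T hT A hA hA2 => ?_⟩
  obtain ⟨y, hy⟩ : ∃ y, y = rt (3 * K₀) x := ⟨_, rfl⟩
  rw [← hy] at hx1 hx4 hT
  have hypow : y ^ (3 * K₀) ≤ x := by rw [hy]; exact rt_pow hKp x
  have hyX : y ^ K₀ ≤ X := by
    have h1 : (y ^ K₀) ^ 3 ≤ X ^ 3 := by
      rw [← pow_mul, mul_comm]
      exact hypow.trans hxX
    exact (Nat.pow_le_pow_iff_left (by norm_num)).1 h1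
  have hy3 : 3 ≤ y := by omega
  have hyx : y ^ 2 ≤ x := (Nat.pow_le_pow_right (by omega) (by omega)).trans hypow
  have hx0 : (0 : ℝ) < x := by exact_mod_cast (by omega : 0 < x)
  have hly : 0 < Real.log y := Real.log_pos (by exact_mod_cast (by omega : 1 < y))
  -- the logarithm
  obtain ⟨L, hL⟩ : ∃ L : ℝ, L = Real.log ((2 * x + B : ℕ) : ℝ) := ⟨_, rfl⟩
  have hL0 : 0 ≤ L := by rw [hL]; exact Real.log_natCast_nonneg _
  have hL2 : L ≤ 2 * Real.log x := by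
    rw [hL]
    have h1 : ((2 * x + B : ℕ) : ℝ) ≤ (x : ℝ) ^ 2 := by
      have h2 : 2 * x + B ≤ x ^ 2 := by nlinarith
      exact_mod_cast h2
    have h2 := Real.log_le_log (by exact_mod_cast (by omega : 0 < 2 * x + B)) h1
    rw [Real.log_pow] at h2
    exact_mod_cast h2
  have key := W_sum_le z₁ y hHB hA
  rw [← hL, ← hk] at key
  -- the count
  have hcount : ((A.filter (good z₁ y H)).card : ℝ) ≤
      C₀ * (X / Real.log y ^ k * Real.exp (k * ∑ q ∈ a.primeFactors, 1 / (q : ℝ)) *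
        ∏ q ∈ T, (1 - 1 / (q : ℝ))) + √(X : ℝ) := by
    refine le_trans ?_ (hS y X a r hx1 hyX ha T hT)
    have h1 : A.filter (good z₁ y H) ⊆ ((Icc 1 X).filter (fun n : ℕ =>
      (∀ b ∈ H, ∀ q : ℕ, q.Prime → z₁ < q → q ≤ y → ¬ (q : ℤ) ∣ (a : ℤ) * n + r + b) ∧
      ∀ q ∈ T, ¬ (q : ℤ) ∣ (a : ℤ) * n + r + h')).image (fun m : ℕ => ((a : ℤ) * m + r).toNat) := by
      intro n hn
      rw [mem_filter] at hn
      obtain ⟨⟨m, hm, hmn⟩, h2⟩ := hA2 n hn.1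
      rw [mem_image]
      refine ⟨m, ?_, ?_⟩
      · rw [mem_filter]
        refine ⟨hm, fun b hb' q hq hq1 hq2 => ?_, fun q hq h3 => ?_⟩
        · rw [← hmn]
          exact hn.2 b hb' q hq hq1 hq2
        · rw [← hmn] at h3
          exact h2 q hq (by exact_mod_cast h3)
      · rw [← hmn]
        exact Int.toNat_natCast n
    exact_mod_cast (Finset.card_le_card h1).trans Finset.card_image_le
  have hT0 : 0 ≤ ∏ q ∈ T, (1 - 1 / (q : ℝ)) := by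
    refine Finset.prod_nonneg fun q hq => ?_
    have hq1 : (1 : ℝ) ≤ q := by exact_mod_cast (hT q hq).1.one_lt.le
    rw [sub_nonneg, div_le_one (by linarith)]
    exact hq1
  -- main term
  have hmain : L ^ k * (C₀ * (X / Real.log y ^ k * Real.exp (k * ∑ q ∈ a.primeFactors, 1 / (q : ℝ)) *
        ∏ q ∈ T, (1 - 1 / (q : ℝ)))) ≤ (4 * (3 * K₀ : ℕ)) ^ k * C₀ *
        (X * Real.exp (k * ∑ q ∈ a.primeFactors, 1 / (q : ℝ)) * ∏ q ∈ T, (1 - 1 / (q : ℝ))) := by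
    have h1 : L ≤ 4 * (3 * K₀ : ℕ) * Real.log y := by
      push_cast at hx4 ⊢
      linarith
    have h2 : L ^ k ≤ (4 * (3 * K₀ : ℕ)) ^ k * Real.log y ^ k := by
      rw [← mul_pow]
      exact pow_le_pow_left₀ hL0 h1 k
    have h3 : 0 ≤ C₀ * (X * Real.exp (k * ∑ q ∈ a.primeFactors, 1 / (q : ℝ)) *
        ∏ q ∈ T, (1 - 1 / (q : ℝ))) := by positivity
    have h4 : L ^ k * (C₀ * (X / Real.log y ^ k * Real.exp (k * ∑ q ∈ a.primeFactors, 1 / (q : ℝ)) *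
        ∏ q ∈ T, (1 - 1 / (q : ℝ)))) = (L ^ k / Real.log y ^ k) * (C₀ * (X * Real.exp (k *
        ∑ q ∈ a.primeFactors, 1 / (q : ℝ)) * ∏ q ∈ T, (1 - 1 / (q : ℝ)))) := by
      field_simp
    rw [h4]
    have h5 : L ^ k / Real.log y ^ k ≤ (4 * (3 * K₀ : ℕ)) ^ k := by
      rw [div_le_iff₀ (pow_pos hly k)]
      exact h2
    refine (mul_le_mul_of_nonneg_right h5 h3).trans (le_of_eq ?_)
    ring
  -- error term
  have herr : L ^ k * (√(X : ℝ) + k * (y * (Nat.log 2 (2 * x + B) + 1 : ℕ))) ≤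
      (x : ℝ) ^ ((2 : ℝ) / 3) := by
    have h1 : √(X : ℝ) ≤ 2 * √(x : ℝ) := by
      rw [Real.sqrt_le_iff]
      refine ⟨by positivity, ?_⟩
      rw [mul_pow, Real.sq_sqrt hx0.le]
      have : (X : ℝ) ≤ 2 * x := by exact_mod_cast hXx
      linarith
    have h2 : (y : ℝ) ≤ √(x : ℝ) := by
      apply Real.le_sqrt_of_sq_le
      exact_mod_cast hyx
    have h3 : ((Nat.log 2 (2 * x + B) + 1 : ℕ) : ℝ) ≤ 5 * Real.log x := by
      have h4 := Real.natLog_le_logb (2 * x + B) 2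
      have h5 : Real.logb (2 : ℕ) ((2 * x + B : ℕ) : ℝ) ≤ 4 * Real.log x := by
        rw [Real.logb, ← hL, div_le_iff₀ (by
          have h20 : (0 : ℝ) < Real.log 2 := Real.log_pos (by norm_num)
          push_cast
          exact h20)]
        have h6 := Real.log_two_gt_d9
        push_cast
        nlinarith
      have h6 : (Nat.log 2 (2 * x + B) : ℝ) ≤ 4 * Real.log x := by
        push_cast at h4 h5 ⊢
        exact h4.trans h5
      push_cast at h6 ⊢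
      linarith
    have hs0 : 0 ≤ √(x : ℝ) := Real.sqrt_nonneg _
    have h4 : √(X : ℝ) + k * (y * (Nat.log 2 (2 * x + B) + 1 : ℕ)) ≤
        √(x : ℝ) * ((2 + 5 * k) * Real.log x) := by
      have h5 : (y : ℝ) * (Nat.log 2 (2 * x + B) + 1 : ℕ) ≤ √(x : ℝ) * (5 * Real.log x) :=
        mul_le_mul h2 h3 (Nat.cast_nonneg _) hs0
      have h6 := mul_le_mul_of_nonneg_left h5 (Nat.cast_nonneg (α := ℝ) k)
      have h7 : 2 * √(x : ℝ) ≤ 2 * √(x : ℝ) * Real.log x := by nlinarith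
      calc √(X : ℝ) + k * (y * (Nat.log 2 (2 * x + B) + 1 : ℕ)) ≤
          2 * √(x : ℝ) * Real.log x + k * (√(x : ℝ) * (5 * Real.log x)) := by linarith
        _ = _ := by ring
    have h5 : L ^ k ≤ 2 ^ k * Real.log x ^ k := by
      rw [← mul_pow]
      exact pow_le_pow_left₀ hL0 hL2 k
    have hl0 : 0 ≤ Real.log (x : ℝ) := by linarith
    have h6 : (x : ℝ) ^ ((2 : ℝ) / 3) = √(x : ℝ) * (x : ℝ) ^ ((1 : ℝ) / 6) := by
      rw [Real.sqrt_eq_rpow, ← Real.rpow_add hx0]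
      norm_num
    rw [h6]
    calc L ^ k * (√(X : ℝ) + k * (y * (Nat.log 2 (2 * x + B) + 1 : ℕ))) ≤
        (2 ^ k * Real.log x ^ k) * (√(x : ℝ) * ((2 + 5 * k) * Real.log x)) :=
          mul_le_mul h5 h4 (by positivity) (by positivity)
      _ = √(x : ℝ) * (2 ^ k * (2 + 5 * k) * Real.log x ^ (k + 1)) := by
          rw [pow_succ]; ring
      _ ≤ _ := mul_le_mul_of_nonneg_left hx2 hs0
  have h1 : L ^ k * ((A.filter (good z₁ y H)).card + k * (y * (Nat.log 2 (2 * x + B) + 1 : ℕ))) ≤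
      L ^ k * ((C₀ * (X / Real.log y ^ k * Real.exp (k * ∑ q ∈ a.primeFactors, 1 / (q : ℝ)) *
        ∏ q ∈ T, (1 - 1 / (q : ℝ))) + √(X : ℝ)) + k * (y * (Nat.log 2 (2 * x + B) + 1 : ℕ))) :=
    mul_le_mul_of_nonneg_left (add_le_add hcount le_rfl) (pow_nonneg hL0 k)
  rw [← hk]
  calc _ ≤ _ := key
    _ ≤ _ := h1
    _ = L ^ k * (C₀ * (X / Real.log y ^ k * Real.exp (k * ∑ q ∈ a.primeFactors, 1 / (q : ℝ)) *
        ∏ q ∈ T, (1 - 1 / (q : ℝ)))) + L ^ k * (√(X : ℝ) + k * (y * (Nat.log 2 (2 * x + B) + 1 : ℕ))) := by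
        ring
    _ ≤ _ := add_le_add hmain herr

end Pool.Agent.U26Z.NP
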