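import Pool.Agent.U26Z.NP.Dv

set_option autoImplicit false

/-!
# The sieve for short progressions, and multiples of large numbers
-/

namespace Pool.Agent.U26Z.NP

open Finset Filter Topology

theorem ev_pow {P : ℕ → Prop} (hP : ∀ᶠ X : ℕ in atTop, P X) {s : ℕ} (hs : 1 ≤ s) :
    ∀ᶠ x : ℕ in atTop, ∀ X : ℕ, x ≤ X ^ s → P X := by
  obtain ⟨X₀, hX₀⟩ := eventually_atTop.1 hP
  filter_upwards [eventually_gt_atTop (X₀ ^ s)] with x hx X hX
  apply hX₀
  by_contra hcon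
  have := Nat.pow_le_pow_left (not_le.1 hcon).le s
  omega

open Classical in
/-- **the weighted sieve**, for progressions of length at least a fixed power -/
theorem wsieveS (H : Finset ℕ) (h' : ℕ) (hh : h' ∉ H) (s : ℕ) (hs : 1 ≤ s) :
    ∃ (K : ℕ) (C : ℝ) (z₁ : ℕ), 1 ≤ K ∧ 0 < C ∧
    3 ≤ z₁ ∧ (∀ b ∈ insert h' H, b < z₁) ∧ ∀ᶠ x : ℕ in atTop, z₁ ≤ rt K x ∧ ∀ (X a : ℕ) (r : ℤ),
    1 ≤ a → x ≤ X ^ s → X ≤ 2 * x → ∀ T : Finset ℕ,
    (∀ q ∈ T, q.Prime ∧ z₁ < q ∧ q ≤ rt K x ∧ ¬ q ∣ a) → ∀ A : Finset ℕ, A ⊆ Icc 1 (2 * x) →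
    (∀ n ∈ A, (∃ m ∈ Icc 1 X, (n : ℤ) = a * (m : ℕ) + r) ∧ ∀ q ∈ T, ¬ q ∣ n + h') →
    ∑ n ∈ A, WW H n ≤ C * (X * Real.exp (H.card * ∑ q ∈ a.primeFactors, 1 / (q : ℝ)) *
      ∏ q ∈ T, (1 - 1 / (q : ℝ))) + (X : ℝ) ^ ((2 : ℝ) / 3) := by
  obtain ⟨K₀, C₀, z₁, hK₀, hC₀, hz₁, hb, hS⟩ := sieve_prog H h' hh
  obtain ⟨k, hk⟩ : ∃ k, k = H.card := ⟨_, rfl⟩
  rw [← hk] at hS
  obtain ⟨B, hB⟩ : ∃ B, B = z₁ := ⟨_, rfl⟩
  have hHB : ∀ b ∈ H, b ≤ B := fun b hb' => by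
    rw [hB]; exact (hb b (Finset.mem_insert_of_mem hb')).le
  obtain ⟨K, hK⟩ : ∃ K, K = (2 * K₀) * s := ⟨_, rfl⟩
  have hKp : 1 ≤ K := by rw [hK]; exact Nat.mul_pos (by omega) hs
  have hs0 : (0 : ℝ) < s := by exact_mod_cast hs
  refine ⟨K, (4 * (K : ℕ)) ^ k * C₀, z₁, hKp, by
    have : (0 : ℝ) < K := by exact_mod_cast hKp
    positivity, hz₁, hb, ?_⟩
  have e1 : ∀ᶠ x : ℕ in atTop, z₁ ≤ rt K x := (rt_tend hKp).eventually_ge_atTop z₁
  have e2 := ev_pow (log_pow_small (2 ^ k * (1 + 5 * k) * s ^ (k + 1)) (k + 1)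
    (show (0 : ℝ) < 1 / 6 by norm_num)) hs
  have e3 : ∀ᶠ x : ℕ in atTop, (1 : ℝ) ≤ Real.log x :=
    (Real.tendsto_log_atTop.comp cast_tend).eventually_ge_atTop 1
  filter_upwards [e1, e2, e3, rt_log hKp, eventually_ge_atTop (2 + B)] with x hx1 hx2 hx3 hx4 hx5
  refine ⟨hx1, fun X a r ha hxX hXx T hT A hA hA2 => ?_⟩
  replace hx2 := hx2 X hxX
  obtain ⟨y, hy⟩ : ∃ y, y = rt K x := ⟨_, rfl⟩
  rw [← hy] at hx1 hx4 hT
  have hypow : y ^ K ≤ x := by rw [hy]; exact rt_pow hKp x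
  have hyX2 : y ^ (2 * K₀) ≤ X := by
    have h1 : (y ^ (2 * K₀)) ^ s ≤ X ^ s := by
      rw [← pow_mul, ← hK]
      exact hypow.trans hxX
    exact (Nat.pow_le_pow_iff_left (by omega)).1 h1
  have hy3 : 3 ≤ y := by omega
  have hyX : y ^ K₀ ≤ X := (Nat.pow_le_pow_right (by omega) (by omega)).trans hyX2
  have hyx : y ^ 2 ≤ X := (Nat.pow_le_pow_right (by omega) (by omega)).trans hyX2
  have hx0 : (0 : ℝ) < x := by exact_mod_cast (by omega : 0 < x)
  have hX1 : 1 ≤ X := by nlinarith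
  have hX0 : (0 : ℝ) < X := by exact_mod_cast hX1
  have hly : 0 < Real.log y := Real.log_pos (by exact_mod_cast (by omega : 1 < y))
  -- the logarithm
  obtain ⟨L, hL⟩ : ∃ L : ℝ, L = Real.log ((2 * x + B : ℕ) : ℝ) := ⟨_, rfl⟩
  have hL0 : 0 ≤ L := by rw [hL]; exact Real.log_natCast_nonneg _
  have hL2 : L ≤ 2 * Real.log x := by
    rw [hL]
    have h1 : ((2 * x + B : ℕ) : ℝ) ≤ (x : ℝ) ^ 2 := by
      have h2 : 2 * x + B ≤ x ^ 2 := by nlinarith
      exact_mod_cast h2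
    have h2 := Real.log_le_log (by exact_mod_cast (by omega : 0 < 2 * x + B)) h1
    rw [Real.log_pow] at h2
    exact_mod_cast h2
  have hlX : Real.log x ≤ s * Real.log X := by
    have h1 : (x : ℝ) ≤ (X : ℝ) ^ s := by exact_mod_cast hxX
    have h2 := Real.log_le_log hx0 h1
    rwa [Real.log_pow] at h2
  have key := W_sum_le z₁ y hHB hA
  rw [← hL, ← hk] at key
  -- the count
  have hcount : ((A.filter (good z₁ y H)).card : ℝ) ≤
      C₀ * (X / Real.log y ^ k * Real.exp (k * ∑ q ∈ a.primeFactors, 1 / (q : ℝ)) *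
        ∏ q ∈ T, (1 - 1 / (q : ℝ))) + √(X : ℝ) := by
    refine le_trans ?_ (hS y X a r hx1 hyX ha T hT)
    have h1 : A.filter (good z₁ y H) ⊆ ((Icc 1 X).filter (fun n : ℕ =>
      (∀ b ∈ H, ∀ q : ℕ, q.Prime → z₁ < q → q ≤ y → ¬ (q : ℤ) ∣ (a : ℤ) * n + r + b) ∧
      ∀ q ∈ T, ¬ (q : ℤ) ∣ (a : ℤ) * n + r + h')).image (fun m : ℕ => ((a : ℤ) * m + r).toNat) := by
      intro n hn
      rw [mem_filter] at hn
      obtain ⟨⟨m, hm, hmn⟩, h2⟩ := hA2 n hn.1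
      rw [mem_image]
      refine ⟨m, ?_, ?_⟩
      · rw [mem_filter]
        refine ⟨hm, fun b hb' q hq hq1 hq2 => ?_, fun q hq h3 => ?_⟩
        · rw [← hmn]
          exact hn.2 b hb' q hq hq1 hq2
        · rw [← hmn] at h3
          exact h2 q hq (by exact_mod_cast h3)
      · rw [← hmn]
        exact Int.toNat_natCast n
    exact_mod_cast (Finset.card_le_card h1).trans Finset.card_image_le
  have hT0 : 0 ≤ ∏ q ∈ T, (1 - 1 / (q : ℝ)) := by
    refine Finset.prod_nonneg fun q hq => ?_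
    have hq1 : (1 : ℝ) ≤ q := by exact_mod_cast (hT q hq).1.one_lt.le
    rw [sub_nonneg, div_le_one (by linarith)]
    exact hq1
  -- main term
  have hmain : L ^ k * (C₀ * (X / Real.log y ^ k * Real.exp (k * ∑ q ∈ a.primeFactors, 1 / (q : ℝ)) *
        ∏ q ∈ T, (1 - 1 / (q : ℝ)))) ≤ (4 * (K : ℕ)) ^ k * C₀ *
        (X * Real.exp (k * ∑ q ∈ a.primeFactors, 1 / (q : ℝ)) * ∏ q ∈ T, (1 - 1 / (q : ℝ))) := by
    have h1 : L ≤ 4 * (K : ℕ) * Real.log y := by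
      linarith
    have h2 : L ^ k ≤ (4 * (K : ℕ)) ^ k * Real.log y ^ k := by
      rw [← mul_pow]
      exact pow_le_pow_left₀ hL0 h1 k
    have h3 : 0 ≤ C₀ * (X * Real.exp (k * ∑ q ∈ a.primeFactors, 1 / (q : ℝ)) *
        ∏ q ∈ T, (1 - 1 / (q : ℝ))) := by positivity
    have h4 : L ^ k * (C₀ * (X / Real.log y ^ k * Real.exp (k * ∑ q ∈ a.primeFactors, 1 / (q : ℝ)) *
        ∏ q ∈ T, (1 - 1 / (q : ℝ)))) = (L ^ k / Real.log y ^ k) * (C₀ * (X * Real.exp (k *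
        ∑ q ∈ a.primeFactors, 1 / (q : ℝ)) * ∏ q ∈ T, (1 - 1 / (q : ℝ)))) := by
      field_simp
    rw [h4]
    have h5 : L ^ k / Real.log y ^ k ≤ (4 * (K : ℕ)) ^ k := by
      rw [div_le_iff₀ (pow_pos hly k)]
      exact h2
    refine (mul_le_mul_of_nonneg_right h5 h3).trans (le_of_eq ?_)
    ring
  -- error term
  have herr : L ^ k * (√(X : ℝ) + k * (y * (Nat.log 2 (2 * x + B) + 1 : ℕ))) ≤
      (X : ℝ) ^ ((2 : ℝ) / 3) := by
    have h2 : (y : ℝ) ≤ √(X : ℝ) := by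
      apply Real.le_sqrt_of_sq_le
      exact_mod_cast hyx
    have h3 : ((Nat.log 2 (2 * x + B) + 1 : ℕ) : ℝ) ≤ 5 * Real.log x := by
      have h4 := Real.natLog_le_logb (2 * x + B) 2
      have h5 : Real.logb (2 : ℕ) ((2 * x + B : ℕ) : ℝ) ≤ 4 * Real.log x := by
        rw [Real.logb, ← hL, div_le_iff₀ (by
          have h20 : (0 : ℝ) < Real.log 2 := Real.log_pos (by norm_num)
          push_cast
          exact h20)]
        have h6 := Real.log_two_gt_d9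
        push_cast
        nlinarith
      have h6 : (Nat.log 2 (2 * x + B) : ℝ) ≤ 4 * Real.log x := by
        push_cast at h4 h5 ⊢
        exact h4.trans h5
      push_cast at h6 ⊢
      linarith
    have hs0' : 0 ≤ √(X : ℝ) := Real.sqrt_nonneg _
    have h4 : √(X : ℝ) + k * (y * (Nat.log 2 (2 * x + B) + 1 : ℕ)) ≤
        √(X : ℝ) * ((1 + 5 * k) * Real.log x) := by
      have h5 : (y : ℝ) * (Nat.log 2 (2 * x + B) + 1 : ℕ) ≤ √(X : ℝ) * (5 * Real.log x) :=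
        mul_le_mul h2 h3 (Nat.cast_nonneg _) hs0'
      have h6 := mul_le_mul_of_nonneg_left h5 (Nat.cast_nonneg (α := ℝ) k)
      have h7 : √(X : ℝ) ≤ √(X : ℝ) * Real.log x := by nlinarith
      calc √(X : ℝ) + k * (y * (Nat.log 2 (2 * x + B) + 1 : ℕ)) ≤
          √(X : ℝ) * Real.log x + k * (√(X : ℝ) * (5 * Real.log x)) := by linarith
        _ = _ := by ring
    have h5 : L ^ k ≤ 2 ^ k * Real.log x ^ k := by
      rw [← mul_pow]
      exact pow_le_pow_left₀ hL0 hL2 k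
    have hl0 : 0 ≤ Real.log (x : ℝ) := by linarith
    have h6 : (X : ℝ) ^ ((2 : ℝ) / 3) = √(X : ℝ) * (X : ℝ) ^ ((1 : ℝ) / 6) := by
      rw [Real.sqrt_eq_rpow, ← Real.rpow_add hX0]
      norm_num
    rw [h6]
    have h7 : Real.log (x : ℝ) ^ (k + 1) ≤ (s : ℝ) ^ (k + 1) * Real.log X ^ (k + 1) := by
      rw [← mul_pow]
      exact pow_le_pow_left₀ hl0 hlX _
    calc L ^ k * (√(X : ℝ) + k * (y * (Nat.log 2 (2 * x + B) + 1 : ℕ))) ≤
        (2 ^ k * Real.log x ^ k) * (√(X : ℝ) * ((1 + 5 * k) * Real.log x)) :=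
          mul_le_mul h5 h4 (by positivity) (by positivity)
      _ = √(X : ℝ) * (2 ^ k * (1 + 5 * k) * Real.log x ^ (k + 1)) := by
          rw [pow_succ]; ring
      _ ≤ √(X : ℝ) * (2 ^ k * (1 + 5 * k) * ((s : ℝ) ^ (k + 1) * Real.log X ^ (k + 1))) := by
          apply mul_le_mul_of_nonneg_left _ hs0'
          exact mul_le_mul_of_nonneg_left h7 (by positivity)
      _ = √(X : ℝ) * (2 ^ k * (1 + 5 * k) * (s : ℝ) ^ (k + 1) * Real.log X ^ (k + 1)) := by ring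
      _ ≤ _ := mul_le_mul_of_nonneg_left hx2 hs0'
  have h1 : L ^ k * ((A.filter (good z₁ y H)).card + k * (y * (Nat.log 2 (2 * x + B) + 1 : ℕ))) ≤
      L ^ k * ((C₀ * (X / Real.log y ^ k * Real.exp (k * ∑ q ∈ a.primeFactors, 1 / (q : ℝ)) *
        ∏ q ∈ T, (1 - 1 / (q : ℝ))) + √(X : ℝ)) + k * (y * (Nat.log 2 (2 * x + B) + 1 : ℕ))) :=
    mul_le_mul_of_nonneg_left (add_le_add hcount le_rfl) (pow_nonneg hL0 k)
  rw [← hk]
  calc _ ≤ _ := key
    _ ≤ _ := h1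
    _ = L ^ k * (C₀ * (X / Real.log y ^ k * Real.exp (k * ∑ q ∈ a.primeFactors, 1 / (q : ℝ)) *
        ∏ q ∈ T, (1 - 1 / (q : ℝ)))) + L ^ k * (√(X : ℝ) + k * (y * (Nat.log 2 (2 * x + B) + 1 : ℕ))) := by
        ring
    _ ≤ _ := add_le_add hmain herr

/-- the weight on the multiples of `a`, for `a` up to a power close to `1` -/
theorem mult_s (H : Finset ℕ) (b : ℕ) (hb : b ∉ H) (s : ℕ) (hs : 1 ≤ s) : ∃ C : ℝ, 0 < C ∧
    ∀ᶠ x : ℕ in atTop, ∀ a : ℕ, 1 ≤ a → x ≤ (x / a) ^ s → ∑ q ∈ a.primeFactors, 1 / (q : ℝ) ≤ 1 →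
    ∑ n ∈ (Icc 1 x).filter (fun n => a ∣ n + b), WW H n ≤ C * (x / a) := by
  obtain ⟨K, C, z₁, hK, hC, hz₁, hbz, hS⟩ := wsieveS H b hb s hs
  refine ⟨(C * Real.exp H.card + 1) * 2, by positivity, ?_⟩
  filter_upwards [hS, eventually_ge_atTop b, eventually_ge_atTop 1] with x hx hxb hx1 a ha hax hsum
  have hx0 : (0 : ℝ) < x := by exact_mod_cast hx1
  have ha0 : (0 : ℝ) < a := by exact_mod_cast (by omega : 0 < a)
  obtain ⟨X, hX⟩ : ∃ X, X = (x + b) / a := ⟨_, rfl⟩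
  have hX3 : x ≤ X ^ s := by
    refine hax.trans (Nat.pow_le_pow_left ?_ s)
    rw [hX]
    exact Nat.div_le_div_right (by omega)
  have hX1 : 1 ≤ X := by
    rcases Nat.eq_zero_or_pos X with h | h
    · rw [h, zero_pow (by omega)] at hX3
      omega
    · exact h
  have hX4 : X ≤ 2 * x := by
    rw [hX]
    exact (Nat.div_le_self _ _).trans (by omega)
  have hX5 : (X : ℝ) ≤ 2 * (x / a) := by
    have h1 : ((X : ℕ) : ℝ) ≤ ((x + b : ℕ) : ℝ) / a := by rw [hX]; exact Nat.cast_div_le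
    refine h1.trans ?_
    rw [div_le_iff₀ ha0]
    have h2 : ((x + b : ℕ) : ℝ) ≤ 2 * x := by exact_mod_cast (by omega : x + b ≤ 2 * x)
    have h3 : 2 * ((x : ℝ) / a) * a = 2 * x := by field_simp
    linarith
  have key := hx.2 X a (-(b : ℤ)) ha hX3 hX4 ∅ (fun q hq => absurd hq (Finset.notMem_empty q))
    ((Icc 1 x).filter (fun n => a ∣ n + b)) (by
      intro n hn
      rw [mem_filter, mem_Icc] at hn
      rw [mem_Icc]
      omega) (by
      intro n hn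
      rw [mem_filter, mem_Icc] at hn
      refine ⟨?_, fun q hq => absurd hq (Finset.notMem_empty q)⟩
      obtain ⟨m, hm⟩ := hn.2
      refine ⟨m, ?_, ?_⟩
      · rw [mem_Icc]
        constructor
        · rcases Nat.eq_zero_or_pos m with h | h
          · rw [h, mul_zero] at hm
            omega
          · exact h
        · rw [hX, Nat.le_div_iff_mul_le (by omega), mul_comm, ← hm]
          omega
      · have : ((n + b : ℕ) : ℤ) = ((a * m : ℕ) : ℤ) := by rw [hm]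
        push_cast at this
        linarith)
  rw [Finset.prod_empty, mul_one] at key
  refine key.trans ?_
  have h1 : Real.exp (H.card * ∑ q ∈ a.primeFactors, 1 / (q : ℝ)) ≤ Real.exp H.card := by
    apply Real.exp_le_exp.2
    have := mul_le_mul_of_nonneg_left hsum (Nat.cast_nonneg (α := ℝ) H.card)
    linarith
  have h2 : (X : ℝ) ^ ((2 : ℝ) / 3) ≤ X := by
    calc (X : ℝ) ^ ((2 : ℝ) / 3) ≤ (X : ℝ) ^ (1 : ℝ) :=
          Real.rpow_le_rpow_of_exponent_le (by exact_mod_cast hX1) (by norm_num)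
      _ = X := Real.rpow_one _
  have hX0 : (0 : ℝ) ≤ X := Nat.cast_nonneg X
  have h3 : C * (X * Real.exp (H.card * ∑ q ∈ a.primeFactors, 1 / (q : ℝ))) ≤
      C * (X * Real.exp H.card) :=
    mul_le_mul_of_nonneg_left (mul_le_mul_of_nonneg_left h1 hX0) hC.le
  calc _ ≤ C * (X * Real.exp H.card) + X := add_le_add h3 h2
    _ = (C * Real.exp H.card + 1) * X := by ring
    _ ≤ (C * Real.exp H.card + 1) * (2 * (x / a)) := mul_le_mul_of_nonneg_left hX5 (by positivity)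
    _ = _ := by ring

/-! ### A sum over the integers weighted by their prime factors -/

theorem R_step (A : ℝ) (hA : 0 ≤ A) (P : Finset ℕ) (hP : ∀ q ∈ P, q.Prime) : ∀ M : ℕ,
    ∑ m ∈ Icc 1 M, 1 / (m : ℝ) * ∏ q ∈ P, (if q ∣ m then 1 + A / q else 1) ≤
      Real.exp (A * ∑ q ∈ P, 1 / (q : ℝ) ^ 2) * ∑ m ∈ Icc 1 M, 1 / (m : ℝ) := by
  classical
  induction P using Finset.induction_on with
  | empty => intro M; simp
  | insert r P hr ih =>
    intro M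
    have hP' : ∀ q ∈ P, q.Prime := fun q hq => hP q (Finset.mem_insert_of_mem hq)
    have hrp : r.Prime := hP r (Finset.mem_insert_self r P)
    have hr0 : (0 : ℝ) < r := by exact_mod_cast hrp.pos
    obtain ⟨g, hg⟩ : ∃ g : ℕ → ℝ, g = fun m => ∏ q ∈ P, (if q ∣ m then 1 + A / q else (1 : ℝ)) := ⟨_, rfl⟩
    have hg0 : ∀ m, 0 ≤ g m := by
      intro m
      rw [hg]
      exact Finset.prod_nonneg fun q _ => by split_ifs <;> positivity
    have hgr : ∀ e, g (r * e) = g e := by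
      intro e
      rw [hg]
      refine Finset.prod_congr rfl fun q hq => ?_
      have h1 : q ∣ r * e ↔ q ∣ e := by
        constructor
        · intro h
          rcases (hP' q hq).dvd_mul.1 h with h2 | h2
          · have h3 := (Nat.prime_dvd_prime_iff_eq (hP' q hq) hrp).1 h2
            exact absurd (h3 ▸ hq) hr
          · exact h2
        · exact fun h => h.mul_left r
      simp only [h1]
    have ih' : ∀ M : ℕ, ∑ m ∈ Icc 1 M, 1 / (m : ℝ) * g m ≤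
        Real.exp (A * ∑ q ∈ P, 1 / (q : ℝ) ^ 2) * ∑ m ∈ Icc 1 M, 1 / (m : ℝ) := by
      intro M
      rw [hg]
      exact ih hP' M
    have h1 : ∑ m ∈ Icc 1 M, 1 / (m : ℝ) * ∏ q ∈ insert r P, (if q ∣ m then 1 + A / q else (1 : ℝ)) =
        ∑ m ∈ Icc 1 M, 1 / (m : ℝ) * g m + A / r * ∑ m ∈ (Icc 1 M).filter (fun m => r ∣ m), 1 / (m : ℝ) * g m := by
      rw [Finset.sum_filter, Finset.mul_sum, ← Finset.sum_add_distrib]
      refine Finset.sum_congr rfl fun m _ => ?_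
      rw [Finset.prod_insert hr, hg]
      simp only
      split_ifs <;> ring
    have h2 : ∑ m ∈ (Icc 1 M).filter (fun m => r ∣ m), 1 / (m : ℝ) * g m ≤
        1 / r * ∑ e ∈ Icc 1 M, 1 / (e : ℝ) * g e := by
      have h3 : (Icc 1 M).filter (fun m => r ∣ m) ⊆ (Icc 1 M).image (fun e => r * e) := by
        intro m hm
        rw [mem_filter, mem_Icc] at hm
        obtain ⟨e, rfl⟩ := hm.2
        rw [mem_image]
        refine ⟨e, ?_, rfl⟩
        rw [mem_Icc]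
        constructor
        · rcases Nat.eq_zero_or_pos e with h | h
          · rw [h, mul_zero] at hm
            omega
          · exact h
        · have : e ≤ r * e := Nat.le_mul_of_pos_left e hrp.pos
          omega
      refine (Finset.sum_le_sum_of_subset_of_nonneg h3 (fun m _ _ => mul_nonneg (by positivity) (hg0 m))).trans ?_
      rw [Finset.sum_image (fun x _ y _ h => Nat.eq_of_mul_eq_mul_left hrp.pos h), Finset.mul_sum]
      refine Finset.sum_le_sum fun e _ => le_of_eq ?_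
      rw [hgr]
      push_cast
      rw [one_div_mul_eq_div, one_div_mul_eq_div, one_div_mul_eq_div, div_div, mul_comm (e : ℝ)]
    rw [h1]
    have h3 : A / r * ∑ m ∈ (Icc 1 M).filter (fun m => r ∣ m), 1 / (m : ℝ) * g m ≤
        A / r * (1 / r * ∑ e ∈ Icc 1 M, 1 / (e : ℝ) * g e) :=
      mul_le_mul_of_nonneg_left h2 (by positivity)
    have h4 : 0 ≤ ∑ m ∈ Icc 1 M, 1 / (m : ℝ) * g m :=
      Finset.sum_nonneg fun m _ => mul_nonneg (by positivity) (hg0 m)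
    have h5 : 1 + A * (1 / (r : ℝ) ^ 2) ≤ Real.exp (A * (1 / (r : ℝ) ^ 2)) := by
      have := Real.add_one_le_exp (A * (1 / (r : ℝ) ^ 2))
      linarith
    have h6 : ∑ m ∈ Icc 1 M, 1 / (m : ℝ) * g m +
        A / r * ∑ m ∈ (Icc 1 M).filter (fun m => r ∣ m), 1 / (m : ℝ) * g m ≤
        (1 + A * (1 / (r : ℝ) ^ 2)) * ∑ m ∈ Icc 1 M, 1 / (m : ℝ) * g m := by
      have h7 : A / r * (1 / r * ∑ e ∈ Icc 1 M, 1 / (e : ℝ) * g e) =
          A * (1 / (r : ℝ) ^ 2) * ∑ e ∈ Icc 1 M, 1 / (e : ℝ) * g e := by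
        field_simp
      linarith
    have h7 : 0 ≤ ∑ m ∈ Icc 1 M, 1 / (m : ℝ) := Finset.sum_nonneg fun m _ => by positivity
    calc _ ≤ _ := h6
      _ ≤ Real.exp (A * (1 / (r : ℝ) ^ 2)) * (Real.exp (A * ∑ q ∈ P, 1 / (q : ℝ) ^ 2) *
          ∑ m ∈ Icc 1 M, 1 / (m : ℝ)) := mul_le_mul h5 (ih' M) h4 (Real.exp_pos _).le
      _ = _ := by
          rw [Finset.sum_insert hr, ← mul_assoc, ← Real.exp_add, mul_add]

theorem exp_le_lin {A t : ℝ} (ht0 : 0 ≤ t) (ht : t ≤ 1) (hA : 0 ≤ A) :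
    Real.exp (A * t) ≤ 1 + (A * Real.exp A) * t := by
  have h1 : Real.exp (A * t) * (1 - A * t) ≤ 1 := by
    have h2 : 1 - A * t ≤ Real.exp (-(A * t)) := by
      have := Real.add_one_le_exp (-(A * t))
      linarith
    have h3 := mul_le_mul_of_nonneg_left h2 (Real.exp_pos (A * t)).le
    rwa [← Real.exp_add, add_neg_cancel, Real.exp_zero] at h3
  have h2 : Real.exp (A * t) ≤ Real.exp A := by
    apply Real.exp_le_exp.2
    nlinarith
  have h3 : 0 ≤ A * t := by positivity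
  have h4 : Real.exp (A * t) * (A * t) ≤ Real.exp A * (A * t) := mul_le_mul_of_nonneg_right h2 h3
  nlinarith

/-- the sum of `exp (A ∑_{q ∣ m} 1/q) / m` -/
theorem R_sum (A : ℝ) (hA : 0 ≤ A) : ∃ C : ℝ, 0 < C ∧ ∀ M : ℕ, 1 ≤ M →
    ∑ m ∈ Icc 1 M, 1 / (m : ℝ) * Real.exp (A * ∑ q ∈ m.primeFactors, 1 / (q : ℝ)) ≤
      C * (1 + Real.log M) := by
  classical
  obtain ⟨A', hA'⟩ : ∃ A', A' = A * Real.exp A := ⟨_, rfl⟩
  have hA'0 : 0 ≤ A' := by rw [hA']; positivity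
  refine ⟨Real.exp (A' * 1), by positivity, fun M hM => ?_⟩
  obtain ⟨P, hP⟩ : ∃ P, P = (Icc 1 M).filter Nat.Prime := ⟨_, rfl⟩
  have hPp : ∀ q ∈ P, q.Prime := fun q hq => by rw [hP, mem_filter] at hq; exact hq.2
  have h1 : ∀ m ∈ Icc 1 M, 1 / (m : ℝ) * Real.exp (A * ∑ q ∈ m.primeFactors, 1 / (q : ℝ)) ≤
      1 / (m : ℝ) * ∏ q ∈ P, (if q ∣ m then 1 + A' / q else 1) := by
    intro m hm
    rw [mem_Icc] at hm
    apply mul_le_mul_of_nonneg_left _ (by positivity)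
    rw [Finset.mul_sum, Real.exp_sum, ← Finset.prod_filter]
    have h2 : P.filter (fun q => q ∣ m) = m.primeFactors := by
      ext q
      rw [hP, mem_filter, mem_filter, mem_Icc, Nat.mem_primeFactors]
      constructor
      · rintro ⟨⟨-, h3⟩, h4⟩
        exact ⟨h3, h4, by omega⟩
      · rintro ⟨h3, h4, h5⟩
        exact ⟨⟨⟨h3.one_lt.le, (Nat.le_of_dvd (by omega) h4).trans hm.2⟩, h3⟩, h4⟩
    rw [h2]
    refine Finset.prod_le_prod (fun _ _ => (Real.exp_pos _).le) fun q hq => ?_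
    have hq1 : (1 : ℝ) ≤ q := by exact_mod_cast (Nat.prime_of_mem_primeFactors hq).one_lt.le
    have h3 := exp_le_lin (A := A) (t := 1 / (q : ℝ)) (by positivity)
      (by rw [div_le_one (by linarith)]; exact hq1) hA
    refine h3.trans (le_of_eq ?_)
    rw [hA']
    ring
  refine (Finset.sum_le_sum h1).trans ((R_step A' hA'0 P hPp M).trans ?_)
  have h2 : ∑ q ∈ P, 1 / (q : ℝ) ^ 2 ≤ 1 := by
    have h3 := Pool.Agent.U26Z.NL.sum_sq_le (le_refl 1) P (fun p hp => (hPp p hp).one_lt)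
    simpa using h3
  have h3 : ∑ m ∈ Icc 1 M, 1 / (m : ℝ) ≤ 1 + Real.log M := by
    have h4 := harmonic_le_one_add_log M
    rw [harmonic_eq_sum_Icc] at h4
    push_cast at h4
    simpa only [one_div] using h4
  have h4 : Real.exp (A' * ∑ q ∈ P, 1 / (q : ℝ) ^ 2) ≤ Real.exp (A' * 1) :=
    Real.exp_le_exp.2 (mul_le_mul_of_nonneg_left h2 hA'0)
  exact mul_le_mul h4 h3 (Finset.sum_nonneg fun _ _ => by positivity) (Real.exp_pos _).le

end Pool.Agent.U26Z.NP
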